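import Mathlib

/-!
Definitions for the exterior Cauchy transforms of compact ovals of nonsingular real plane curves.
-/

open MvPolynomial MeasureTheory

namespace Pool.Agent.Helper32.Oval

/-- The homogenisation of a real polynomial in the two variables `x = X 0`, `y = X 1`, with third
variable `X 2`, as a complex polynomial in three variables. -/
noncomputable def homog (P : MvPolynomial (Fin 2) ℝ) : MvPolynomial (Fin 3) ℂ :=
  ∑ m ∈ P.support,
    C ((P.coeff m : ℝ) : ℂ) * X 0 ^ m 0 * X 1 ^ m 1 * X 2 ^ (P.totalDegree - (m 0 + m 1))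

/-- The complex projective closure of `{P = 0}` is nonsingular: at every zero `v ≠ 0` of the
homogenised polynomial some partial derivative does not vanish. -/
def NonsingularClosure (P : MvPolynomial (Fin 2) ℝ) : Prop :=
  ∀ v : Fin 3 → ℂ, v ≠ 0 → eval v (homog P) = 0 → ∃ i, eval v (pderiv i (homog P)) ≠ 0

/-- The real affine curve `{P = 0}` in the plane `ℝ² = ℂ`. -/
def realCurve (P : MvPolynomial (Fin 2) ℝ) : Set ℂ :=
  {z | eval ![z.re, z.im] P = 0}

/-- A compact oval of `{P = 0}`: a compact connected component of the real affine curve. -/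
def IsCompactOval (P : MvPolynomial (Fin 2) ℝ) (Γ : Set ℂ) : Prop :=
  IsCompact Γ ∧ ∃ x ∈ realCurve P, Γ = connectedComponentIn (realCurve P) x

/-- `Ω` is a bounded connected component of the complement of `Γ`. -/
def IsBoundedComponent (Γ Ω : Set ℂ) : Prop :=
  Bornology.IsBounded Ω ∧ ∃ x ∈ Γᶜ, Ω = connectedComponentIn Γᶜ x

/-- The Cauchy transform of `Ω`, the integral being with respect to area. -/
noncomputable def cauchyTransform (Ω : Set ℂ) (z : ℂ) : ℂ :=
  (1 / Real.pi : ℂ) * ∫ ζ in Ω, 1 / (z - ζ)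

/-- `f` is algebraic on `s`: it satisfies a nonzero polynomial equation `F(z, f(z)) = 0`. -/
def IsAlgebraicOn (f : ℂ → ℂ) (s : Set ℂ) : Prop :=
  ∃ F : MvPolynomial (Fin 2) ℂ, F ≠ 0 ∧ ∀ z ∈ s, eval ![z, f z] F = 0

end Pool.Agent.Helper32.Oval
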