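import Pool.Agent.Helper32.Oval.LocalD
import Pool.Agent.Helper43.Oval.Growth

/-!
Assembly of the algebraic part.
-/

open Polynomial Filter Topology

namespace Pool.Agent.Helper32.Oval

open Pool.Agent.Helper43.Oval (entire_algebraic dichotomy_pt dichotomy_infty)

variable {k L : Type*} [Field k] [Field L] [Algebra k L] [Algebra ℂ[X] k] [IsFractionRing ℂ[X] k]
  [Algebra ℂ[X] L] [IsScalarTower ℂ[X] k L] {U : Set ℂ} {j : AnaRing U →+* L}

theorem dichotomy_of_pt (hj : Emb j) {D : Set ℂ} (N : IntermediateField k L)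
    [Algebra.IsAlgebraic k N] {b : ℂ} (hb : b ∈ D) : Dichotomy hj D N (𝓝[≠] b) := by
  intro n _ q f hrep
  exact dichotomy_pt (hrep.2.1 b hb) hrep.1

theorem dichotomy_of_infty (hj : Emb j) {D : Set ℂ} (hR : Region U D)
    (hbd : Bornology.IsBounded Dᶜ) (N : IntermediateField k L)
    [Algebra.IsAlgebraic k N] : Dichotomy hj D N (Bornology.cobounded ℂ) := by
  intro n _ q f hrep
  obtain ⟨hq, hf, hfU, e⟩ := hrep
  have hD := (goodFilter_infty hbd).mem
  have halg : IsAlgebraic ℂ[X] (j (toA f hfU)) := by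
    have h3 : IsAlgebraic k (n : L) := by
      have := Algebra.IsAlgebraic.isAlgebraic (R := k) n
      exact IntermediateField.isAlgebraic_iff.1 this
    have h4 : IsAlgebraic ℂ[X] (n : L) := (IsFractionRing.isAlgebraic_iff ℂ[X] k L).2 h3
    rw [← e]
    exact (isAlgebraic_algebraMap _).mul h4
  obtain ⟨Q, hQ, hQf⟩ := halg
  have hQf' : ∀ z ∈ D, Q.evalEval z (f z) = 0 := by
    have h3 : j (toA (fun z => Q.evalEval z (f z)) (analytic_evalEval Q hfU)) = 0 := by
      rw [← hj.eval₂]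
      exact hQf
    have h4 : toA (fun z => Q.evalEval z (f z)) (analytic_evalEval Q hfU) = 0 :=
      hj.inj (by rw [h3, map_zero])
    exact hR.eqOn (analytic_evalEval Q hf) analyticOnNhd_const fun z hz =>
      congrFun (congrArg Subtype.val h4) ⟨z, hz⟩
  refine dichotomy_infty ?_ hQ ?_ hq
  · filter_upwards [hD] with z hz
    exact hf z hz
  · filter_upwards [hD] with z hz
    exact hQf' z hz

theorem core' [IsAlgClosed L] [CharZero k] (hj : Emb j) {p : Polynomial (Polynomial ℂ)} {d : ℕ}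
    (hd : 3 ≤ d) (hp : SmoothChart d p) (hq : SmoothChart d (flip d p)) (hD : d ≤ p.natDegree + 1)
    {Do Di : Set ℂ} (hR : Region U Do) (hR' : Region U Di) (hcov : Do ∪ Di = Set.univ)
    (hint : Do ∩ Di ⊆ U) (hbd : Bornology.IsBounded Doᶜ) {S F H : ℂ → ℂ}
    (hS : AnalyticOnNhd ℂ S U) (hpS : ∀ z ∈ U, p.evalEval z (S z) = 0)
    (hF : AnalyticOnNhd ℂ F Do) (hH : AnalyticOnNhd ℂ H Di) (hFH : ∀ z ∈ U, F z - H z = S z)
    {Q : Polynomial (Polynomial ℂ)} (hQ : Q ≠ 0) (hQF : ∀ z ∈ Do, Q.evalEval z (F z) = 0) :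
    ∃ Fθ Hθ : ℂ → ℂ, AnalyticOnNhd ℂ Fθ Do ∧ AnalyticOnNhd ℂ Hθ Di ∧
      (∀ z ∈ U, (Fθ z - Hθ z) * p.derivative.evalEval z (S z) = 1) ∧
      Tendsto (fun z => z * Fθ z) (Bornology.cobounded ℂ) (𝓝 0) := by
  classical
  have hFU := hF.mono hR.sub
  have hHU := hH.mono hR'.sub
  set F' : L := j (toA F hFU) with hF'
  set S' : L := j (toA S hS) with hS'
  have hinjL : Function.Injective (algebraMap ℂ[X] L) := by
    rw [IsScalarTower.algebraMap_eq ℂ[X] k L]
    exact (algebraMap k L).injective.comp (IsFractionRing.injective ℂ[X] k)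
  have hF'alg : IsAlgebraic k F' := by
    refine (IsFractionRing.isAlgebraic_iff ℂ[X] k L).1 ⟨Q, hQ, ?_⟩
    have h1 : Q.eval₂ (algebraMap ℂ[X] L) F' = 0 := by
      rw [hF', hj.eval₂]
      have : toA (fun z => Q.evalEval z (F z)) (analytic_evalEval Q hFU) = 0 :=
        Subtype.ext (funext fun z => hQF z (hR.sub z.2))
      rw [this, map_zero]
    exact h1
  have hS'root : p.eval₂ (algebraMap ℂ[X] L) S' = 0 := by
    rw [hS', hj.eval₂]
    have : toA (fun z => p.evalEval z (S z)) (analytic_evalEval p hS) = 0 :=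
      Subtype.ext (funext fun z => hpS z z.2)
    rw [this, map_zero]
  -- the splitting field
  have hPk0 : p.map (algebraMap ℂ[X] k) ≠ 0 := by
    rw [Ne, Polynomial.map_eq_zero_iff (IsFractionRing.injective ℂ[X] k)]
    exact hp.ne_zero
  set f : k[X] := minpoly k F' * p.map (algebraMap ℂ[X] k) with hf
  have hf0 : f ≠ 0 := mul_ne_zero (minpoly.ne_zero hF'alg.isIntegral) hPk0
  set N : IntermediateField k L := IntermediateField.adjoin k (f.rootSet L) with hN
  have hsplit : (f.map (algebraMap k L)).Splits := IsAlgClosed.splits _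
  have hsf : IsSplittingField k N f := IntermediateField.adjoin_rootSet_isSplittingField hsplit
  have hfd : FiniteDimensional k N := IsSplittingField.finiteDimensional N f
  have hnorm : Normal k N := Normal.of_isSplittingField f
  have hgal : IsGalois k N := ⟨⟩
  have hF'N : F' ∈ N := by
    refine IntermediateField.subset_adjoin k _ ?_
    rw [mem_rootSet_of_ne hf0, hf, map_mul, minpoly.aeval, zero_mul]
  have hS'N : S' ∈ N := by
    refine IntermediateField.subset_adjoin k _ ?_
    rw [mem_rootSet_of_ne hf0, hf, map_mul, aeval_map_algebraMap]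
    exact mul_eq_zero_of_right _ hS'root
  have hinjN := algebraMap_inj k N
  have halgN := isAlg_algebraMap k N
  -- the roots of `p` in `N`
  set PN : N[X] := p.map (algebraMap ℂ[X] N) with hPN
  have hPN0 : PN ≠ 0 := by
    rw [Ne, hPN, Polynomial.map_eq_zero_iff hinjN]
    exact hp.ne_zero
  have hPNsplit : PN.Splits := by
    have h1 := hsf.splits
    refine h1.of_dvd ?_ ?_
    · rw [Ne, Polynomial.map_eq_zero_iff (algebraMap k N).injective]
      exact hf0
    · rw [hPN, IsScalarTower.algebraMap_eq ℂ[X] k N, ← Polynomial.map_map, hf,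
        Polynomial.map_mul]
      exact dvd_mul_left _ _
  have hder : ∀ y : N, p.eval₂ (algebraMap ℂ[X] N) y = 0 →
      p.derivative.eval₂ (algebraMap ℂ[X] N) y ≠ 0 := by
    intro y hy
    obtain ⟨A, hA⟩ := exists_place hinjN 0
    have h1 := hp.est0 hd hA hinjN halgN hy (m := 0) (by omega)
    intro h0
    rw [h0, map_zero] at h1
    exact absurd h1 (not_lt.2 zero_le)
  have hnodup : PN.roots.Nodup := by
    rw [Multiset.nodup_iff_count_le_one]
    intro y
    rw [count_roots]
    by_contra hcon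
    rw [not_le, one_lt_rootMultiplicity_iff_isRoot hPN0] at hcon
    obtain ⟨h2, h1⟩ := hcon
    rw [IsRoot, hPN, derivative_map, eval_map] at h1
    rw [IsRoot, hPN, eval_map] at h2
    exact hder y h2 h1
  set s : Finset N := PN.roots.toFinset with hs
  have hroots : HasRoots (algebraMap ℂ[X] N) p s := by
    rw [HasRoots, ← hPN]
    conv_lhs => rw [hPNsplit.eq_prod_roots]
    congr 1
    · rw [hPN, leadingCoeff_map_of_injective hinjN]
    · rw [hs, Finset.prod, Multiset.toFinset_val, Multiset.dedup_eq_self.2 hnodup]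
  have hc : Ctx d p s := ⟨hd, hp, hq, hD, hroots, hinjN, halgN⟩
  -- the fields of functions
  have hK : KD hj Do N ⊓ KD hj Di N = ⊥ :=
    KD_inf (fun g h1 Q h2 h3 => entire_algebraic g h1 Q h2 h3) hj hinjL hR hR' hcov hint N
  set FN : N := ⟨F', hF'N⟩ with hFN
  set SN : N := ⟨S', hS'N⟩ with hSN
  have hSs : SN ∈ s := by
    rw [hc.mem_iff]
    have h1 : (((p.eval₂ (algebraMap ℂ[X] N) SN : N)) : L) = p.eval₂ (algebraMap ℂ[X] L) S' := by
      exact Polynomial.hom_eval₂ p (algebraMap ℂ[X] N) (algebraMap N L) SN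
    exact Subtype.ext (by rw [h1, hS'root]; rfl)
  have hFK : FN ∈ KD hj Do N := mem_KD.2 ⟨1, F, IsRep.of_ana hF hFU⟩
  have hHK : FN - SN ∈ KD hj Di N := by
    refine mem_KD.2 ⟨1, H, ?_⟩
    have h1 : ((FN - SN : N) : L) = j (toA H hHU) := by
      show F' - S' = _
      rw [hF', hS', ← map_sub j]
      congr 1
      refine Subtype.ext (funext fun z => ?_)
      show F z - S z = H z
      rw [← hFH z z.2]
      ring
    rw [h1]
    exact IsRep.of_ana hH hHU
  obtain ⟨Fθ, hFθ, Hθ, hHθ, hrel, ⟨r, hr⟩, ⟨r', hr'⟩⟩ := hc.descent (k := k) hSs hK hFK hHK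
  -- regularisation
  obtain ⟨q1, f1, hrep1⟩ := mem_KD.1 hFθ
  obtain ⟨q2, f2, hrep2⟩ := mem_KD.1 hHθ
  obtain ⟨g1, hg1, hg1U, e1⟩ := regularise hR hj hinjL hrep1 fun b hb => by
    rw [hr]
    exact hc.small_pt hj hR (goodFilter_pt hR hb) (dichotomy_of_pt hj N hb) (hr ▸ hFθ)
  obtain ⟨g2, hg2, hg2U, e2⟩ := regularise hR' hj hinjL hrep2 fun b hb => by
    rw [hr']
    exact hc.small_pt hj hR' (goodFilter_pt hR' hb) (dichotomy_of_pt hj N hb) (hr' ▸ hHθ)
  refine ⟨g1, g2, hg1, hg2, ?_, ?_⟩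
  · -- the jump
    have hder' := hc.deriv_ne hSs
    have h1 : (Fθ - Hθ) * p.derivative.eval₂ (algebraMap ℂ[X] N) SN = 1 := by
      rw [hrel, theta, inv_mul_cancel₀ hder']
    have h2 : (((p.derivative.eval₂ (algebraMap ℂ[X] N) SN : N)) : L) =
        p.derivative.eval₂ (algebraMap ℂ[X] L) S' := by
      exact Polynomial.hom_eval₂ p.derivative (algebraMap ℂ[X] N) (algebraMap N L) SN
    have h3 : (j (toA g1 hg1U) - j (toA g2 hg2U)) * p.derivative.eval₂ (algebraMap ℂ[X] L) S' =
        1 := by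
      rw [← e1, ← e2, ← h2]
      exact congrArg Subtype.val h1
    rw [hS', hj.eval₂, ← map_sub j, ← map_mul j] at h3
    have h4 := hj.inj (h3.trans (map_one j).symm)
    intro z hz
    exact congrFun (congrArg Subtype.val h4) ⟨z, hz⟩
  · -- infinity
    have h1 := hc.small_infty hj hR (goodFilter_infty hbd) (dichotomy_of_infty hj hR hbd N)
      (r := r) (hr ▸ hFθ)
    rw [← hr, e1] at h1
    have h2 : IsRep j Do (algebraMap ℂ[X] L X * j (toA g1 hg1U)) (1 * 1)
        (fun z => (X : ℂ[X]).eval z * g1 z) :=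
      (isRep_poly hj X).mul (IsRep.of_ana hg1 hg1U)
    have h3 := h1.of_rep hR hj (goodFilter_infty hbd) h2
    simpa using h3

end Pool.Agent.Helper32.Oval
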