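import Pool.Agent.Helper32.Oval.Assembly

/-!
The algebraic part with concrete fields.
-/

open Polynomial Filter Topology

namespace Pool.Agent.Helper32.Oval

theorem core {U : Set ℂ} (hU : IsPreconnected U) {p : Polynomial (Polynomial ℂ)} {d : ℕ}
    (hd : 3 ≤ d) (hp : SmoothChart d p) (hq : SmoothChart d (flip d p)) (hD : d ≤ p.natDegree + 1)
    {Do Di : Set ℂ} (hR : Region U Do) (hR' : Region U Di) (hcov : Do ∪ Di = Set.univ)
    (hint : Do ∩ Di ⊆ U) (hbd : Bornology.IsBounded Doᶜ) {S F H : ℂ → ℂ}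
    (hS : AnalyticOnNhd ℂ S U) (hpS : ∀ z ∈ U, p.evalEval z (S z) = 0)
    (hF : AnalyticOnNhd ℂ F Do) (hH : AnalyticOnNhd ℂ H Di) (hFH : ∀ z ∈ U, F z - H z = S z)
    {Q : Polynomial (Polynomial ℂ)} (hQ : Q ≠ 0) (hQF : ∀ z ∈ Do, Q.evalEval z (F z) = 0) :
    ∃ Fθ Hθ : ℂ → ℂ, AnalyticOnNhd ℂ Fθ Do ∧ AnalyticOnNhd ℂ Hθ Di ∧
      (∀ z ∈ U, (Fθ z - Hθ z) * p.derivative.evalEval z (S z) = 1) ∧
      Tendsto (fun z => z * Fθ z) (Bornology.cobounded ℂ) (𝓝 0) := by
  have hdom : IsDomain (AnaRing U) := isDomain_anaRing hU hR.neU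
  let j : AnaRing U →+* AlgebraicClosure (FractionRing (AnaRing U)) :=
    (algebraMap (FractionRing (AnaRing U)) (AlgebraicClosure (FractionRing (AnaRing U)))).comp
      (algebraMap (AnaRing U) (FractionRing (AnaRing U)))
  have hj : Function.Injective j :=
    (algebraMap (FractionRing (AnaRing U))
      (AlgebraicClosure (FractionRing (AnaRing U)))).injective.comp
      (IsFractionRing.injective (AnaRing U) (FractionRing (AnaRing U)))
  have hjp : Function.Injective (j.comp (polyA U)) :=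
    hj.comp (polyA_injective hR.openU hR.neU)
  let a1 : Algebra ℂ[X] (AlgebraicClosure (FractionRing (AnaRing U))) :=
    (j.comp (polyA U)).toAlgebra
  let a2 : Algebra (FractionRing ℂ[X]) (AlgebraicClosure (FractionRing (AnaRing U))) :=
    (IsFractionRing.lift (K := FractionRing ℂ[X]) hjp).toAlgebra
  have hst : IsScalarTower ℂ[X] (FractionRing ℂ[X])
      (AlgebraicClosure (FractionRing (AnaRing U))) :=
    IsScalarTower.of_algebraMap_eq fun x => (IsFractionRing.lift_algebraMap hjp x).symm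
  have hemb : Emb j := ⟨hj, fun f => rfl⟩
  have hch : CharZero (FractionRing ℂ[X]) := inferInstance
  exact core' (k := FractionRing ℂ[X]) hemb hd hp hq hD hR hR' hcov hint hbd hS hpS hF hH hFH
    hQ hQF

end Pool.Agent.Helper32.Oval
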