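import Pool.Agent.Helper32.Oval.Key

/-!
The Galois descent: from the decomposition `F - H = S` to the decomposition of the inverse
derivative.
-/

open Polynomial ComplexConjugate

namespace Pool.Agent.Helper32.Oval

variable {k N : Type*} [Field k] [Field N] [Algebra k N] [FiniteDimensional k N] [IsGalois k N]
  [Algebra ℂ[X] k] [IsFractionRing ℂ[X] k] [Algebra ℂ[X] N] [IsScalarTower ℂ[X] k N]

variable {d : ℕ} {p : Polynomial (Polynomial ℂ)} {s : Finset N}

/-- `∑ r(y) f(y)` over the roots `y`. -/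
noncomputable def comb (s : Finset N) (r : N → ℂ) (f : N → N) : N :=
  ∑ y ∈ s, algebraMap ℂ[X] N (C (r y)) * f y

/-- The inverse derivative at a root. -/
noncomputable def theta (p : Polynomial (Polynomial ℂ)) (y : N) : N :=
  (p.derivative.eval₂ (algebraMap ℂ[X] N) y)⁻¹

omit [FiniteDimensional k N] [IsGalois k N] in
theorem Ctx.sigma_comb (hc : Ctx d p s) (σ : N ≃ₐ[k] N) (r : N → ℂ) {f : N → N}
    (hf : ∀ y, σ (f y) = f (σ y)) : σ (comb s r f) = comb s (fun y => r (σ.symm y)) f := by
  classical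
  have himg : s.image σ = s := by
    refine Finset.eq_of_subset_of_card_le (Finset.image_subset_iff.2 fun z hz =>
      hc.sigma_mem σ hz) ?_
    rw [Finset.card_image_of_injective _ σ.injective]
  rw [comb, comb, map_sum]
  conv_rhs => rw [← himg]
  rw [Finset.sum_image fun x _ y _ hxy => σ.injective hxy]
  refine Finset.sum_congr rfl fun y _ => ?_
  rw [AlgEquiv.symm_apply_apply, map_mul, sigma_algebraMap, hf]

omit [FiniteDimensional k N] [IsGalois k N] [IsFractionRing ℂ[X] k] in
theorem sigma_theta (σ : N ≃ₐ[k] N) (y : N) :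
    σ (theta p y) = theta p (σ y) := by
  rw [theta, theta, map_inv₀, sigma_eval₂]

theorem comb_sub (s : Finset N) (r r' : N → ℂ) (f : N → N) :
    comb s (fun y => r y - r' y) f = comb s r f - comb s r' f := by
  rw [comb, comb, comb, ← Finset.sum_sub_distrib]
  refine Finset.sum_congr rfl fun y _ => ?_
  rw [C_sub, map_sub, sub_mul]

theorem comb_add (s : Finset N) (r r' : N → ℂ) (f : N → N) :
    comb s (fun y => r y + r' y) f = comb s r f + comb s r' f := by
  rw [comb, comb, comb, ← Finset.sum_add_distrib]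
  refine Finset.sum_congr rfl fun y _ => ?_
  rw [C_add, map_add, add_mul]

theorem comb_smul (s : Finset N) (c : ℂ) (r : N → ℂ) (f : N → N) :
    comb s (fun y => c * r y) f = algebraMap ℂ[X] N (C c) * comb s r f := by
  rw [comb, comb, Finset.mul_sum]
  refine Finset.sum_congr rfl fun y _ => ?_
  rw [C_mul, map_mul, mul_assoc]

theorem comb_single [DecidableEq N] {s : Finset N} {x : N} (hx : x ∈ s) (f : N → N) :
    comb s (fun y => if y = x then 1 else 0) f = f x := by
  rw [comb, Finset.sum_eq_single x]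
  · simp
  · intro y _ hne
    simp [hne]
  · intro h
    exact absurd hx h

variable (k) in
include k in
theorem Ctx.comb_eq (hc : Ctx d p s) {r r' : N → ℂ}
    (h : comb s r (fun y => y) = comb s r' fun y => y) :
    comb s r (theta p) = comb s r' (theta p) := by
  rw [← sub_eq_zero, ← comb_sub] at h ⊢
  exact hc.key k _ h

theorem Ctx.fixed_comb (hc : Ctx d p s) (σ : N ≃ₐ[k] N) {r : N → ℂ}
    (h : σ (comb s r fun y => y) = comb s r fun y => y) :
    σ (comb s r (theta p)) = comb s r (theta p) := by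
  rw [hc.sigma_comb σ r (f := fun y => y) (fun _ => rfl)] at h
  rw [hc.sigma_comb σ r (sigma_theta σ)]
  exact hc.comb_eq k h

theorem Ctx.descent (hc : Ctx d p s) {F S : N} (hS : S ∈ s)
    {Kout Kin : IntermediateField k N} (hK : Kout ⊓ Kin = ⊥) (hF : F ∈ Kout)
    (hH : F - S ∈ Kin) :
    ∃ Fθ ∈ Kout, ∃ Hθ ∈ Kin, Fθ - Hθ = theta p S ∧ (∃ r, Fθ = comb s r (theta p)) ∧
      ∃ r, Hθ = comb s r (theta p) := by
  classical
  -- the subgroup
  let G : Subgroup (N ≃ₐ[k] N) :=
    { carrier := {σ | ∃ r, σ F - F = comb s r fun y => y}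
      mul_mem' := by
        rintro σ τ ⟨r, hr⟩ ⟨r', hr'⟩
        refine ⟨fun y => r' (σ.symm y) + r y, ?_⟩
        rw [comb_add, ← hr, ← hc.sigma_comb σ r' (f := fun y => y) (fun _ => rfl), ← hr', map_sub,
          AlgEquiv.mul_apply]
        ring
      one_mem' := ⟨fun _ => 0, by simp [comb]⟩
      inv_mem' := by
        rintro σ ⟨r, hr⟩
        refine ⟨fun y => (-1) * r (σ y), ?_⟩
        have h1 := hc.sigma_comb σ⁻¹ r (f := fun y => y) (fun _ => rfl)
        have h2 : (fun y => r ((σ⁻¹).symm y)) = fun y => r (σ y) := rfl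
        rw [h2] at h1
        rw [comb_smul, ← h1, ← hr, map_sub]
        have h3 : σ⁻¹ (σ F) = F := AlgEquiv.symm_apply_apply σ F
        rw [h3]
        simp }
  have hGout : Kout.fixingSubgroup ≤ G := by
    intro σ hσ
    rw [IntermediateField.mem_fixingSubgroup_iff] at hσ
    exact ⟨fun _ => 0, by rw [hσ F hF]; simp [comb]⟩
  have hGin : Kin.fixingSubgroup ≤ G := by
    intro σ hσ
    rw [IntermediateField.mem_fixingSubgroup_iff] at hσ
    have h1 := hσ _ hH
    rw [map_sub] at h1
    refine ⟨fun y => (if y = σ S then 1 else 0) - (if y = S then 1 else 0), ?_⟩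
    rw [comb_sub, comb_single (hc.sigma_mem σ hS), comb_single hS]
    linear_combination h1
  have hGtop : G = ⊤ := by
    have h1 : IntermediateField.fixedField G = ⊥ := by
      rw [eq_bot_iff, ← hK]
      refine le_inf ?_ ?_
      · intro x hx
        rw [← IsGalois.fixedField_fixingSubgroup Kout, IntermediateField.mem_fixedField_iff]
        intro σ hσ
        exact (IntermediateField.mem_fixedField_iff G x).1 hx σ (hGout hσ)
      · intro x hx
        rw [← IsGalois.fixedField_fixingSubgroup Kin, IntermediateField.mem_fixedField_iff]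
        intro σ hσ
        exact (IntermediateField.mem_fixedField_iff G x).1 hx σ (hGin hσ)
    rw [← IntermediateField.fixingSubgroup_fixedField G, h1, IntermediateField.fixingSubgroup_bot]
  have hall : ∀ σ : N ≃ₐ[k] N, ∃ r, σ F - F = comb s r fun y => y := by
    intro σ
    have : σ ∈ G := by rw [hGtop]; trivial
    exact this
  choose r hr using hall
  -- the average
  set m : ℂ := (Fintype.card (N ≃ₐ[k] N) : ℂ) with hm
  have hm0 : m ≠ 0 := by
    rw [hm]
    exact_mod_cast Fintype.card_ne_zero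
  set ρ : N := algebraMap ℂ[X] N (C m⁻¹) * ∑ σ : N ≃ₐ[k] N, σ F with hρ
  have hρfix : ∀ τ : N ≃ₐ[k] N, τ ρ = ρ := by
    intro τ
    rw [hρ, map_mul, sigma_algebraMap, map_sum]
    congr 1
    exact Fintype.sum_equiv (Equiv.mulLeft τ) _ _ fun σ => rfl
  obtain ⟨r0, hr0⟩ : ∃ r0 : N → ℂ, F - ρ = comb s r0 fun y => y := by
    refine ⟨fun y => (-m⁻¹) * ∑ σ : N ≃ₐ[k] N, r σ y, ?_⟩
    rw [comb_smul]
    have h1 : comb s (fun y => ∑ σ : N ≃ₐ[k] N, r σ y) (fun y => y) =
        ∑ σ : N ≃ₐ[k] N, (σ F - F) := by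
      simp only [hr, comb]
      rw [Finset.sum_comm]
      refine Finset.sum_congr rfl fun y _ => ?_
      rw [map_sum, map_sum, Finset.sum_mul]
    rw [h1, Finset.sum_sub_distrib, Finset.sum_const, Finset.card_univ, nsmul_eq_mul, hρ]
    have h2 : (Fintype.card (N ≃ₐ[k] N) : N) = algebraMap ℂ[X] N (C m) := by
      rw [hm]; simp
    rw [h2, C_neg, map_neg]
    have h3 : algebraMap ℂ[X] N (C m⁻¹) * algebraMap ℂ[X] N (C m) = 1 := by
      rw [← map_mul, ← C_mul, inv_mul_cancel₀ hm0, C_1, map_one]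
    linear_combination (-F) * h3
  set r1 : N → ℂ := fun y => r0 y - (if y = S then 1 else 0) with hr1
  have hr1' : ∀ f : N → N, comb s r1 f = comb s r0 f - f S := fun f => by
    rw [hr1, comb_sub, comb_single hS]
  refine ⟨comb s r0 (theta p), ?_, comb s r1 (theta p), ?_, ?_, ⟨r0, rfl⟩, ⟨r1, rfl⟩⟩
  · rw [← IsGalois.fixedField_fixingSubgroup Kout, IntermediateField.mem_fixedField_iff]
    intro σ hσ
    rw [IntermediateField.mem_fixingSubgroup_iff] at hσ
    refine hc.fixed_comb σ ?_
    rw [← hr0, map_sub, hσ F hF, hρfix]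
  · rw [← IsGalois.fixedField_fixingSubgroup Kin, IntermediateField.mem_fixedField_iff]
    intro σ hσ
    rw [IntermediateField.mem_fixingSubgroup_iff] at hσ
    refine hc.fixed_comb σ ?_
    rw [hr1', ← hr0]
    have h1 := hσ _ hH
    have h2 : F - ρ - S = (F - S) - ρ := by ring
    rw [h2, map_sub, h1, hρfix]
  · rw [hr1']
    ring

end Pool.Agent.Helper32.Oval
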