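import Mathlib

/-!
The ring of analytic functions on a plane region, and representations of elements of a field
containing it as quotients of analytic functions by polynomials.
-/

open Polynomial Filter Topology

namespace Pool.Agent.Helper32.Oval

/-- The ring of (restrictions to `U` of) functions analytic on `U`. -/
def AnaRing (U : Set ℂ) : Subring (U → ℂ) where
  carrier := {f | ∃ g : ℂ → ℂ, AnalyticOnNhd ℂ g U ∧ ∀ z : U, f z = g z}
  mul_mem' := by
    rintro f f' ⟨g, hg, hfg⟩ ⟨g', hg', hfg'⟩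
    exact ⟨fun z => g z * g' z, hg.mul hg', fun z => by rw [Pi.mul_apply, hfg, hfg']⟩
  one_mem' := ⟨fun _ => 1, analyticOnNhd_const, fun _ => rfl⟩
  add_mem' := by
    rintro f f' ⟨g, hg, hfg⟩ ⟨g', hg', hfg'⟩
    exact ⟨fun z => g z + g' z, hg.add hg', fun z => by rw [Pi.add_apply, hfg, hfg']⟩
  zero_mem' := ⟨fun _ => 0, analyticOnNhd_const, fun _ => rfl⟩
  neg_mem' := by
    rintro f ⟨g, hg, hfg⟩
    exact ⟨fun z => - g z, hg.neg, fun z => by rw [Pi.neg_apply, hfg]⟩

/-- The element of `AnaRing U` given by a function analytic on `U`. -/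
def toA {U : Set ℂ} (g : ℂ → ℂ) (hg : AnalyticOnNhd ℂ g U) : AnaRing U :=
  ⟨fun z => g z, g, hg, fun _ => rfl⟩

variable {U : Set ℂ}

theorem exists_toA (a : AnaRing U) : ∃ g, ∃ hg : AnalyticOnNhd ℂ g U, a = toA g hg := by
  obtain ⟨f, g, hg, hfg⟩ := a
  exact ⟨g, hg, Subtype.ext (funext hfg)⟩

theorem toA_eq_iff {g g' : ℂ → ℂ} {hg : AnalyticOnNhd ℂ g U} {hg' : AnalyticOnNhd ℂ g' U} :
    toA g hg = toA g' hg' ↔ ∀ z ∈ U, g z = g' z := by
  constructor
  · intro h z hz
    exact congrFun (congrArg Subtype.val h) ⟨z, hz⟩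
  · intro h
    exact Subtype.ext (funext fun z => h z z.2)

theorem toA_mul {g g' : ℂ → ℂ} (hg : AnalyticOnNhd ℂ g U) (hg' : AnalyticOnNhd ℂ g' U) :
    toA g hg * toA g' hg' = toA (fun z => g z * g' z) (hg.mul hg') := rfl

theorem toA_add {g g' : ℂ → ℂ} (hg : AnalyticOnNhd ℂ g U) (hg' : AnalyticOnNhd ℂ g' U) :
    toA g hg + toA g' hg' = toA (fun z => g z + g' z) (hg.add hg') := rfl

theorem toA_sub {g g' : ℂ → ℂ} (hg : AnalyticOnNhd ℂ g U) (hg' : AnalyticOnNhd ℂ g' U) :
    toA g hg - toA g' hg' = toA (fun z => g z - g' z) (hg.sub hg') := rfl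

theorem analytic_poly (f : ℂ[X]) (U : Set ℂ) : AnalyticOnNhd ℂ (fun z => f.eval z) U :=
  fun z _ => by
    have : Differentiable ℂ fun z => f.eval z := f.differentiable
    exact this.analyticAt z

/-- The polynomials in `AnaRing U`. -/
noncomputable def polyA (U : Set ℂ) : ℂ[X] →+* AnaRing U where
  toFun f := toA (fun z => f.eval z) (analytic_poly f U)
  map_one' := Subtype.ext (funext fun z => by simp [toA])
  map_mul' f g := Subtype.ext (funext fun z => by simp [toA])
  map_zero' := Subtype.ext (funext fun z => by simp [toA])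
  map_add' f g := Subtype.ext (funext fun z => by simp [toA])

theorem polyA_apply (f : ℂ[X]) :
    polyA U f = toA (fun z => f.eval z) (analytic_poly f U) := rfl

theorem isDomain_anaRing (hU : IsPreconnected U) (hne : U.Nonempty) : IsDomain (AnaRing U) := by
  have : Nontrivial (AnaRing U) := by
    obtain ⟨z, hz⟩ := hne
    refine ⟨0, 1, fun h => ?_⟩
    have := congrFun (congrArg Subtype.val h) ⟨z, hz⟩
    exact zero_ne_one this
  have : NoZeroDivisors (AnaRing U) := by
    refine ⟨fun {a b} hab => ?_⟩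
    obtain ⟨f, hf, rfl⟩ := exists_toA a
    obtain ⟨g, hg, rfl⟩ := exists_toA b
    have h1 : ∀ z ∈ U, f z * g z = 0 := fun z hz =>
      congrFun (congrArg Subtype.val hab) ⟨z, hz⟩
    rcases hf.eq_zero_or_eq_zero_of_mul_eq_zero hg h1 hU with h | h
    · exact Or.inl (Subtype.ext (funext fun z => h z z.2))
    · exact Or.inr (Subtype.ext (funext fun z => h z z.2))
  exact NoZeroDivisors.to_isDomain _

theorem polyA_injective (hU : IsOpen U) (hne : U.Nonempty) : Function.Injective (polyA U) := by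
  rw [injective_iff_map_eq_zero]
  intro f hf
  obtain ⟨z, hz⟩ := hne
  have hinf : U.Infinite := infinite_of_mem_nhds z (hU.mem_nhds hz)
  refine Polynomial.eq_zero_of_infinite_isRoot f (hinf.mono fun w hw => ?_)
  exact congrFun (congrArg Subtype.val hf) ⟨w, hw⟩

theorem evalEval_sum' (Q : Polynomial (Polynomial ℂ)) (z w : ℂ) :
    Q.evalEval z w = Q.sum fun n a => a.eval z * w ^ n := by
  rw [← eval₂_evalRingHom, eval₂_eq_sum]
  rfl

theorem analytic_evalEval (Q : Polynomial (Polynomial ℂ)) {f : ℂ → ℂ} {D : Set ℂ}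
    (hf : AnalyticOnNhd ℂ f D) : AnalyticOnNhd ℂ (fun z => Q.evalEval z (f z)) D := by
  have h1 : (fun z => Q.evalEval z (f z)) =
      fun z => ∑ n ∈ Q.support, (Q.coeff n).eval z * f z ^ n := by
    funext z
    rw [evalEval_sum', Polynomial.sum_def]
  rw [h1]
  exact Finset.analyticOnNhd_fun_sum _ fun n _ => (analytic_poly _ _).mul (hf.pow n)

/-- The data of an embedding of `AnaRing U` into a field `L` containing `k = ℂ(z)`. -/
structure Emb {L : Type*} [Field L] [Algebra ℂ[X] L] (j : AnaRing U →+* L) : Prop where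
  inj : Function.Injective j
  poly : ∀ f, j (polyA U f) = algebraMap ℂ[X] L f

variable {k L : Type*} [Field k] [Field L] [Algebra k L] [Algebra ℂ[X] k] [IsFractionRing ℂ[X] k]
  [Algebra ℂ[X] L] [IsScalarTower ℂ[X] k L] {j : AnaRing U →+* L}

omit [Field k] [Algebra k L] [Algebra ℂ[X] k] [IsFractionRing ℂ[X] k]
  [IsScalarTower ℂ[X] k L] in
theorem Emb.eval₂ (hj : Emb j) (Q : Polynomial (Polynomial ℂ)) {f : ℂ → ℂ}
    (hf : AnalyticOnNhd ℂ f U) :
    Q.eval₂ (algebraMap ℂ[X] L) (j (toA f hf)) =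
      j (toA (fun z => Q.evalEval z (f z)) (analytic_evalEval Q hf)) := by
  have h1 : toA (fun z => Q.evalEval z (f z)) (analytic_evalEval Q hf) =
      ∑ n ∈ Q.support, polyA U (Q.coeff n) * toA f hf ^ n := by
    refine Subtype.ext (funext fun z => ?_)
    have h2 : ((∑ n ∈ Q.support, polyA U (Q.coeff n) * toA f hf ^ n : AnaRing U) : U → ℂ) z =
        ∑ n ∈ Q.support, ((polyA U (Q.coeff n) * toA f hf ^ n : AnaRing U) : U → ℂ) z := by
      rw [AddSubmonoidClass.coe_finsetSum, Finset.sum_apply]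
    rw [h2]
    show Q.evalEval (z : ℂ) (f z) = _
    rw [evalEval_sum', Polynomial.sum_def]
    rfl
  rw [h1, map_sum, eval₂_eq_sum, Polynomial.sum_def]
  refine Finset.sum_congr rfl fun n _ => ?_
  rw [map_mul, map_pow, hj.poly]

/-- `n` is represented on `D` by the quotient `f / q`. -/
def IsRep (j : AnaRing U →+* L) (D : Set ℂ) (n : L) (q : ℂ[X]) (f : ℂ → ℂ) : Prop :=
  q ≠ 0 ∧ AnalyticOnNhd ℂ f D ∧
    ∃ hf : AnalyticOnNhd ℂ f U, algebraMap ℂ[X] L q * n = j (toA f hf)

variable {D : Set ℂ}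

omit [Field k] [Algebra k L] [Algebra ℂ[X] k] [IsFractionRing ℂ[X] k]
  [IsScalarTower ℂ[X] k L] in
theorem IsRep.add (hj : Emb j) {n n' : L} {q q' : ℂ[X]} {f f' : ℂ → ℂ} (h : IsRep j D n q f)
    (h' : IsRep j D n' q' f') :
    IsRep j D (n + n') (q * q') (fun z => q'.eval z * f z + q.eval z * f' z) := by
  obtain ⟨h1, h2, h3, h4⟩ := h
  obtain ⟨h1', h2', h3', h4'⟩ := h'
  refine ⟨mul_ne_zero h1 h1', ((analytic_poly q' D).mul h2).add ((analytic_poly q D).mul h2'),
    ((analytic_poly q' U).mul h3).add ((analytic_poly q U).mul h3'), ?_⟩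
  have e1 : toA (fun z => q'.eval z * f z + q.eval z * f' z)
      (((analytic_poly q' U).mul h3).add ((analytic_poly q U).mul h3')) =
      polyA U q' * toA f h3 + polyA U q * toA f' h3' := rfl
  rw [e1, map_add, map_mul j, map_mul j, hj.poly, hj.poly, ← h4, ← h4', map_mul]
  ring

omit [Field k] [Algebra k L] [Algebra ℂ[X] k] [IsFractionRing ℂ[X] k]
  [IsScalarTower ℂ[X] k L] in
theorem IsRep.mul {n n' : L} {q q' : ℂ[X]} {f f' : ℂ → ℂ} (h : IsRep j D n q f)
    (h' : IsRep j D n' q' f') :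
    IsRep j D (n * n') (q * q') (fun z => f z * f' z) := by
  obtain ⟨h1, h2, h3, h4⟩ := h
  obtain ⟨h1', h2', h3', h4'⟩ := h'
  refine ⟨mul_ne_zero h1 h1', h2.mul h2', h3.mul h3', ?_⟩
  rw [← toA_mul h3 h3', map_mul j, ← h4, ← h4', map_mul]
  ring

omit [Field k] [Algebra k L] [Algebra ℂ[X] k] [IsFractionRing ℂ[X] k]
  [IsScalarTower ℂ[X] k L] in
theorem IsRep.of_ana {g : ℂ → ℂ} (hg : AnalyticOnNhd ℂ g D) (hgU : AnalyticOnNhd ℂ g U) :
    IsRep j D (j (toA g hgU)) 1 g :=
  ⟨one_ne_zero, hg, hgU, by rw [map_one, one_mul]⟩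

theorem IsRep.of_base (hj : Emb j) (x : k) :
    ∃ q : ℂ[X], ∃ a : ℂ[X], IsRep j D (algebraMap k L x) q (fun z => a.eval z) := by
  obtain ⟨a, c, hc, hac⟩ := IsFractionRing.div_surjective (A := ℂ[X]) x
  have hc0 : c ≠ 0 := nonZeroDivisors.ne_zero hc
  refine ⟨c, a, hc0, analytic_poly a D, analytic_poly a U, ?_⟩
  rw [← polyA_apply, hj.poly, IsScalarTower.algebraMap_apply ℂ[X] k L,
    IsScalarTower.algebraMap_apply ℂ[X] k L, ← map_mul]
  congr 1
  rw [← hac, mul_div_cancel₀]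
  rw [Ne, map_eq_zero_iff _ (IsFractionRing.injective ℂ[X] k)]
  exact hc0

end Pool.Agent.Helper32.Oval
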