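import Pool.Agent.Helper32.Oval.Core
import Pool.Agent.Helper11.Oval.Package
import Pool.Agent.Helper53.Oval.Curve

/-!
Final assembly: the exterior Cauchy transform of a compact oval is never algebraic.
-/

open Polynomial Filter Topology ComplexConjugate

namespace Pool.Agent.Helper32.Oval

theorem exists_bivariate {F : MvPolynomial (Fin 2) ℂ} (hF : F ≠ 0) :
    ∃ Q : Polynomial (Polynomial ℂ), Q ≠ 0 ∧
      ∀ z w, Q.evalEval z w = MvPolynomial.eval ![z, w] F := by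
  refine ⟨(Bivariate.equivMvPolynomial ℂ).symm F, ?_, fun z w => ?_⟩
  · intro h
    apply hF
    rw [← (Bivariate.equivMvPolynomial ℂ).apply_symm_apply F, h, map_zero]
  · have h1 : (evalEvalRingHom z w).comp
        ((Bivariate.equivMvPolynomial ℂ).symm : MvPolynomial (Fin 2) ℂ →+* ℂ[X][X]) =
        MvPolynomial.eval ![z, w] := by
      refine MvPolynomial.ringHom_ext (fun c => ?_) fun i => ?_
      · simp
      · fin_cases i <;> simp
    exact congrArg (fun g : MvPolynomial (Fin 2) ℂ →+* ℂ => g F) h1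

theorem package_applied {P : MvPolynomial (Fin 2) ℝ} {p : Polynomial (Polynomial ℂ)}
    {PR : ℂ → ℝ} (hPR : PR = fun z => MvPolynomial.eval ![z.re, z.im] P)
    (hpP : ∀ z : ℂ, p.evalEval z (conj z) = (PR z : ℂ))
    (hpns : ∀ z : ℂ, p.evalEval z (conj z) = 0 → p.derivative.evalEval z (conj z) ≠ 0)
    {Γ : Set ℂ} (hΓ : IsCompactOval P Γ) :
    (∃ x ∈ {z | PR z = 0}, Γ = connectedComponentIn {z | PR z = 0} x) ∧
      ∀ z ∈ Γ, p.derivative.evalEval z (conj z) ≠ 0 := by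
  obtain ⟨-, x, hx, hΓx⟩ := hΓ
  have hset : realCurve P = {z | PR z = 0} := by rw [hPR]; rfl
  rw [hset] at hx hΓx
  refine ⟨⟨x, hx, hΓx⟩, fun z hz => hpns z ?_⟩
  rw [hΓx] at hz
  have h1 : z ∈ {z | PR z = 0} := connectedComponentIn_subset {z | PR z = 0} x hz
  rw [hpP, h1, Complex.ofReal_zero]

theorem never_algebraic (P : MvPolynomial (Fin 2) ℝ) (hd : 3 ≤ P.totalDegree)
    (hP : NonsingularClosure P) (Γ Ω : Set ℂ) (hΓ : IsCompactOval P Γ)
    (hΩ : IsBoundedComponent Γ Ω) : ¬ IsAlgebraicOn (cauchyTransform Ω) (closure Ω)ᶜ := by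
  rintro ⟨F0, hF0, hF0z⟩
  obtain ⟨p, hpP, hpns, hp, hq, hD⟩ := Pool.Agent.Helper53.Oval.exists_curve P hd hP
  obtain ⟨PR, hPR⟩ : ∃ PR : ℂ → ℝ, PR = fun z => MvPolynomial.eval ![z.re, z.im] P := ⟨_, rfl⟩
  have hpP' : ∀ z : ℂ, p.evalEval z (conj z) = (PR z : ℂ) := by
    intro z
    rw [hPR]
    exact hpP z
  obtain ⟨hcomp, hns⟩ := package_applied hPR hpP' hpns hΓ
  obtain ⟨U, S, F, H, hUo, hUp, hΓne, hΓU, hΩo, hΩne, hΩp, hcl, hext, hUΩ, hUE, hS, hpS, hF, hH,
    hFH, hFC, hfin⟩ := Pool.Agent.Helper11.Oval.package p PR hpP' Γ Ω hΓ.1 hcomp hns hΩ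
  have hEo : IsOpen (closure Ω)ᶜ := isClosed_closure.isOpen_compl
  have hR : Region U ((closure Ω)ᶜ ∪ U) :=
    ⟨hUo, hΓne.mono hΓU, Set.subset_union_right, hEo.union hUo,
      hext.union' (by rwa [Set.inter_comm]) hUp⟩
  have hR' : Region U (Ω ∪ U) :=
    ⟨hUo, hΓne.mono hΓU, Set.subset_union_right, hΩo.union hUo,
      hΩp.union' (by rwa [Set.inter_comm]) hUp⟩
  have hRE : Region (closure Ω)ᶜ ((closure Ω)ᶜ ∪ U) :=
    ⟨hEo, hUE.mono Set.inter_subset_right, Set.subset_union_left, hEo.union hUo, hR.preD⟩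
  obtain ⟨Q, hQ, hQF0⟩ := exists_bivariate hF0
  have hQF : ∀ z ∈ (closure Ω)ᶜ ∪ U, Q.evalEval z (F z) = 0 := by
    refine hRE.eqOn (analytic_evalEval Q hF) analyticOnNhd_const fun z hz => ?_
    rw [hQF0, hFC z hz]
    exact hF0z z hz
  obtain ⟨Fθ, Hθ, h1, h2, h3, h4⟩ := core hUp hd hp hq hD hR hR'
    (by
      rw [Set.eq_univ_iff_forall]
      intro z
      by_cases hz : z ∈ closure Ω
      · rw [hcl] at hz
        rcases hz with hz | hz
        · exact Or.inr (Or.inl hz)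
        · exact Or.inr (Or.inr (hΓU hz))
      · exact Or.inl (Or.inl hz))
    (by
      rintro z ⟨hz1 | hz1, hz2 | hz2⟩
      · exact absurd (subset_closure hz2) hz1
      · exact hz2
      · exact hz1
      · exact hz1)
    (by
      refine hΩ.1.closure.subset ?_
      intro z hz
      by_contra h
      exact hz (Or.inl h))
    hS hpS hF hH hFH hQ hQF
  exact hfin Fθ Hθ h1 h2 h3 h4

end Pool.Agent.Helper32.Oval
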