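import Pool.Agent.Helper32.Oval.PlacesE

/-!
The Galois group acting on the roots: transitivity, and the degree bound for the coefficients of
invariant factors.
-/

open Polynomial

namespace Pool.Agent.Helper32.Oval

variable {k N : Type*} [Field k] [Field N] [Algebra k N] [FiniteDimensional k N] [IsGalois k N]
  [Algebra ℂ[X] k] [IsFractionRing ℂ[X] k] [Algebra ℂ[X] N] [IsScalarTower ℂ[X] k N]

/-- The standing assumptions on the curve `p` of degree `d` and its roots `s` in `N`. -/
structure Ctx (d : ℕ) (p : Polynomial (Polynomial ℂ)) (s : Finset N) : Prop where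
  hd : 3 ≤ d
  hp : SmoothChart d p
  hq : SmoothChart d (flip d p)
  hD : d ≤ p.natDegree + 1
  hs : HasRoots (algebraMap ℂ[X] N) p s
  inj : Function.Injective (algebraMap ℂ[X] N)
  alg : IsAlg (algebraMap ℂ[X] N)

variable {d : ℕ} {p : Polynomial (Polynomial ℂ)} {s : Finset N}

section basics

variable (k N) in
include k in
omit [FiniteDimensional k N] [IsGalois k N] in
theorem algebraMap_inj : Function.Injective (algebraMap ℂ[X] N) := by
  rw [IsScalarTower.algebraMap_eq ℂ[X] k N]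
  exact (algebraMap k N).injective.comp (IsFractionRing.injective ℂ[X] k)

variable (k N) in
include k in
omit [IsGalois k N] in
theorem isAlg_algebraMap : IsAlg (algebraMap ℂ[X] N) := by
  intro x
  have h1 : IsAlgebraic k x := Algebra.IsAlgebraic.isAlgebraic x
  have h2 : IsAlgebraic ℂ[X] x := (IsFractionRing.isAlgebraic_iff ℂ[X] k N).2 h1
  obtain ⟨Q, hQ, hQx⟩ := h2
  exact ⟨Q, hQ, hQx⟩

omit [FiniteDimensional k N] [IsGalois k N] [IsFractionRing ℂ[X] k] in
theorem sigma_algebraMap (σ : N ≃ₐ[k] N) (f : ℂ[X]) :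
    σ (algebraMap ℂ[X] N f) = algebraMap ℂ[X] N f := by
  rw [IsScalarTower.algebraMap_apply ℂ[X] k N, AlgEquiv.commutes]

omit [FiniteDimensional k N] [IsGalois k N] [IsFractionRing ℂ[X] k] in
theorem sigma_eval₂ (σ : N ≃ₐ[k] N) (q : Polynomial (Polynomial ℂ)) (y : N) :
    σ (q.eval₂ (algebraMap ℂ[X] N) y) = q.eval₂ (algebraMap ℂ[X] N) (σ y) := by
  rw [eval₂_eq_sum, eval₂_eq_sum, Polynomial.sum_def, Polynomial.sum_def, map_sum]
  refine Finset.sum_congr rfl fun i _ => ?_
  rw [map_mul, map_pow, sigma_algebraMap]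

theorem Ctx.mem_iff (hc : Ctx d p s) {y : N} :
    y ∈ s ↔ p.eval₂ (algebraMap ℂ[X] N) y = 0 := by
  rw [hc.hs.eval₂_eq]
  constructor
  · intro hy
    rw [Finset.prod_eq_zero hy (sub_self y), mul_zero]
  · intro h
    rcases mul_eq_zero.1 h with h | h
    · rw [map_eq_zero_iff _ hc.inj] at h
      exact absurd h (leadingCoeff_ne_zero.2 hc.hp.ne_zero)
    · obtain ⟨x, hx, hxy⟩ := Finset.prod_eq_zero_iff.1 h
      rw [sub_eq_zero.1 hxy]
      exact hx

omit [FiniteDimensional k N] [IsGalois k N] in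
theorem Ctx.sigma_mem (hc : Ctx d p s) (σ : N ≃ₐ[k] N) {y : N} (hy : y ∈ s) : σ y ∈ s := by
  rw [hc.mem_iff] at hy ⊢
  rw [← sigma_eval₂, hy, map_zero]

theorem Ctx.card (hc : Ctx d p s) : p.natDegree = s.card :=
  hc.hs.natDegree hc.inj hc.hp.ne_zero

theorem Ctx.deriv_ne (hc : Ctx d p s) {y : N} (hy : y ∈ s) :
    p.derivative.eval₂ (algebraMap ℂ[X] N) y ≠ 0 := by
  obtain ⟨A, hA⟩ := exists_place hc.inj 0
  have h1 := hc.hp.est0 hc.hd hA hc.inj hc.alg
    ((hc.mem_iff).1 hy) (m := 0) (by have := hc.hd; have := hc.hD; omega)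
  intro h0
  rw [h0, map_zero] at h1
  exact absurd h1 (not_lt.2 zero_le)

end basics

/-- A Galois-invariant element without poles that vanishes at infinity is zero. -/
theorem eq_zero_of_fixed {x : N} (hx : ∀ σ : N ≃ₐ[k] N, σ x = x)
    (h1 : ∀ b (A : ValuationSubring N), IsPlace (algebraMap ℂ[X] N) b A.valuation →
      A.valuation (algebraMap ℂ[X] N (X - C b) * x) < 1)
    (h2 : ∀ A : ValuationSubring N, IsPlace (phiInf (algebraMap ℂ[X] N)) 0 A.valuation →
      A.valuation x < 1) : x = 0 := by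
  obtain ⟨x', rfl⟩ := (IsGalois.mem_range_algebraMap_iff_fixed (F := k) x).2 hx
  obtain ⟨a, c, hc, hac⟩ := IsFractionRing.div_surjective (A := ℂ[X]) x'
  have hc0 : c ≠ 0 := nonZeroDivisors.ne_zero hc
  refine vanish (algebraMap_inj k N) h1 h2 (a := a) (c := c) hc0 ?_
  rw [IsScalarTower.algebraMap_apply ℂ[X] k N, IsScalarTower.algebraMap_apply ℂ[X] k N,
    ← map_mul]
  congr 1
  rw [← hac, mul_div_cancel₀]
  rw [Ne, map_eq_zero_iff _ (IsFractionRing.injective ℂ[X] k)]
  exact hc0

theorem Ctx.transitive (hc : Ctx d p s) {O : Finset N} (hO : O ⊆ s) (hne : O.Nonempty)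
    (hinv : ∀ σ : N ≃ₐ[k] N, ∀ y ∈ O, σ y ∈ O) : O = s := by
  classical
  by_contra hOs
  have hcard : O.card < s.card := Finset.card_lt_card (lt_of_le_of_ne hO hOs)
  have hφ := hc.inj
  have halg := hc.alg
  have hd := hc.hd
  have hpd : p.natDegree ≤ d := by
    have := hc.hp.deg p.natDegree (leadingCoeff_ne_zero.2 hc.hp.ne_zero)
    omega
  have hsum : ∀ m, m + 2 ≤ p.natDegree →
      ∑ y ∈ O, y ^ m / p.derivative.eval₂ (algebraMap ℂ[X] N) y = 0 := by
    intro m hm
    refine eq_zero_of_fixed (k := k) ?_ ?_ ?_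
    · intro σ
      rw [map_sum]
      have himg : O.image σ = O := by
        refine Finset.eq_of_subset_of_card_le (Finset.image_subset_iff.2 (hinv σ)) ?_
        rw [Finset.card_image_of_injective _ σ.injective]
      conv_rhs => rw [← himg]
      rw [Finset.sum_image fun x _ y _ hxy => σ.injective hxy]
      refine Finset.sum_congr rfl fun y _ => ?_
      rw [map_div₀, map_pow, sigma_eval₂]
    · intro b A hA
      rw [Finset.mul_sum]
      refine Valuation.map_sum_lt _ one_ne_zero fun y hy => ?_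
      have hys := hO hy
      have h1 := hc.hp.est0 hd hA hφ halg ((hc.mem_iff).1 hys) hm
      rw [mul_div_assoc', map_div₀, map_mul, map_pow]
      rw [div_lt_one₀ (lt_of_le_of_lt zero_le h1)]
      exact h1
    · intro A hA
      refine Valuation.map_sum_lt _ one_ne_zero fun y hy => ?_
      have hys := hO hy
      have h1 := hc.hq.est0_inf hc.hp.deg hd hA hφ halg ((hc.mem_iff).1 hys) hm hpd
      rw [map_div₀, map_pow]
      rw [div_lt_one₀ (lt_of_le_of_lt zero_le h1)]
      exact h1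
  obtain ⟨y0, hy0⟩ := hne
  set g : N[X] := ∏ x ∈ O.erase y0, (X - C x) with hg
  have hgdeg : g.natDegree + 2 ≤ p.natDegree := by
    rw [hg, natDegree_prod _ _ fun x _ => X_sub_C_ne_zero x]
    simp only [natDegree_X_sub_C, Finset.sum_const, smul_eq_mul, mul_one]
    rw [Finset.card_erase_of_mem hy0, hc.card]
    have : 0 < O.card := Finset.card_pos.2 ⟨y0, hy0⟩
    have h3 := hc.card
    have h4 := hc.hD
    omega
  have h1 : ∑ y ∈ O, g.eval y / p.derivative.eval₂ (algebraMap ℂ[X] N) y = 0 := by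
    have h2 : ∀ y ∈ O, g.eval y / p.derivative.eval₂ (algebraMap ℂ[X] N) y =
        ∑ i ∈ Finset.range (g.natDegree + 1),
          g.coeff i * (y ^ i / p.derivative.eval₂ (algebraMap ℂ[X] N) y) := by
      intro y _
      rw [eval_eq_sum_range, Finset.sum_div]
      exact Finset.sum_congr rfl fun i _ => by rw [mul_div_assoc]
    rw [Finset.sum_congr rfl h2, Finset.sum_comm]
    refine Finset.sum_eq_zero fun i hi => ?_
    rw [← Finset.mul_sum, hsum i (by have := Finset.mem_range.1 hi; omega), mul_zero]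
  rw [Finset.sum_eq_single y0] at h1
  · rcases div_eq_zero_iff.1 h1 with h2 | h2
    · rw [hg, eval_prod, Finset.prod_eq_zero_iff] at h2
      obtain ⟨x, hx, hx'⟩ := h2
      rw [eval_sub, eval_X, eval_C, sub_eq_zero] at hx'
      exact (Finset.mem_erase.1 hx).1 hx'.symm
    · exact hc.deriv_ne (hO hy0) h2
  · intro y hy hne
    rw [hg, eval_prod, Finset.prod_eq_zero (Finset.mem_erase.2 ⟨hne, hy⟩) (by simp), zero_div]
  · intro h; exact absurd hy0 h

theorem Ctx.exists_sigma (hc : Ctx d p s) {x y : N} (hx : x ∈ s) (hy : y ∈ s) :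
    ∃ σ : N ≃ₐ[k] N, σ x = y := by
  classical
  have h1 : (Finset.univ.image fun σ : N ≃ₐ[k] N => σ x) = s := by
    refine hc.transitive (k := k) ?_ ?_ ?_
    · intro z hz
      obtain ⟨σ, _, rfl⟩ := Finset.mem_image.1 hz
      exact hc.sigma_mem σ hx
    · exact ⟨x, Finset.mem_image.2 ⟨AlgEquiv.refl, Finset.mem_univ _, rfl⟩⟩
    · intro σ z hz
      obtain ⟨τ, _, rfl⟩ := Finset.mem_image.1 hz
      exact Finset.mem_image.2 ⟨σ * τ, Finset.mem_univ _, rfl⟩
  rw [← h1] at hy
  obtain ⟨σ, _, hσ⟩ := Finset.mem_image.1 hy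
  exact ⟨σ, hσ⟩

end Pool.Agent.Helper32.Oval
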