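import Pool.Agent.Helper32.Oval.GaloisA

/-!
The degree bound for the coefficients of invariant factors.
-/

open Polynomial

namespace Pool.Agent.Helper32.Oval

variable {k N : Type*} [Field k] [Field N] [Algebra k N] [FiniteDimensional k N] [IsGalois k N]
  [Algebra ℂ[X] k] [IsFractionRing ℂ[X] k] [Algebra ℂ[X] N] [IsScalarTower ℂ[X] k N]

variable {d : ℕ} {p : Polynomial (Polynomial ℂ)} {s : Finset N}

theorem mul_identity1 {Γ₀ : Type*} [LinearOrderedCommGroupWithZero Γ₀] (a b c y : Γ₀) (m : ℕ) :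
    a * (b * (y ^ m * c)) = a * (b * c * y ^ m) := by
  ac_rfl

theorem mul_identity2 {Γ₀ : Type*} [LinearOrderedCommGroupWithZero Γ₀] (b c y : Γ₀) (m : ℕ) :
    b * (y ^ m * c) = b * c * y ^ m := by
  ac_rfl

omit [FiniteDimensional k N] [IsGalois k N] [Algebra ℂ[X] k] [IsFractionRing ℂ[X] k]
  [Algebra ℂ[X] N] [IsScalarTower ℂ[X] k N] in
theorem sigma_coeff [DecidableEq N] (σ : N ≃ₐ[k] N) (O : Finset N) (i : ℕ) :
    σ ((∏ y ∈ O, (X - C y)).coeff i) = (∏ y ∈ O.image σ, (X - C y)).coeff i := by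
  have h1 : (∏ y ∈ O, (X - C y)).map (σ : N →+* N) = ∏ y ∈ O.image σ, (X - C y) := by
    rw [Polynomial.map_prod, Finset.prod_image fun x _ y _ hxy => σ.injective hxy]
    refine Finset.prod_congr rfl fun y _ => ?_
    rw [Polynomial.map_sub, map_X, map_C]
    rfl
  rw [← h1, coeff_map]
  rfl

theorem Ctx.exists_poly (hc : Ctx d p s) {x c : N} (hx : x ∈ s)
    (hfix : ∀ σ : N ≃ₐ[k] N, σ x = x → σ c = c) :
    ∃ g : k[X], g.natDegree < s.card ∧ aeval x g = c := by
  have h1 : c ∈ IntermediateField.adjoin k {x} := by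
    rw [← IsGalois.fixedField_fixingSubgroup (IntermediateField.adjoin k {x}),
      IntermediateField.mem_fixedField_iff]
    intro σ hσ
    refine hfix σ ?_
    rw [IntermediateField.mem_fixingSubgroup_iff] at hσ
    exact hσ x (IntermediateField.mem_adjoin_simple_self k x)
  have hint : IsIntegral k x := Algebra.IsIntegral.isIntegral x
  rw [← IntermediateField.mem_toSubalgebra,
    IntermediateField.adjoin_simple_toSubalgebra_of_isAlgebraic hint.isAlgebraic,
    Algebra.adjoin_singleton_eq_range_aeval] at h1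
  obtain ⟨g, hg⟩ := h1
  have hcard : 0 < s.card := Finset.card_pos.2 ⟨x, hx⟩
  have hmin : minpoly k x ∣ p.map (algebraMap ℂ[X] k) := by
    refine minpoly.dvd k x ?_
    rw [aeval_def, eval₂_map, ← IsScalarTower.algebraMap_eq]
    exact hc.mem_iff.1 hx
  have hP0 : p.map (algebraMap ℂ[X] k) ≠ 0 := by
    rw [Ne, Polynomial.map_eq_zero_iff (IsFractionRing.injective ℂ[X] k)]
    exact hc.hp.ne_zero
  have hdeg : (minpoly k x).natDegree ≤ s.card := by
    rw [← hc.card, ← natDegree_map_eq_of_injective (IsFractionRing.injective ℂ[X] k) p]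
    exact natDegree_le_of_dvd hmin hP0
  refine ⟨g %ₘ minpoly k x, ?_, ?_⟩
  · refine lt_of_lt_of_le ?_ hdeg
    exact natDegree_modByMonic_lt _ (minpoly.monic hint) (minpoly.ne_one k x)
  · rw [aeval_modByMonic_eq_self_of_root (minpoly.aeval k x)]
    exact hg

theorem Ctx.fl (hc : Ctx d p s) {x : N} (hx : x ∈ s) {O : Finset N} (hO : O ⊆ s) (hxO : x ∉ O)
    (hinv : ∀ σ : N ≃ₐ[k] N, σ x = x → ∀ y ∈ O, σ y ∈ O) {i : ℕ} (hi : i ≤ O.card) :
    ∃ g : k[X], g.natDegree ≤ O.card - i ∧ aeval x g = (∏ y ∈ O, (X - C y)).coeff i := by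
  classical
  have himg : ∀ σ : N ≃ₐ[k] N, σ x = x → O.image σ = O := by
    intro σ hσ
    refine Finset.eq_of_subset_of_card_le (Finset.image_subset_iff.2 (hinv σ hσ)) ?_
    rw [Finset.card_image_of_injective _ σ.injective]
  obtain ⟨g, hg1, hg2⟩ := hc.exists_poly (k := k) hx (c := (∏ y ∈ O, (X - C y)).coeff i)
    (fun σ hσ => by rw [sigma_coeff, himg σ hσ])
  refine ⟨g, ?_, hg2⟩
  by_contra hcon
  rw [not_le] at hcon
  have hg0 : g ≠ 0 := by
    rintro rfl
    simp at hcon
  have hd := hc.hd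
  have hcard := hc.card
  have hlead : algebraMap k N g.leadingCoeff = 0 := by
    obtain ⟨m, hm⟩ : ∃ m, m + g.natDegree + 1 = s.card := ⟨s.card - 1 - g.natDegree, by omega⟩
    set f : N[X] := X ^ m * g.map (algebraMap k N) with hf
    have hgN : (g.map (algebraMap k N)).natDegree = g.natDegree :=
      natDegree_map_eq_of_injective (algebraMap k N).injective g
    have hfdeg : f.natDegree = s.card - 1 := by
      rw [hf, natDegree_X_pow_mul, hgN]
      · omega
      · rwa [Ne, Polynomial.map_eq_zero_iff (algebraMap k N).injective]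
    have hfcoeff : f.coeff (s.card - 1) = algebraMap k N g.leadingCoeff := by
      rw [hf, show s.card - 1 = g.natDegree + m by omega, coeff_X_pow_mul, coeff_map]
      rfl
    have hfd : f.degree < s.card := by
      refine lt_of_le_of_lt degree_le_natDegree ?_
      rw [hfdeg]
      exact_mod_cast (by omega : s.card - 1 < s.card)
    rw [← hfcoeff, ← hc.hs.sum_eq hc.inj hc.hp.ne_zero hfd]
    -- the values of `f` at the roots
    have hval : ∀ y ∈ s, ∃ O' : Finset N, O' ⊆ s ∧ y ∉ O' ∧ O'.card = O.card ∧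
        f.eval y = y ^ m * (∏ z ∈ O', (X - C z)).coeff i := by
      intro y hy
      obtain ⟨σ, hσ⟩ := hc.exists_sigma (k := k) hx hy
      refine ⟨O.image σ, ?_, ?_, Finset.card_image_of_injective _ σ.injective, ?_⟩
      · exact Finset.image_subset_iff.2 fun z hz => hc.sigma_mem σ (hO hz)
      · rw [Finset.mem_image]
        rintro ⟨z, hz, hzy⟩
        rw [← hσ] at hzy
        exact hxO (σ.injective hzy ▸ hz)
      · rw [hf, eval_mul, eval_pow, eval_X, ← sigma_coeff, ← hg2, eval_map, ← hσ]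
        congr 1
        exact aeval_algHom_apply (σ : N →ₐ[k] N) x g
    refine eq_zero_of_fixed (k := k) ?_ ?_ ?_
    · intro σ
      rw [hc.hs.sum_eq hc.inj hc.hp.ne_zero hfd, hfcoeff, AlgEquiv.commutes]
    · intro b A hA
      rw [Finset.mul_sum, Finset.mul_sum]
      refine Valuation.map_sum_lt _ one_ne_zero fun y hy => ?_
      obtain ⟨O', hO', hyO', hcO', hfy⟩ := hval y hy
      have h1 := hc.hp.est hd hA hc.inj hc.alg (hc.mem_iff.1 hy)
        (hc.hs.coeff_bound hA hO' hy hyO' i) (m := m) (by have := hc.hp.deg p.natDegree (leadingCoeff_ne_zero.2 hc.hp.ne_zero); omega)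
      rw [hfy, map_mul, map_mul, map_div₀, map_mul, map_pow, mul_div_assoc', mul_div_assoc',
        div_lt_one₀ (lt_of_le_of_lt zero_le h1)]
      refine lt_of_eq_of_lt ?_ h1
      exact mul_identity1 _ _ _ _ _
    · intro A hA
      rw [Finset.mul_sum]
      refine Valuation.map_sum_lt _ one_ne_zero fun y hy => ?_
      obtain ⟨O', hO', hyO', hcO', hfy⟩ := hval y hy
      have h1 := hc.hq.est_inf hc.hp.ne_zero hc.hp.deg hd hA hc.inj hc.alg hc.hs hy hO' hyO'
        (m := m) (k := O'.card - i) (Nat.sub_le _ _) (by omega)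
      rw [Nat.sub_sub_self (by omega)] at h1
      rw [hfy, map_mul, map_div₀, map_mul, map_pow, mul_div_assoc',
        div_lt_one₀ (lt_of_le_of_lt zero_le h1)]
      refine lt_of_eq_of_lt ?_ h1
      exact mul_identity2 _ _ _ _
  rw [map_eq_zero_iff _ (algebraMap k N).injective] at hlead
  exact hg0 (leadingCoeff_eq_zero.1 hlead)

end Pool.Agent.Helper32.Oval
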