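import Pool.Agent.Helper32.Oval.GaloisB

/-!
The factorisation identity `p(W) - p(w) = p_D (W - w) R(w, W) R'(w, W)` and its consequence for
the sums over an invariant set of roots.
-/

open Polynomial

namespace Pool.Agent.Helper32.Oval

variable {k N : Type*} [Field k] [Field N] [Algebra k N] [FiniteDimensional k N] [IsGalois k N]
  [Algebra ℂ[X] k] [IsFractionRing ℂ[X] k] [Algebra ℂ[X] N] [IsScalarTower ℂ[X] k N]

variable {d : ℕ} {p : Polynomial (Polynomial ℂ)} {s : Finset N}

/-- The polynomial `R(w, y)` in `w`, where `g i` lifts the `i`-th coefficient. -/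
noncomputable def liftPoly (g : ℕ → k[X]) (n : ℕ) (y : N) : N[X] :=
  ∑ i ∈ Finset.range (n + 1), C (y ^ i) * (g i).map (algebraMap k N)

omit [FiniteDimensional k N] [IsGalois k N] [Algebra ℂ[X] k] [IsFractionRing ℂ[X] k]
  [Algebra ℂ[X] N] [IsScalarTower ℂ[X] k N] in
theorem liftPoly_natDegree {g : ℕ → k[X]} {n : ℕ} (hg : ∀ i ≤ n, (g i).natDegree ≤ n - i)
    (y : N) : (liftPoly g n y).natDegree ≤ n := by
  refine natDegree_sum_le_of_forall_le _ _ fun i hi => ?_
  rw [Finset.mem_range, Nat.lt_succ_iff] at hi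
  refine (natDegree_C_mul_le _ _).trans ((natDegree_map_le).trans ((hg i hi).trans ?_))
  exact Nat.sub_le _ _

omit [FiniteDimensional k N] [IsGalois k N] [Algebra ℂ[X] k] [IsFractionRing ℂ[X] k]
  [Algebra ℂ[X] N] [IsScalarTower ℂ[X] k N] in
theorem liftPoly_coeff {g : ℕ → k[X]} {n : ℕ} (hg : ∀ i ≤ n, (g i).natDegree ≤ n - i)
    (y : N) : (liftPoly g n y).coeff n = algebraMap k N ((g 0).coeff n) := by
  rw [liftPoly, finsetSum_coeff, Finset.sum_eq_single 0]
  · rw [pow_zero, C_1, one_mul, coeff_map]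
  · intro i hi hi0
    rw [Finset.mem_range, Nat.lt_succ_iff] at hi
    rw [coeff_C_mul, coeff_map, coeff_eq_zero_of_natDegree_lt, map_zero, mul_zero]
    have := hg i hi
    omega
  · intro h
    exact absurd (Finset.mem_range.2 (Nat.succ_pos n)) h

omit [FiniteDimensional k N] [IsGalois k N] [Algebra ℂ[X] k] [IsFractionRing ℂ[X] k]
  [Algebra ℂ[X] N] [IsScalarTower ℂ[X] k N] in
theorem liftPoly_eval [DecidableEq N] {g : ℕ → k[X]} {O : Finset N} {x : N}
    (hg : ∀ i ≤ O.card, aeval x (g i) = (∏ y ∈ O, (X - C y)).coeff i) (y : N)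
    (σ : N ≃ₐ[k] N) :
    (liftPoly g O.card y).eval (σ x) = ∏ z ∈ O.image σ, (y - z) := by
  have h1 : (∏ z ∈ O.image σ, (X - C z)).eval y = ∏ z ∈ O.image σ, (y - z) := by
    rw [eval_prod]
    simp
  have h2 : (∏ z ∈ O.image σ, (X - C z)).natDegree ≤ O.card := by
    rw [natDegree_prod _ _ fun x _ => X_sub_C_ne_zero x]
    simp [Finset.card_image_of_injective _ σ.injective]
  rw [← h1, eval_eq_sum_range' (Nat.lt_succ_of_le h2), liftPoly, eval_finsetSum]
  refine Finset.sum_congr rfl fun i hi => ?_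
  rw [Finset.mem_range, Nat.lt_succ_iff] at hi
  rw [eval_mul, eval_C, eval_map, ← aeval_def, ← sigma_coeff, ← hg i hi, mul_comm]
  congr 1
  exact aeval_algHom_apply (σ : N →ₐ[k] N) x (g i)

theorem Ctx.identity [DecidableEq N] (hc : Ctx d p s) {x : N} (hx : x ∈ s) {O O' : Finset N}
    (hdisj : Disjoint O O') (hxO : x ∉ O) (hxO' : x ∉ O') (hun : insert x (O ∪ O') = s)
    {g g' : ℕ → k[X]} (hgd : ∀ i ≤ O.card, (g i).natDegree ≤ O.card - i)
    (hg : ∀ i ≤ O.card, aeval x (g i) = (∏ y ∈ O, (X - C y)).coeff i)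
    (hgd' : ∀ i ≤ O'.card, (g' i).natDegree ≤ O'.card - i)
    (hg' : ∀ i ≤ O'.card, aeval x (g' i) = (∏ y ∈ O', (X - C y)).coeff i) (y : N) :
    C (p.eval₂ (algebraMap ℂ[X] N) y) - C (algebraMap ℂ[X] N p.leadingCoeff) * (C y - X) *
      liftPoly g O.card y * liftPoly g' O'.card y = p.map (algebraMap ℂ[X] N) := by
  set lc := algebraMap ℂ[X] N p.leadingCoeff with hlc
  have hlc0 : lc ≠ 0 := by
    rw [hlc, Ne, map_eq_zero_iff _ hc.inj]
    exact leadingCoeff_ne_zero.2 hc.hp.ne_zero
  have hcards : s.card = O.card + O'.card + 1 := by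
    rw [← hun, Finset.card_insert_of_notMem, Finset.card_union_of_disjoint hdisj]
    rw [Finset.mem_union]
    tauto
  have hPdeg : (p.map (algebraMap ℂ[X] N)).natDegree = s.card := by
    rw [natDegree_map_eq_of_injective hc.inj, hc.card]
  have hPlc : (p.map (algebraMap ℂ[X] N)).coeff s.card = lc := by
    rw [coeff_map, ← hc.card]
    rfl
  set A : N → N[X] := fun y => C (p.eval₂ (algebraMap ℂ[X] N) y) - C lc * (C y - X) *
      liftPoly g O.card y * liftPoly g' O'.card y with hA
  -- degree and top coefficient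
  have hAdeg : ∀ y, (A y).natDegree ≤ s.card := by
    intro y
    refine (natDegree_sub_le _ _).trans (max_le (by simp) ?_)
    refine natDegree_mul_le.trans ?_
    refine (add_le_add (natDegree_mul_le.trans (add_le_add ((natDegree_C_mul_le _ _).trans
      ((natDegree_sub_le _ _).trans (max_le (by simp) natDegree_X_le)))
      (liftPoly_natDegree hgd y))) (liftPoly_natDegree hgd' y)).trans ?_
    omega
  have hs1 : 1 ≤ s.card := by omega
  have hAtop : ∀ y, (A y).coeff s.card =
      lc * algebraMap k N ((g 0).coeff O.card * (g' 0).coeff O'.card) := by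
    intro y
    have h1 : (C lc * (C y - X) * liftPoly g O.card y * liftPoly g' O'.card y : N[X]) =
        C (lc * y) * (liftPoly g O.card y * liftPoly g' O'.card y) -
          C lc * (X * (liftPoly g O.card y * liftPoly g' O'.card y)) := by
      rw [C_mul]; ring
    have h2 : (liftPoly g O.card y * liftPoly g' O'.card y).natDegree ≤ O.card + O'.card :=
      natDegree_mul_le.trans (add_le_add (liftPoly_natDegree hgd y) (liftPoly_natDegree hgd' y))
    rw [hA]
    simp only
    rw [h1, coeff_sub, coeff_sub, coeff_C, if_neg (by omega), coeff_C_mul, coeff_C_mul,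
      coeff_eq_zero_of_natDegree_lt (by omega), hcards, coeff_X_mul,
      coeff_mul_add_eq_of_natDegree_le (liftPoly_natDegree hgd y) (liftPoly_natDegree hgd' y),
      liftPoly_coeff hgd, liftPoly_coeff hgd', map_mul]
    ring
  -- vanishing at the roots
  have hAroot : ∀ y, ∀ x' ∈ s, (A y).eval x' = 0 := by
    intro y x' hx'
    obtain ⟨σ, rfl⟩ := hc.exists_sigma (k := k) hx hx'
    rw [hA]
    simp only [eval_sub, eval_mul, eval_C, eval_X]
    rw [liftPoly_eval hg, liftPoly_eval hg', hc.hs.eval₂_eq]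
    have h1 : s = insert (σ x) (O.image σ ∪ O'.image σ) := by
      have h2 : s.image σ = s := by
        refine Finset.eq_of_subset_of_card_le
          (Finset.image_subset_iff.2 fun z hz => hc.sigma_mem σ hz) ?_
        rw [Finset.card_image_of_injective _ σ.injective]
      conv_lhs => rw [← h2, ← hun, Finset.image_insert, Finset.image_union]
    have h3 : Disjoint (O.image σ) (O'.image σ) := by
      rw [Finset.disjoint_image σ.injective]
      exact hdisj
    have h4 : σ x ∉ O.image σ ∪ O'.image σ := by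
      rw [Finset.mem_union, Finset.mem_image, Finset.mem_image]
      rintro (⟨z, hz, hzx⟩ | ⟨z, hz, hzx⟩)
      · exact hxO (σ.injective hzx ▸ hz)
      · exact hxO' (σ.injective hzx ▸ hz)
    have h5 : ∏ z ∈ s, (y - z) =
        (y - σ x) * ((∏ z ∈ O.image σ, (y - z)) * ∏ z ∈ O'.image σ, (y - z)) := by
      rw [h1, Finset.prod_insert h4, Finset.prod_union h3]
    rw [h5, ← hlc]
    ring
  -- `A y` is a multiple of `p`
  set c := algebraMap k N ((g 0).coeff O.card * (g' 0).coeff O'.card) with hcdef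
  have hAmul : ∀ y, A y = C c * p.map (algebraMap ℂ[X] N) := by
    intro y
    rw [← sub_eq_zero]
    refine eq_zero_of_degree_lt_of_eval_finset_eq_zero s ?_ ?_
    · refine lt_of_le_of_ne (degree_le_of_natDegree_le ?_) ?_
      · refine (natDegree_sub_le _ _).trans (max_le (hAdeg y) ?_)
        exact (natDegree_C_mul_le _ _).trans hPdeg.le
      · intro h0
        have h1 : (A y - C c * p.map (algebraMap ℂ[X] N)).coeff s.card = 0 := by
          rw [coeff_sub, coeff_C_mul, hAtop, hPlc]
          ring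
        exact coeff_ne_zero_of_eq_degree h0 h1
    · intro x' hx'
      rw [eval_sub, hAroot y x' hx', eval_mul, eval_C, eval_map, hc.mem_iff.1 hx', mul_zero,
        sub_zero]
  -- the constant is one
  have hinf : Infinite N := Infinite.of_injective _ (hc.inj.comp C_injective)
  obtain ⟨y0, hy0⟩ := Infinite.exists_notMem_finset s
  have hy0' : p.eval₂ (algebraMap ℂ[X] N) y0 ≠ 0 := fun h => hy0 (hc.mem_iff.2 h)
  have hc1 : c = 1 := by
    have h1 := congrArg (Polynomial.eval y0) (hAmul y0)
    rw [eval_mul, eval_C, eval_map, hA] at h1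
    simp only [eval_sub, eval_mul, eval_C, eval_X, sub_self, mul_zero, zero_mul, sub_zero] at h1
    exact (mul_right_cancel₀ hy0' (by rw [one_mul]; exact h1)).symm
  have h1 := hAmul y
  rw [hc1, C_1, one_mul] at h1
  exact h1

end Pool.Agent.Helper32.Oval
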