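import Pool.Agent.Helper32.Oval.GaloisC

/-!
The key lemma: complex linear relations between the roots persist for the inverse derivatives.
-/

open Polynomial

namespace Pool.Agent.Helper32.Oval

variable {k N : Type*} [Field k] [Field N] [Algebra k N] [FiniteDimensional k N] [IsGalois k N]
  [Algebra ℂ[X] k] [IsFractionRing ℂ[X] k] [Algebra ℂ[X] N] [IsScalarTower ℂ[X] k N]

variable {d : ℕ} {p : Polynomial (Polynomial ℂ)} {s : Finset N}

theorem Ctx.invariant_sum (hc : Ctx d p s) {x : N} (hx : x ∈ s) {O : Finset N} (hO : O ⊆ s)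
    (hxO : x ∉ O) (hinv : ∀ σ : N ≃ₐ[k] N, σ x = x → ∀ y ∈ O, σ y ∈ O) :
    ∃ α γ : k, ∑ y ∈ O, y = algebraMap k N α + algebraMap k N γ * x ∧
      ∑ y ∈ O, (p.derivative.eval₂ (algebraMap ℂ[X] N) y)⁻¹ =
        algebraMap k N γ * (p.derivative.eval₂ (algebraMap ℂ[X] N) x)⁻¹ := by
  classical
  rcases O.eq_empty_or_nonempty with rfl | hne
  · exact ⟨0, 0, by simp, by simp⟩
  set O' : Finset N := (s.erase x) \ O with hO'def
  have hO's : O' ⊆ s := Finset.sdiff_subset.trans (Finset.erase_subset _ _)
  have hxO' : x ∉ O' := fun h => (Finset.mem_erase.1 (Finset.mem_sdiff.1 h).1).1 rfl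
  have hdisj : Disjoint O O' := Finset.disjoint_sdiff
  have hOe : O ⊆ s.erase x := fun y hy => Finset.mem_erase.2 ⟨fun h => hxO (h ▸ hy), hO hy⟩
  have hun : insert x (O ∪ O') = s := by
    rw [hO'def, Finset.union_sdiff_of_subset hOe, Finset.insert_erase hx]
  have himg : ∀ σ : N ≃ₐ[k] N, σ x = x → O.image σ = O := by
    intro σ hσ
    refine Finset.eq_of_subset_of_card_le (Finset.image_subset_iff.2 (hinv σ hσ)) ?_
    rw [Finset.card_image_of_injective _ σ.injective]
  have hinv' : ∀ σ : N ≃ₐ[k] N, σ x = x → ∀ y ∈ O', σ y ∈ O' := by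
    intro σ hσ y hy
    rw [hO'def, Finset.mem_sdiff, Finset.mem_erase] at hy ⊢
    refine ⟨⟨fun h => hy.1.1 (σ.injective (by rw [h, hσ])), hc.sigma_mem σ hy.1.2⟩, fun h => ?_⟩
    rw [← himg σ hσ, Finset.mem_image] at h
    obtain ⟨z, hz, hzy⟩ := h
    exact hy.2 (σ.injective hzy ▸ hz)
  have hfl : ∀ i, ∃ g : k[X], i ≤ O.card → g.natDegree ≤ O.card - i ∧
      aeval x g = (∏ y ∈ O, (X - C y)).coeff i := by
    intro i
    by_cases hi : i ≤ O.card
    · obtain ⟨g, hg⟩ := hc.fl (k := k) hx hO hxO hinv hi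
      exact ⟨g, fun _ => hg⟩
    · exact ⟨0, fun h => absurd h hi⟩
  have hfl' : ∀ i, ∃ g : k[X], i ≤ O'.card → g.natDegree ≤ O'.card - i ∧
      aeval x g = (∏ y ∈ O', (X - C y)).coeff i := by
    intro i
    by_cases hi : i ≤ O'.card
    · obtain ⟨g, hg⟩ := hc.fl (k := k) hx hO's hxO' hinv' hi
      exact ⟨g, fun _ => hg⟩
    · exact ⟨0, fun h => absurd h hi⟩
  choose g hg using hfl
  choose g' hg' using hfl'
  have hgd : ∀ i ≤ O.card, (g i).natDegree ≤ O.card - i := fun i hi => (hg i hi).1
  have hge : ∀ i ≤ O.card, aeval x (g i) = (∏ y ∈ O, (X - C y)).coeff i := fun i hi => (hg i hi).2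
  have hgd' : ∀ i ≤ O'.card, (g' i).natDegree ≤ O'.card - i := fun i hi => (hg' i hi).1
  have hge' : ∀ i ≤ O'.card, aeval x (g' i) = (∏ y ∈ O', (X - C y)).coeff i :=
    fun i hi => (hg' i hi).2
  set lc := algebraMap ℂ[X] N p.leadingCoeff with hlc
  have hid := fun y => hc.identity hx hdisj hxO hxO' hun hgd hge hgd' hge' y
  -- the inverse derivatives at the points of `O`
  set n := O.card with hn
  have hn1 : 1 ≤ n := Finset.card_pos.2 hne
  have hx0 := hc.deriv_ne hx
  have hth : ∀ y ∈ O, (p.derivative.eval₂ (algebraMap ℂ[X] N) y)⁻¹ =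
      -((p.derivative.eval₂ (algebraMap ℂ[X] N) x)⁻¹) *
        ((liftPoly g n y).derivative.eval x / ∏ z ∈ O.erase y, (y - z)) := by
    intro y hy
    have hys := hO hy
    have hy0 := hc.deriv_ne hys
    have h1 := congrArg (fun f => (Polynomial.derivative f).eval x) (hid y)
    have hR : (liftPoly g n y).eval x = 0 := by
      have := liftPoly_eval (k := k) hge y AlgEquiv.refl
      simp only [AlgEquiv.coe_refl, id_eq, Finset.image_id] at this
      rw [this, Finset.prod_eq_zero hy (sub_self y)]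
    have hR' : (liftPoly g' O'.card y).eval x = ∏ z ∈ O', (y - z) := by
      have := liftPoly_eval (k := k) hge' y AlgEquiv.refl
      simpa only [AlgEquiv.coe_refl, id_eq, Finset.image_id] using this
    simp only [derivative_sub, derivative_mul, derivative_C, derivative_X, eval_sub, eval_add,
      eval_mul, eval_C, eval_X, hR, hR', zero_mul, mul_zero, zero_add,
      zero_sub, add_zero, derivative_map, eval_map, eval_neg, ← hlc] at h1
    have h2 : p.derivative.eval₂ (algebraMap ℂ[X] N) y =
        lc * ((y - x) * ((∏ z ∈ O.erase y, (y - z)) * ∏ z ∈ O', (y - z))) := by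
      rw [← eval_map, ← derivative_map, hc.hs, derivative_C_mul, eval_mul, eval_C]
      congr 1
      have h3 := Lagrange.eval_nodal_derivative_eval_node_eq (s := s) (v := (id : N → N)) hys
      rw [Lagrange.eval_nodal] at h3
      refine h3.trans ?_
      simp only [id_eq]
      have hyx : y ≠ x := fun h => hxO (h ▸ hy)
      have hyO' : y ∉ O' := Finset.disjoint_left.1 hdisj hy
      have h4 : s.erase y = insert x (O.erase y ∪ O') := by
        ext z
        simp only [Finset.mem_erase, Finset.mem_insert, Finset.mem_union, ← hun]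
        constructor
        · rintro ⟨h1, h2 | h2 | h2⟩
          · exact Or.inl h2
          · exact Or.inr (Or.inl ⟨h1, h2⟩)
          · exact Or.inr (Or.inr h2)
        · rintro (h2 | ⟨h1, h2⟩ | h2)
          · exact ⟨h2 ▸ hyx.symm, Or.inl h2⟩
          · exact ⟨h1, Or.inr (Or.inl h2)⟩
          · exact ⟨fun h => hyO' (h ▸ h2), Or.inr (Or.inr h2)⟩
      rw [h4, Finset.prod_insert, Finset.prod_union]
      · exact Finset.disjoint_of_subset_left (Finset.erase_subset _ _) hdisj
      · rw [Finset.mem_union, Finset.mem_erase]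
        tauto
    have h5 : ∏ z ∈ O.erase y, (y - z) ≠ 0 := by
      intro h0
      rw [h2, h0] at hy0
      simp at hy0
    have h6 : (y - x) ≠ 0 := by
      intro h0
      rw [h2, h0] at hy0
      simp at hy0
    have h7 : ∏ z ∈ O', (y - z) ≠ 0 := by
      intro h0
      rw [h2, h0] at hy0
      simp at hy0
    have h8 : lc ≠ 0 := by
      intro h0
      rw [h2, h0] at hy0
      simp at hy0
    have h9 : (liftPoly g n y).derivative.eval x ≠ 0 := by
      intro h0
      rw [← h1, h0] at hx0
      simp at hx0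
    rw [h2, ← h1]
    field_simp
  -- the sum
  have hn0 : (g (n - 1)).natDegree ≤ 1 := by
    have := hgd (n - 1) (Nat.sub_le _ _)
    omega
  obtain ⟨a0, a1, hga⟩ : ∃ a0 a1 : k, g (n - 1) = C a1 * X + C a0 :=
    ⟨_, _, eq_X_add_C_of_natDegree_le_one hn0⟩
  refine ⟨-a0, -a1, ?_, ?_⟩
  · have h1 := hge (n - 1) (Nat.sub_le _ _)
    rw [prod_X_sub_C_coeff_card_pred O (fun y => y) hn1, hga] at h1
    simp only [map_add, map_mul, aeval_C, aeval_X] at h1
    rw [map_neg, map_neg]
    linear_combination h1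
  · rw [Finset.sum_congr rfl hth, ← Finset.mul_sum]
    set E : N[X] := ∑ i ∈ Finset.range n, C (((g i).map (algebraMap k N)).derivative.eval x) * X ^ i
      with hE
    have hEeval : ∀ y, (liftPoly g n y).derivative.eval x = E.eval y := by
      intro y
      rw [liftPoly, derivative_sum, eval_finsetSum, hE, eval_finsetSum, Finset.sum_range_succ]
      have h0 : (C (y ^ n) * (g n).map (algebraMap k N)).derivative.eval x = 0 := by
        have h1 : (g n).natDegree = 0 := by
          have := hgd n le_rfl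
          omega
        rw [eq_C_of_natDegree_eq_zero h1, Polynomial.map_C, ← C_mul, derivative_C, eval_zero]
      rw [h0, add_zero]
      refine Finset.sum_congr rfl fun i _ => ?_
      rw [derivative_C_mul, eval_mul, eval_C, eval_mul, eval_C, eval_pow, eval_X, mul_comm]
    have hEdeg : E.degree < O.card := by
      refine (degree_sum_le _ _).trans_lt ?_
      rw [Finset.sup_lt_iff (WithBot.bot_lt_coe _)]
      intro i hi
      refine (degree_C_mul_X_pow_le _ _).trans_lt ?_
      exact_mod_cast Finset.mem_range.1 hi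
    have hEcoeff : E.coeff (O.card - 1) = algebraMap k N a1 := by
      rw [hE, finsetSum_coeff, Finset.sum_eq_single (n - 1)]
      · rw [coeff_C_mul_X_pow, if_pos rfl, hga]
        simp
      · intro i _ hne
        rw [coeff_C_mul_X_pow, if_neg (fun h => hne h.symm)]
      · intro h
        exact absurd (Finset.mem_range.2 (by omega)) h
    have h2 := Lagrange.coeff_eq_sum (s := O) (v := id) (Function.injective_id.injOn) hEdeg
    simp only [id_eq] at h2
    simp only [hEeval]
    rw [← h2, hEcoeff, map_neg]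
    ring

/-- An invariant relation between the roots persists for the inverse derivatives. -/
theorem Ctx.invariant_relation (hc : Ctx d p s) {x : N} (hx : x ∈ s) {a : N → ℂ}
    (hinv : ∀ σ : N ≃ₐ[k] N, σ x = x → ∀ y ∈ s, a (σ y) = a y)
    (hrel : ∑ y ∈ s, algebraMap ℂ[X] N (C (a y)) * y = 0) :
    ∑ y ∈ s, algebraMap ℂ[X] N (C (a y)) * (p.derivative.eval₂ (algebraMap ℂ[X] N) y)⁻¹ = 0 := by
  classical
  have key : ∀ c : ℂ, ∃ α γ : k,
      ∑ y ∈ (s.erase x).filter (fun y => a y = c), y = algebraMap k N α + algebraMap k N γ * x ∧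
      ∑ y ∈ (s.erase x).filter (fun y => a y = c),
        (p.derivative.eval₂ (algebraMap ℂ[X] N) y)⁻¹ =
        algebraMap k N γ * (p.derivative.eval₂ (algebraMap ℂ[X] N) x)⁻¹ := by
    intro c
    refine hc.invariant_sum (k := k) hx ?_ ?_ ?_
    · exact (Finset.filter_subset _ _).trans (Finset.erase_subset _ _)
    · intro h
      exact (Finset.mem_erase.1 (Finset.mem_filter.1 h).1).1 rfl
    · intro σ hσ y hy
      rw [Finset.mem_filter, Finset.mem_erase] at hy ⊢
      refine ⟨⟨fun h => hy.1.1 (σ.injective (by rw [h, hσ])), hc.sigma_mem σ hy.1.2⟩, ?_⟩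
      rw [hinv σ hσ y hy.1.2]
      exact hy.2
  choose α γ h1 h2 using key
  set T : Finset ℂ := (s.erase x).image a with hT
  have hsplit : ∀ f : N → N, ∑ y ∈ s, algebraMap ℂ[X] N (C (a y)) * f y =
      algebraMap ℂ[X] N (C (a x)) * f x +
        ∑ c ∈ T, algebraMap ℂ[X] N (C c) * ∑ y ∈ (s.erase x).filter (fun y => a y = c), f y := by
    intro f
    rw [← Finset.add_sum_erase s _ hx]
    congr 1
    rw [← Finset.sum_fiberwise_of_maps_to (s := s.erase x) (t := T) (g := a)
      fun y hy => Finset.mem_image_of_mem a hy]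
    refine Finset.sum_congr rfl fun c _ => ?_
    rw [Finset.mul_sum]
    refine Finset.sum_congr rfl fun y hy => ?_
    rw [(Finset.mem_filter.1 hy).2]
  have hcst : ∀ c : ℂ, algebraMap ℂ[X] N (C c) = algebraMap k N (algebraMap ℂ[X] k (C c)) :=
    fun c => IsScalarTower.algebraMap_apply ℂ[X] k N _
  have e1 := hsplit fun y => y
  have e2 := hsplit fun y => (p.derivative.eval₂ (algebraMap ℂ[X] N) y)⁻¹
  beta_reduce at e1 e2
  rw [hrel] at e1
  rw [e2]
  simp only [h2]
  simp only [h1] at e1
  set A : k := ∑ c ∈ T, algebraMap ℂ[X] k (C c) * α c with hA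
  set B : k := algebraMap ℂ[X] k (C (a x)) + ∑ c ∈ T, algebraMap ℂ[X] k (C c) * γ c with hB
  have e3 : algebraMap k N A + algebraMap k N B * x = 0 := by
    rw [e1, hA, hB, map_add, map_sum, map_sum, add_mul, Finset.sum_mul, hcst]
    rw [add_left_comm, ← Finset.sum_add_distrib]
    congr 1
    refine Finset.sum_congr rfl fun c _ => ?_
    rw [hcst, map_mul, map_mul]
    ring
  have hB0 : B = 0 := by
    by_contra hB0
    -- otherwise `x` is in `k`, but it has another conjugate
    have hx' : x = algebraMap k N (-A / B) := by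
      rw [map_div₀, map_neg, eq_div_iff]
      · linear_combination e3
      · rwa [Ne, map_eq_zero_iff _ (algebraMap k N).injective]
    have hcard : 2 ≤ s.card := by
      rw [← hc.card]
      have := hc.hd
      have := hc.hD
      omega
    obtain ⟨y, hy, hyx⟩ := Finset.exists_mem_ne (by omega : 1 < s.card) x
    obtain ⟨σ, hσ⟩ := hc.exists_sigma (k := k) hx hy
    rw [hx', AlgEquiv.commutes, ← hx'] at hσ
    exact hyx hσ.symm
  have e4 : algebraMap ℂ[X] N (C (a x)) * (p.derivative.eval₂ (algebraMap ℂ[X] N) x)⁻¹ +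
      ∑ c ∈ T, algebraMap ℂ[X] N (C c) *
        (algebraMap k N (γ c) * (p.derivative.eval₂ (algebraMap ℂ[X] N) x)⁻¹) =
      algebraMap k N B * (p.derivative.eval₂ (algebraMap ℂ[X] N) x)⁻¹ := by
    rw [hB, map_add, map_sum, add_mul, Finset.sum_mul, hcst]
    congr 1
    refine Finset.sum_congr rfl fun c _ => ?_
    rw [hcst, map_mul]
    ring
  rw [e4, hB0, map_zero, zero_mul]

end Pool.Agent.Helper32.Oval
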