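import Pool.Agent.Helper32.Oval.GaloisD

/-!
The key lemma: complex linear relations between the roots persist for the inverse derivatives.
-/

open Polynomial ComplexConjugate

namespace Pool.Agent.Helper32.Oval

variable {k N : Type*} [Field k] [Field N] [Algebra k N] [FiniteDimensional k N] [IsGalois k N]
  [Algebra ℂ[X] k] [IsFractionRing ℂ[X] k] [Algebra ℂ[X] N] [IsScalarTower ℂ[X] k N]

variable {d : ℕ} {p : Polynomial (Polynomial ℂ)} {s : Finset N}

variable (k) in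
include k in
theorem Ctx.key (hc : Ctx d p s) (n : N → ℂ)
    (hrel : ∑ y ∈ s, algebraMap ℂ[X] N (C (n y)) * y = 0) :
    ∑ y ∈ s, algebraMap ℂ[X] N (C (n y)) * (p.derivative.eval₂ (algebraMap ℂ[X] N) y)⁻¹ = 0 := by
  classical
  set θ : N → N := fun y => (p.derivative.eval₂ (algebraMap ℂ[X] N) y)⁻¹ with hθ
  set κ : ℂ →+* N := (algebraMap ℂ[X] N).comp C with hκ
  have hκσ : ∀ (σ : N ≃ₐ[k] N) (c : ℂ), σ (κ c) = κ c := fun σ c => sigma_algebraMap σ _
  have hθσ : ∀ (σ : N ≃ₐ[k] N) (y : N), σ (θ y) = θ (σ y) := fun σ y => by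
    rw [hθ]
    simp only
    rw [map_inv₀, sigma_eval₂]
  have himg : ∀ σ : N ≃ₐ[k] N, s.image σ = s := by
    intro σ
    refine Finset.eq_of_subset_of_card_le (Finset.image_subset_iff.2 fun z hz =>
      hc.sigma_mem σ hz) ?_
    rw [Finset.card_image_of_injective _ σ.injective]
  -- reindexing
  have hre : ∀ (σ : N ≃ₐ[k] N) (f : N → N), (∀ y, σ (f y) = f (σ y)) →
      ∑ y ∈ s, κ (n (σ.symm y)) * f y = σ (∑ y ∈ s, κ (n y) * f y) := by
    intro σ f hf
    rw [map_sum]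
    conv_lhs => rw [← himg σ]
    rw [Finset.sum_image fun x _ y _ hxy => σ.injective hxy]
    refine Finset.sum_congr rfl fun y _ => ?_
    rw [AlgEquiv.symm_apply_apply, map_mul, hκσ, hf]
  set t : N := ∑ y ∈ s, κ (n y) * θ y with ht
  have hcol : ∀ x ∈ s, ∑ σ : N ≃ₐ[k] N, κ (conj (n (σ.symm x))) * σ t = 0 := by
    intro x hx
    have h1 := hc.invariant_relation (k := k) hx
      (a := fun y => ∑ σ : N ≃ₐ[k] N, n (σ.symm y) * conj (n (σ.symm x))) ?_ ?_
    · have h2 : ∀ y ∈ s, algebraMap ℂ[X] N (C (∑ σ : N ≃ₐ[k] N,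
          n (σ.symm y) * conj (n (σ.symm x)))) * θ y =
          ∑ σ : N ≃ₐ[k] N, κ (conj (n (σ.symm x))) * (κ (n (σ.symm y)) * θ y) := by
        intro y _
        have h3 : algebraMap ℂ[X] N (C (∑ σ : N ≃ₐ[k] N,
          n (σ.symm y) * conj (n (σ.symm x)))) = κ (∑ σ : N ≃ₐ[k] N,
          n (σ.symm y) * conj (n (σ.symm x))) := rfl
        rw [h3, map_sum, Finset.sum_mul]
        refine Finset.sum_congr rfl fun σ _ => ?_
        rw [map_mul]
        ring
      rw [Finset.sum_congr rfl h2, Finset.sum_comm] at h1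
      rw [← h1]
      refine Finset.sum_congr rfl fun σ _ => ?_
      rw [← Finset.mul_sum, hre σ θ (hθσ σ)]
    · intro τ hτ y _
      refine Fintype.sum_equiv (Equiv.mulLeft τ⁻¹) _ _ fun σ => ?_
      have h4 : ∀ z, (τ⁻¹ * σ).symm z = σ.symm (τ z) := by
        intro z
        rw [AlgEquiv.symm_apply_eq, AlgEquiv.mul_apply, AlgEquiv.apply_symm_apply]
        exact (AlgEquiv.symm_apply_apply τ z).symm
      rw [Equiv.coe_mulLeft, h4, h4, hτ]
    · have h2 : ∀ y ∈ s, algebraMap ℂ[X] N (C (∑ σ : N ≃ₐ[k] N,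
          n (σ.symm y) * conj (n (σ.symm x)))) * y =
          ∑ σ : N ≃ₐ[k] N, κ (conj (n (σ.symm x))) * (κ (n (σ.symm y)) * y) := by
        intro y _
        have h3 : algebraMap ℂ[X] N (C (∑ σ : N ≃ₐ[k] N,
          n (σ.symm y) * conj (n (σ.symm x)))) = κ (∑ σ : N ≃ₐ[k] N,
          n (σ.symm y) * conj (n (σ.symm x))) := rfl
        rw [h3, map_sum, Finset.sum_mul]
        refine Finset.sum_congr rfl fun σ _ => ?_
        rw [map_mul]
        ring
      rw [Finset.sum_congr rfl h2, Finset.sum_comm]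
      refine Finset.sum_eq_zero fun σ _ => ?_
      rw [← Finset.mul_sum, hre σ (fun y => y) (fun _ => rfl)]
      have h5 : ∑ y ∈ s, κ (n y) * y = 0 := hrel
      rw [h5, map_zero, mul_zero]
  -- positivity
  let _ : Algebra ℂ N := κ.toAlgebra
  have hsmul : ∀ (c : ℂ) (z : N), κ c * z = c • z := fun c z => rfl
  refine (Module.forall_dual_apply_eq_zero_iff ℂ t).1 fun l => ?_
  set X' : (N ≃ₐ[k] N) → ℂ := fun σ => l (σ t) with hX'
  have hXσ : ∀ σ, X' σ = ∑ y ∈ s, n (σ.symm y) * l (θ y) := by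
    intro σ
    rw [hX']
    simp only
    rw [ht, ← hre σ θ (hθσ σ), map_sum]
    refine Finset.sum_congr rfl fun y _ => ?_
    rw [hsmul, map_smul, smul_eq_mul]
  have h1 : ∀ x ∈ s, ∑ σ : N ≃ₐ[k] N, conj (n (σ.symm x)) * X' σ = 0 := by
    intro x hx
    have h2 := congrArg l (hcol x hx)
    rw [map_sum, map_zero] at h2
    rw [← h2]
    refine Finset.sum_congr rfl fun σ _ => ?_
    rw [hsmul, map_smul, smul_eq_mul]
  have h2 : ∑ σ : N ≃ₐ[k] N, conj (X' σ) * X' σ = 0 := by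
    have h3 : ∀ σ : N ≃ₐ[k] N, conj (X' σ) * X' σ =
        ∑ x ∈ s, conj (l (θ x)) * (conj (n (σ.symm x)) * X' σ) := by
      intro σ
      conv_lhs => rw [hXσ σ, map_sum, Finset.sum_mul]
      refine Finset.sum_congr rfl fun x _ => ?_
      rw [map_mul, ← hXσ]
      ring
    simp only [h3]
    rw [Finset.sum_comm]
    refine Finset.sum_eq_zero fun x hx => ?_
    rw [← Finset.mul_sum, h1 x hx, mul_zero]
  have h4 : ∑ σ : N ≃ₐ[k] N, Complex.normSq (X' σ) = 0 := by
    have h5 : ((∑ σ : N ≃ₐ[k] N, Complex.normSq (X' σ) : ℝ) : ℂ) = 0 := by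
      rw [Complex.ofReal_sum, ← h2]
      refine Finset.sum_congr rfl fun σ _ => ?_
      rw [Complex.normSq_eq_conj_mul_self]
    exact_mod_cast h5
  rw [Finset.sum_eq_zero_iff_of_nonneg fun σ _ => Complex.normSq_nonneg _] at h4
  have h6 := h4 AlgEquiv.refl (Finset.mem_univ _)
  rw [Complex.normSq_eq_zero] at h6
  exact h6

end Pool.Agent.Helper32.Oval
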