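import Pool.Agent.Helper32.Oval.Field
import Pool.Agent.Helper32.Oval.Descent

/-!
Local rings of algebraic functions on a plane region `D` at a point of `D` or at infinity.
-/

open Polynomial Filter Topology

namespace Pool.Agent.Helper32.Oval

variable {k L : Type*} [Field k] [Field L] [Algebra k L] [Algebra ℂ[X] k] [IsFractionRing ℂ[X] k]
  [Algebra ℂ[X] L] [IsScalarTower ℂ[X] k L] {U : Set ℂ} {j : AnaRing U →+* L} {D : Set ℂ}

/-- The geometric assumptions on the regions. -/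
structure Region (U D : Set ℂ) : Prop where
  openU : IsOpen U
  neU : U.Nonempty
  sub : U ⊆ D
  openD : IsOpen D
  preD : IsPreconnected D

theorem Region.eqOn (hR : Region U D) {f g : ℂ → ℂ} (hf : AnalyticOnNhd ℂ f D)
    (hg : AnalyticOnNhd ℂ g D) (h : ∀ z ∈ U, f z = g z) : ∀ z ∈ D, f z = g z := by
  obtain ⟨z0, hz0⟩ := hR.neU
  refine hf.eqOn_of_preconnected_of_eventuallyEq hg hR.preD (hR.sub hz0) ?_
  filter_upwards [hR.openU.mem_nhds hz0] with z hz
  exact h z hz

section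
omit [Field k] [Algebra k L] [Algebra ℂ[X] k] [IsFractionRing ℂ[X] k] [IsScalarTower ℂ[X] k L]

theorem IsRep.unique (hR : Region U D) (hj : Emb j) {n : L} {q q' : ℂ[X]} {f f' : ℂ → ℂ}
    (h : IsRep j D n q f) (h' : IsRep j D n q' f') :
    ∀ z ∈ D, q.eval z * f' z = q'.eval z * f z := by
  obtain ⟨h1, h2, h3, h4⟩ := h
  obtain ⟨h1', h2', h3', h4'⟩ := h'
  refine hR.eqOn ((analytic_poly q D).mul h2') ((analytic_poly q' D).mul h2) ?_
  have e1 : polyA U q * toA f' h3' = polyA U q' * toA f h3 := by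
    apply hj.inj
    rw [map_mul j, map_mul j, hj.poly, hj.poly, ← h4, ← h4']
    ring
  intro z hz
  exact congrFun (congrArg Subtype.val e1) ⟨z, hz⟩

theorem IsRep.mul_eq_one (hR : Region U D) (hj : Emb j) {n n' : L} {q q' : ℂ[X]} {f f' : ℂ → ℂ}
    (h : IsRep j D n q f) (h' : IsRep j D n' q' f') (hn : n * n' = 1) :
    ∀ z ∈ D, f z * f' z = q.eval z * q'.eval z := by
  obtain ⟨h1, h2, h3, h4⟩ := h
  obtain ⟨h1', h2', h3', h4'⟩ := h'
  refine hR.eqOn (h2.mul h2') ((analytic_poly q D).mul (analytic_poly q' D)) ?_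
  have e1 : toA f h3 * toA f' h3' = polyA U q * polyA U q' := by
    apply hj.inj
    rw [map_mul j, map_mul j, hj.poly, hj.poly, ← h4, ← h4']
    linear_combination (algebraMap ℂ[X] L q * algebraMap ℂ[X] L q') * hn
  intro z hz
  exact congrFun (congrArg Subtype.val e1) ⟨z, hz⟩

/-- `n` is bounded along the filter `l`. -/
def BddAlong (j : AnaRing U →+* L) (D : Set ℂ) (l : Filter ℂ) (n : L) : Prop :=
  ∃ q f, IsRep j D n q f ∧ (fun z => f z / q.eval z) =O[l] (fun _ => (1 : ℝ))

/-- `n` tends to zero along the filter `l`. -/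
def SmallAlong (j : AnaRing U →+* L) (D : Set ℂ) (l : Filter ℂ) (n : L) : Prop :=
  ∃ q f, IsRep j D n q f ∧ Tendsto (fun z => f z / q.eval z) l (𝓝 0)

/-- Filters that converge to a point of `D` or to infinity. -/
structure GoodFilter (D : Set ℂ) (l : Filter ℂ) : Prop where
  neBot : l.NeBot
  poly : ∀ q : ℂ[X], q ≠ 0 → ∀ᶠ z in l, q.eval z ≠ 0
  mem : ∀ᶠ z in l, z ∈ D

variable {l : Filter ℂ}

theorem SmallAlong.of_rep (hR : Region U D) (hj : Emb j) (hl : GoodFilter D l) {n : L}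
    (h : SmallAlong j D l n) {q : ℂ[X]} {f : ℂ → ℂ} (hn : IsRep j D n q f) :
    Tendsto (fun z => f z / q.eval z) l (𝓝 0) := by
  obtain ⟨q', f', hn', hlim⟩ := h
  refine hlim.congr' ?_
  filter_upwards [hl.poly q hn.1, hl.poly q' hn'.1, hl.mem] with z h1 h2 h3
  have h4 := hn.unique hR hj hn' z h3
  rw [div_eq_div_iff h2 h1]
  linear_combination h4

theorem BddAlong.add (hj : Emb j) (hl : GoodFilter D l) {n n' : L} (h : BddAlong j D l n)
    (h' : BddAlong j D l n') : BddAlong j D l (n + n') := by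
  obtain ⟨q, f, hn, hb⟩ := h
  obtain ⟨q', f', hn', hb'⟩ := h'
  refine ⟨_, _, hn.add hj hn', ?_⟩
  refine (hb.add hb').congr' ?_ (Filter.EventuallyEq.refl _ _)
  filter_upwards [hl.poly q hn.1, hl.poly q' hn'.1] with z h1 h2
  rw [eval_mul]
  field_simp

theorem BddAlong.mul {n n' : L} (h : BddAlong j D l n)
    (h' : BddAlong j D l n') : BddAlong j D l (n * n') := by
  obtain ⟨q, f, hn, hb⟩ := h
  obtain ⟨q', f', hn', hb'⟩ := h'
  refine ⟨_, _, hn.mul hn', ?_⟩
  have h1 := hb.mul hb'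
  simp only [mul_one] at h1
  refine h1.congr_left fun z => ?_
  rw [eval_mul, mul_div_mul_comm]

theorem BddAlong.const (hj : Emb j) (c : ℂ) :
    BddAlong j D l (algebraMap ℂ[X] L (C c)) := by
  refine ⟨1, fun z => (C c).eval z, ⟨one_ne_zero, analytic_poly _ _, analytic_poly _ _, ?_⟩, ?_⟩
  · rw [map_one, one_mul, ← polyA_apply, hj.poly]
  · simp only [eval_C, eval_one, div_one]
    exact Asymptotics.isBigO_const_const c one_ne_zero l

theorem SmallAlong.add (hj : Emb j) (hl : GoodFilter D l) {n n' : L} (h : SmallAlong j D l n)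
    (h' : SmallAlong j D l n') : SmallAlong j D l (n + n') := by
  obtain ⟨q, f, hn, hb⟩ := h
  obtain ⟨q', f', hn', hb'⟩ := h'
  refine ⟨_, _, hn.add hj hn', ?_⟩
  have h1 := hb.add hb'
  rw [add_zero] at h1
  refine h1.congr' ?_
  filter_upwards [hl.poly q hn.1, hl.poly q' hn'.1] with z h1 h2
  rw [eval_mul]
  field_simp

theorem BddAlong.mul_small {n n' : L} (h : BddAlong j D l n)
    (h' : SmallAlong j D l n') : SmallAlong j D l (n * n') := by
  obtain ⟨q, f, hn, hb⟩ := h
  obtain ⟨q', f', hn', hb'⟩ := h'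
  refine ⟨_, _, hn.mul hn', ?_⟩
  have h1 : (fun z => f' z / q'.eval z) =o[l] (fun _ => (1 : ℝ)) :=
    (Asymptotics.isLittleO_one_iff ℝ).2 hb'
  have h2 := hb.mul_isLittleO h1
  simp only [mul_one] at h2
  refine ((Asymptotics.isLittleO_one_iff ℝ).1 h2).congr fun z => ?_
  rw [eval_mul, mul_div_mul_comm]

theorem not_smallAlong_one (hR : Region U D) (hj : Emb j) (hl : GoodFilter D l) :
    ¬ SmallAlong j D l (1 : L) := by
  intro h
  have h1 : IsRep j D (1 : L) 1 (fun z => (1 : ℂ[X]).eval z) :=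
    ⟨one_ne_zero, analytic_poly _ _, analytic_poly _ _, by
      rw [map_one, one_mul, ← polyA_apply, map_one, map_one]⟩
  have h2 := h.of_rep hR hj hl h1
  simp only [eval_one, div_one] at h2
  have := hl.neBot
  exact one_ne_zero (tendsto_nhds_unique tendsto_const_nhds h2)

end

end Pool.Agent.Helper32.Oval
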