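import Pool.Agent.Helper32.Oval.LocalA

/-!
The field of algebraic functions on `D` inside `N`, and places dominating its local rings.
-/

open Polynomial Filter Topology

namespace Pool.Agent.Helper32.Oval

variable {k L : Type*} [Field k] [Field L] [Algebra k L] [Algebra ℂ[X] k] [IsFractionRing ℂ[X] k]
  [Algebra ℂ[X] L] [IsScalarTower ℂ[X] k L] {U : Set ℂ} {j : AnaRing U →+* L} {D : Set ℂ}

variable {N : IntermediateField k L} [Algebra.IsAlgebraic k N]

/-- The elements of `N` represented on `D`. -/
noncomputable def KD (hj : Emb j) (D : Set ℂ) (N : IntermediateField k L)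
    [Algebra.IsAlgebraic k N] : IntermediateField k N :=
  let S : Subalgebra k N :=
    { carrier := {n | ∃ q f, IsRep j D (n : L) q f}
      mul_mem' := by
        rintro n n' ⟨q, f, h⟩ ⟨q', f', h'⟩
        exact ⟨_, _, h.mul h'⟩
      add_mem' := by
        rintro n n' ⟨q, f, h⟩ ⟨q', f', h'⟩
        exact ⟨_, _, h.add hj h'⟩
      algebraMap_mem' := by
        intro x
        obtain ⟨q, a, h⟩ := IsRep.of_base (D := D) hj x
        exact ⟨q, _, h⟩ }
  S.toIntermediateField fun x hx => by
    exact S.inv_mem_of_algebraic (x := ⟨x, hx⟩) (Algebra.IsAlgebraic.isAlgebraic _)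

theorem mem_KD {hj : Emb j} {n : N} : n ∈ KD hj D N ↔ ∃ q f, IsRep j D (n : L) q f := Iff.rfl

/-- The dichotomy at the filter `l`: a quotient of an analytic function by a polynomial tends to
zero or its inverse is bounded. -/
def Dichotomy (hj : Emb j) (D : Set ℂ) (N : IntermediateField k L)
    [Algebra.IsAlgebraic k N] (l : Filter ℂ) : Prop :=
  ∀ n ∈ KD hj D N, ∀ q f, IsRep j D (n : L) q f → Tendsto (fun z => f z / q.eval z) l (𝓝 0) ∨
    ((∀ᶠ z in l, f z ≠ 0) ∧ (fun z => q.eval z / f z) =O[l] (fun _ => (1 : ℝ)))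

variable {l : Filter ℂ}

/-- There is a valuation ring of `N` dominating the local ring at the filter `l`. -/
theorem exists_dominating (hj : Emb j) (hR : Region U D) (hl : GoodFilter D l)
    (hdic : Dichotomy hj D N l) :
    ∃ A : ValuationSubring N, (∀ n : N, BddAlong j D l (n : L) → A.valuation n ≤ 1) ∧
      (∀ n : N, SmallAlong j D l (n : L) → A.valuation n < 1) ∧
      ∀ n ∈ KD hj D N, A.valuation n < 1 → SmallAlong j D l (n : L) := by
  let R : Subring N :=
    { carrier := {n | BddAlong j D l (n : L)}
      mul_mem' := fun h h' => h.mul h'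
      add_mem' := fun h h' => h.add hj hl h'
      one_mem' := by
        have := BddAlong.const (D := D) (l := l) hj 1
        rwa [C_1, map_one] at this
      zero_mem' := by
        have := BddAlong.const (D := D) (l := l) hj 0
        rwa [C_0, map_zero] at this
      neg_mem' := by
        intro n h
        have h1 := (BddAlong.const (D := D) (l := l) hj (-1)).mul h
        rwa [C_neg, C_1, map_neg, map_one, neg_one_mul] at h1 }
  let I : Ideal R :=
    { carrier := {n | SmallAlong j D l ((n : N) : L)}
      add_mem' := fun h h' => h.add hj hl h'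
      zero_mem' := by
        have h1 := BddAlong.const (D := D) (l := l) hj 0
        refine ⟨1, fun z => (C 0 : ℂ[X]).eval z, ⟨one_ne_zero, analytic_poly _ _,
          analytic_poly _ _, ?_⟩, ?_⟩
        · rw [map_one, one_mul, ← polyA_apply, hj.poly, C_0, map_zero]
          rfl
        · simp only [eval_C, zero_div]
          exact tendsto_const_nhds
      smul_mem' := fun c x hx => BddAlong.mul_small c.2 hx }
  have hI : I ≠ ⊤ := by
    intro h
    have h1 : (1 : R) ∈ I := by rw [h]; trivial
    exact not_smallAlong_one hR hj hl h1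
  obtain ⟨A, hA1, hA2⟩ := Ideal.image_subset_nonunits_valuationSubring I hI
  have hle : ∀ n : N, BddAlong j D l (n : L) → A.valuation n ≤ 1 := fun n hn => by
    rw [ValuationSubring.valuation_le_one_iff]
    exact hA1 hn
  refine ⟨A, hle, ?_, ?_⟩
  · intro n hn
    rw [← ValuationSubring.mem_nonunits_iff]
    have hb : BddAlong j D l (n : L) := by
      obtain ⟨q, f, h1, h2⟩ := hn
      exact ⟨q, f, h1, h2.isBigO_one ℝ⟩
    exact hA2 ⟨⟨n, hb⟩, hn, rfl⟩
  · intro n hn hv
    obtain ⟨q, f, hrep⟩ := mem_KD.1 hn
    rcases hdic n hn q f hrep with h | ⟨h1, h2⟩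
    · exact ⟨q, f, hrep, h⟩
    · exfalso
      have hn0 : n ≠ 0 := by
        rintro rfl
        obtain ⟨hq, hfD, hf, h3⟩ := hrep
        have h4 : toA f hf = 0 := by
          apply hj.inj
          rw [← h3, map_zero]
          simp
        have h5 : ∀ z ∈ D, f z = 0 := hR.eqOn hfD analyticOnNhd_const
          fun z hz => congrFun (congrArg Subtype.val h4) ⟨z, hz⟩
        have := hl.neBot
        obtain ⟨z, e1, e2⟩ := (h1.and hl.mem).exists
        exact e1 (h5 z e2)
      have hninv : n⁻¹ ∈ KD hj D N := inv_mem hn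
      obtain ⟨q', f', hrep'⟩ := mem_KD.1 hninv
      have h5 := hrep.mul_eq_one hR hj hrep' (by
        have : n * n⁻¹ = 1 := mul_inv_cancel₀ hn0
        exact congrArg Subtype.val this)
      have h6 : BddAlong j D l ((n⁻¹ : N) : L) := by
        refine ⟨q', f', hrep', ?_⟩
        refine h2.congr' ?_ (Filter.EventuallyEq.refl _ _)
        filter_upwards [h1, hl.poly q' hrep'.1, hl.mem] with z e1 e2 e3
        rw [div_eq_div_iff e1 e2]
        linear_combination -(h5 z e3)
      have h7 := hle _ h6
      rw [map_inv₀] at h7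
      have h8 : A.valuation n ≠ 0 := (Valuation.ne_zero_iff _).2 hn0
      have h9 : 1 ≤ A.valuation n := by
        rwa [inv_le_one₀ (zero_lt_iff.2 h8)] at h7
      exact absurd hv (not_lt.2 h9)

end Pool.Agent.Helper32.Oval
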