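import Pool.Agent.Helper32.Oval.LocalB

/-!
The inverse derivative has no poles: from valuations to functions.
-/

open Polynomial Filter Topology

namespace Pool.Agent.Helper32.Oval

section estimates

variable {N : Type*} [Field N] [Algebra ℂ[X] N] {Γ₀ : Type*}
  [LinearOrderedCommGroupWithZero Γ₀] {b : ℂ} {v : Valuation N Γ₀}
variable {d : ℕ} {p : Polynomial (Polynomial ℂ)} {s : Finset N}

theorem Ctx.theta_fin (hc : Ctx d p s) (h : IsPlace (algebraMap ℂ[X] N) b v) {y : N}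
    (hy : y ∈ s) : v (algebraMap ℂ[X] N (X - C b) * theta p y) < 1 := by
  have h1 := hc.hp.est0 hc.hd h hc.inj hc.alg (hc.mem_iff.1 hy) (m := 0)
    (by have := hc.hd; have := hc.hD; omega)
  rw [pow_zero, mul_one] at h1
  rw [theta, map_mul, map_inv₀, ← div_eq_mul_inv, div_lt_one₀ (lt_of_le_of_lt zero_le h1)]
  exact h1

theorem Ctx.theta_inf (hc : Ctx d p s) (h : IsPlace (phiInf (algebraMap ℂ[X] N)) 0 v) {y : N}
    (hy : y ∈ s) : v (algebraMap ℂ[X] N X * theta p y) < 1 := by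
  have hX := X_ne hc.inj
  have hd := hc.hd
  have h1 := hc.hq.est0 hc.hd h (phiInf_injective hc.inj) (isAlg_phiInf hc.inj hc.alg)
    (y := (algebraMap ℂ[X] N X)⁻¹ * y)
    (by rw [eval₂_flip hc.inj hc.hp.deg, hc.mem_iff.1 hy, mul_zero]) (m := 0)
    (by rw [natDegree_flip hc.hp.deg]; have := hc.hd; have := hc.hD; omega)
  rw [derivative_eval₂_flip hc.inj (by omega) hc.hp.deg, C_0, sub_zero, phiInf_X] at h1
  simp only [map_mul, map_pow, pow_zero, mul_one] at h1
  have hζ1 : v (algebraMap ℂ[X] N X)⁻¹ ≤ 1 := by rw [← phiInf_X]; exact h.le _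
  have hζ0 : v (algebraMap ℂ[X] N X)⁻¹ ≠ 0 := (Valuation.ne_zero_iff _).2 (inv_ne_zero hX)
  have hX0 : v (algebraMap ℂ[X] N X) ≠ 0 := (Valuation.ne_zero_iff _).2 hX
  have hy0 := hc.deriv_ne hy
  have hvy0 : v (p.derivative.eval₂ (algebraMap ℂ[X] N) y) ≠ 0 := (Valuation.ne_zero_iff _).2 hy0
  set t := v (algebraMap ℂ[X] N X)⁻¹ with ht
  have htX : v (algebraMap ℂ[X] N X) = t⁻¹ := by rw [ht, map_inv₀, inv_inv]
  have h2 : t < t * (t * v (p.derivative.eval₂ (algebraMap ℂ[X] N) y)) := by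
    refine lt_of_lt_of_le h1 ?_
    rw [← mul_assoc, ← pow_two]
    exact mul_le_mul_left (pow_le_pow_right_of_le_one' hζ1 (by omega)) _
  have h3 : 1 < t * v (p.derivative.eval₂ (algebraMap ℂ[X] N) y) := by
    have : t * 1 < t * (t * v (p.derivative.eval₂ (algebraMap ℂ[X] N) y)) := by rwa [mul_one]
    exact lt_of_mul_lt_mul_left' this
  rw [theta, map_mul, map_inv₀, htX, ← mul_inv]
  exact inv_lt_one_of_one_lt₀ h3

omit [Algebra ℂ[X] N] in
theorem isPlace_of {φ : ℂ[X] →+* N} (h0 : ∀ c, v (φ (C c)) ≤ 1) (hX : v (φ (X - C b)) < 1) :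
    IsPlace φ b v := by
  refine ⟨fun f => ?_, hX⟩
  have hX' : v (φ X) ≤ 1 := by
    have : φ X = φ (X - C b) + φ (C b) := by rw [← map_add, sub_add_cancel]
    rw [this]
    exact (v.map_add _ _).trans (max_le hX.le (h0 b))
  conv_lhs => rw [← f.sum_C_mul_X_pow_eq]
  rw [Polynomial.sum_def, map_sum]
  refine Valuation.map_sum_le _ fun i _ => ?_
  rw [map_mul, map_pow, map_mul, map_pow]
  exact mul_le_one' (h0 _) (pow_le_one' hX' i)

theorem comb_lt {r : N → ℂ} {f : N → N} {c : N} (h : ∀ y ∈ s, v (c * f y) < 1)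
    (h0 : ∀ a : ℂ, v (algebraMap ℂ[X] N (C a)) ≤ 1) : v (c * comb s r f) < 1 := by
  rw [comb, Finset.mul_sum]
  refine Valuation.map_sum_lt _ one_ne_zero fun y hy => ?_
  have : c * (algebraMap ℂ[X] N (C (r y)) * f y) =
      algebraMap ℂ[X] N (C (r y)) * (c * f y) := by ring
  rw [this, map_mul]
  exact (mul_le_of_le_one_left' (h0 _)).trans_lt (h y hy)

end estimates

variable {k L : Type*} [Field k] [Field L] [Algebra k L] [Algebra ℂ[X] k] [IsFractionRing ℂ[X] k]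
  [Algebra ℂ[X] L] [IsScalarTower ℂ[X] k L] {U : Set ℂ} {j : AnaRing U →+* L} {D : Set ℂ}

variable {N : IntermediateField k L} [Algebra.IsAlgebraic k N]
variable {d : ℕ} {p : Polynomial (Polynomial ℂ)} {s : Finset N}

omit [IsFractionRing ℂ[X] k] [Algebra.IsAlgebraic k N] in
theorem coe_algebraMap (f : ℂ[X]) :
    ((algebraMap ℂ[X] N f : N) : L) = algebraMap ℂ[X] L f := rfl

omit [Field k] [Algebra k L] [Algebra ℂ[X] k] [IsFractionRing ℂ[X] k] [IsScalarTower ℂ[X] k L] in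
theorem isRep_poly (hj : Emb j) (f : ℂ[X]) :
    IsRep j D (algebraMap ℂ[X] L f) 1 (fun z => f.eval z) :=
  ⟨one_ne_zero, analytic_poly _ _, analytic_poly _ _, by
    rw [map_one, one_mul, ← polyA_apply, hj.poly]⟩

theorem poly_mem_KD {hj : Emb j} (f : ℂ[X]) : (algebraMap ℂ[X] N f) ∈ KD hj D N :=
  mem_KD.2 ⟨_, _, isRep_poly hj f⟩

theorem Ctx.small_pt (hc : Ctx d p s) (hj : Emb j) (hR : Region U D) {b : ℂ}
    (hl : GoodFilter D (𝓝[≠] b)) (hdic : Dichotomy hj D N (𝓝[≠] b)) {r : N → ℂ}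
    (hK : comb s r (theta p) ∈ KD hj D N) :
    SmallAlong j D (𝓝[≠] b)
      (algebraMap ℂ[X] L (X - C b) * ((comb s r (theta p) : N) : L)) := by
  obtain ⟨A, hA1, hA2, hA3⟩ := exists_dominating hj hR hl hdic
  have h0 : ∀ c : ℂ, A.valuation (algebraMap ℂ[X] N (C c)) ≤ 1 := fun c =>
    hA1 _ (BddAlong.const hj c)
  have hX : A.valuation (algebraMap ℂ[X] N (X - C b)) < 1 := by
    refine hA2 _ ⟨1, _, isRep_poly hj (X - C b), ?_⟩
    simp only [eval_sub, eval_X, eval_C, eval_one, div_one]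
    have : Tendsto (fun z : ℂ => z - b) (𝓝 b) (𝓝 (b - b)) :=
      (continuous_id.sub continuous_const).tendsto b
    rw [sub_self] at this
    exact this.mono_left nhdsWithin_le_nhds
  have hpl : IsPlace (algebraMap ℂ[X] N) b A.valuation := isPlace_of h0 hX
  have h1 : A.valuation (algebraMap ℂ[X] N (X - C b) * comb s r (theta p)) < 1 :=
    comb_lt (fun y hy => hc.theta_fin hpl hy) h0
  exact hA3 _ (mul_mem (poly_mem_KD _) hK) h1

theorem Ctx.small_infty (hc : Ctx d p s) (hj : Emb j) (hR : Region U D)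
    (hl : GoodFilter D (Bornology.cobounded ℂ)) (hdic : Dichotomy hj D N (Bornology.cobounded ℂ))
    {r : N → ℂ} (hK : comb s r (theta p) ∈ KD hj D N) :
    SmallAlong j D (Bornology.cobounded ℂ)
      (algebraMap ℂ[X] L X * ((comb s r (theta p) : N) : L)) := by
  obtain ⟨A, hA1, hA2, hA3⟩ := exists_dominating hj hR hl hdic
  have h0 : ∀ c : ℂ, A.valuation (algebraMap ℂ[X] N (C c)) ≤ 1 := fun c =>
    hA1 _ (BddAlong.const hj c)
  have hX : A.valuation (algebraMap ℂ[X] N X)⁻¹ < 1 := by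
    refine hA2 _ ⟨X, fun z => (1 : ℂ[X]).eval z, ⟨X_ne_zero, analytic_poly _ _,
      analytic_poly _ _, ?_⟩, ?_⟩
    · rw [← polyA_apply, hj.poly, map_one]
      have h1 : (algebraMap ℂ[X] L X) ≠ 0 := by
        rw [← coe_algebraMap (N := N)]
        intro h2
        exact X_ne hc.inj (Subtype.ext h2)
      have h3 : (((algebraMap ℂ[X] N X)⁻¹ : N) : L) = (algebraMap ℂ[X] L X)⁻¹ := rfl
      rw [h3, mul_inv_cancel₀ h1]
    · simp only [eval_one, eval_X, one_div]
      exact tendsto_inv₀_cobounded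
  have hpl : IsPlace (phiInf (algebraMap ℂ[X] N)) 0 A.valuation := by
    refine isPlace_of (fun c => by rw [phiInf_C]; exact h0 c) ?_
    rw [C_0, sub_zero, phiInf_X]
    exact hX
  have h1 : A.valuation (algebraMap ℂ[X] N X * comb s r (theta p)) < 1 :=
    comb_lt (fun y hy => hc.theta_inf hpl hy) h0
  exact hA3 _ (mul_mem (poly_mem_KD _) hK) h1

end Pool.Agent.Helper32.Oval
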