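import Pool.Agent.Helper32.Oval.LocalC

/-!
Regularisation of quotients without poles; intersection of the two fields.
-/

open Polynomial Filter Topology

namespace Pool.Agent.Helper32.Oval

variable {k L : Type*} [Field k] [Field L] [Algebra k L] [Algebra ℂ[X] k] [IsFractionRing ℂ[X] k]
  [Algebra ℂ[X] L] [IsScalarTower ℂ[X] k L] {U : Set ℂ} {j : AnaRing U →+* L} {D : Set ℂ}

theorem goodFilter_pt (hR : Region U D) {b : ℂ} (hb : b ∈ D) : GoodFilter D (𝓝[≠] b) where
  neBot := inferInstance
  poly q hq := by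
    have h1 : (q.rootSet ℂ).Finite := q.rootSet_finite ℂ
    have h2 : ((q.rootSet ℂ) \ {b})ᶜ ∈ 𝓝 b :=
      (h1.subset Set.sdiff_subset).isClosed.isOpen_compl.mem_nhds (by simp)
    filter_upwards [mem_nhdsWithin_of_mem_nhds h2, self_mem_nhdsWithin] with z hz hzb h0
    exact hz ⟨(mem_rootSet_of_ne hq).2 (by simpa using h0), hzb⟩
  mem := mem_nhdsWithin_of_mem_nhds (hR.openD.mem_nhds hb)

theorem goodFilter_infty {D : Set ℂ} (hD : Bornology.IsBounded Dᶜ) :
    GoodFilter D (Bornology.cobounded ℂ) where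
  neBot := inferInstance
  poly q hq := by
    have h1 : (q.rootSet ℂ).Finite := q.rootSet_finite ℂ
    have h2 : (q.rootSet ℂ)ᶜ ∈ Bornology.cobounded ℂ :=
      Bornology.isBounded_def.1 h1.isBounded
    filter_upwards [h2] with z hz h0
    exact hz ((mem_rootSet_of_ne hq).2 (by simpa using h0))
  mem := by
    have := Bornology.isBounded_def.1 hD
    rwa [compl_compl] at this

section
omit [Field k] [Algebra k L] [Algebra ℂ[X] k] [IsFractionRing ℂ[X] k] [IsScalarTower ℂ[X] k L]

theorem regularise (hR : Region U D) (hj : Emb j) (hinj : Function.Injective (algebraMap ℂ[X] L))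
    {n : L} {q : ℂ[X]} {f : ℂ → ℂ} (hn : IsRep j D n q f)
    (hsmall : ∀ b ∈ D, SmallAlong j D (𝓝[≠] b) (algebraMap ℂ[X] L (X - C b) * n)) :
    ∃ g : ℂ → ℂ, AnalyticOnNhd ℂ g D ∧ ∃ hg : AnalyticOnNhd ℂ g U, n = j (toA g hg) := by
  obtain ⟨m, hm⟩ : ∃ m, q.natDegree = m := ⟨_, rfl⟩
  induction m using Nat.strong_induction_on generalizing q f with
  | _ m ih =>
    by_cases hroot : ∃ b ∈ D, q.eval b = 0
    · obtain ⟨b, hb, hqb⟩ := hroot
      obtain ⟨q1, rfl⟩ := dvd_iff_isRoot.2 hqb
      have hq1 : q1 ≠ 0 := right_ne_zero_of_mul hn.1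
      have hl := goodFilter_pt hR hb
      have h1 : IsRep j D (algebraMap ℂ[X] L (X - C b) * n) (1 * ((X - C b) * q1))
          (fun z => (X - C b).eval z * f z) := (isRep_poly hj (X - C b)).mul hn
      have h2 := (hsmall b hb).of_rep hR hj hl h1
      have h3 : Tendsto f (𝓝[≠] b) (𝓝 0) := by
        have h4 : Tendsto (fun z => q1.eval z) (𝓝[≠] b) (𝓝 (q1.eval b)) :=
          (q1.continuous.tendsto b).mono_left nhdsWithin_le_nhds
        have h5 := h2.mul h4
        rw [zero_mul] at h5
        refine h5.congr' ?_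
        filter_upwards [hl.poly q1 hq1, self_mem_nhdsWithin] with z hz hzb
        have hzb' : z - b ≠ 0 := sub_ne_zero.2 hzb
        simp only [one_mul, eval_mul, eval_sub, eval_X, eval_C]
        field_simp
      have hfb : f b = 0 := by
        have h4 : Tendsto f (𝓝[≠] b) (𝓝 (f b)) :=
          ((hn.2.1 b hb).continuousAt).mono_left nhdsWithin_le_nhds
        exact tendsto_nhds_unique h4 h3
      -- divide by `z - b`
      set f1 : ℂ → ℂ := dslope f b with hf1
      have hf1D : AnalyticOnNhd ℂ f1 D := by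
        have : DifferentiableOn ℂ f1 D := by
          rw [hf1, Complex.differentiableOn_dslope (hR.openD.mem_nhds hb)]
          exact hn.2.1.differentiableOn
        exact this.analyticOnNhd hR.openD
      have hf1U : AnalyticOnNhd ℂ f1 U := hf1D.mono hR.sub
      have hff1 : ∀ z, f z = (z - b) * f1 z := fun z => by
        have := sub_smul_dslope f b z
        rw [hfb, sub_zero, smul_eq_mul] at this
        exact this.symm
      have hrep1 : IsRep j D n q1 f1 := by
        obtain ⟨e1, e2, e3, e4⟩ := hn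
        refine ⟨hq1, hf1D, hf1U, ?_⟩
        have hX : algebraMap ℂ[X] L (X - C b) ≠ 0 := by
          rw [Ne, map_eq_zero_iff _ hinj]
          exact X_sub_C_ne_zero b
        apply mul_left_cancel₀ hX
        rw [← mul_assoc, ← map_mul, e4, ← hj.poly, polyA_apply, ← map_mul j]
        congr 1
        refine Subtype.ext (funext fun z => ?_)
        show f z = _
        rw [hff1]
        show _ = (X - C b).eval (z : ℂ) * f1 z
        simp
      refine ih q1.natDegree ?_ hrep1 rfl
      rw [← hm, natDegree_mul (X_sub_C_ne_zero b) hq1, natDegree_X_sub_C]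
      omega
    · push Not at hroot
      obtain ⟨e1, e2, e3, e4⟩ := hn
      have hg : AnalyticOnNhd ℂ (fun z => f z / q.eval z) D := fun z hz =>
        (e2 z hz).div (analytic_poly q D z hz) (hroot z hz)
      refine ⟨fun z => f z / q.eval z, hg, hg.mono hR.sub, ?_⟩
      have hq : algebraMap ℂ[X] L q ≠ 0 := by
        rw [Ne, map_eq_zero_iff _ hinj]
        exact e1
      apply mul_left_cancel₀ hq
      rw [e4, ← hj.poly, polyA_apply, ← map_mul j]
      congr 1
      refine Subtype.ext (funext fun z => ?_)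
      show f z = q.eval (z : ℂ) * (f z / q.eval (z : ℂ))
      rw [mul_div_cancel₀]
      exact hroot z (hR.sub z.2)

end

/-- The two fields meet in the rational functions. -/
theorem KD_inf (hent : ∀ g : ℂ → ℂ, Differentiable ℂ g → ∀ Q : Polynomial (Polynomial ℂ),
      Q ≠ 0 → (∀ z, Q.evalEval z (g z) = 0) → ∃ R : Polynomial ℂ, ∀ z, g z = R.eval z)
    (hj : Emb j) (hinj : Function.Injective (algebraMap ℂ[X] L)) {D' : Set ℂ}
    (hR : Region U D) (hR' : Region U D') (hcov : D ∪ D' = Set.univ) (hint : D ∩ D' ⊆ U)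
    (N : IntermediateField k L) [Algebra.IsAlgebraic k N] :
    KD hj D N ⊓ KD hj D' N = ⊥ := by
  rw [eq_bot_iff]
  rintro n ⟨⟨q1, f1, h1⟩, ⟨q2, f2, h2⟩⟩
  obtain ⟨hq1, hf1, hf1U, e1⟩ := h1
  obtain ⟨hq2, hf2, hf2U, e2⟩ := h2
  classical
  have hUeq : ∀ z ∈ U, q2.eval z * f1 z = q1.eval z * f2 z := by
    have e3 : polyA U q2 * toA f1 hf1U = polyA U q1 * toA f2 hf2U := by
      apply hj.inj
      rw [map_mul j, map_mul j, hj.poly, hj.poly, ← e1, ← e2]
      ring
    intro z hz
    exact congrFun (congrArg Subtype.val e3) ⟨z, hz⟩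
  set g : ℂ → ℂ := fun z => if z ∈ D then q2.eval z * f1 z else q1.eval z * f2 z with hg
  have hgD : ∀ z ∈ D, g z = q2.eval z * f1 z := fun z hz => if_pos hz
  have hgD' : ∀ z ∈ D', g z = q1.eval z * f2 z := fun z hz => by
    by_cases hzD : z ∈ D
    · rw [hgD z hzD]
      exact hUeq z (hint ⟨hzD, hz⟩)
    · exact if_neg hzD
  have hgdiff : Differentiable ℂ g := by
    intro z
    have hz : z ∈ D ∪ D' := by rw [hcov]; trivial
    rcases hz with hz | hz
    · have h3 : AnalyticAt ℂ (fun z => q2.eval z * f1 z) z :=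
        (analytic_poly q2 D z hz).mul (hf1 z hz)
      refine (h3.differentiableAt).congr_of_eventuallyEq ?_
      filter_upwards [hR.openD.mem_nhds hz] with w hw
      exact hgD w hw
    · have h3 : AnalyticAt ℂ (fun z => q1.eval z * f2 z) z :=
        (analytic_poly q1 D' z hz).mul (hf2 z hz)
      refine (h3.differentiableAt).congr_of_eventuallyEq ?_
      filter_upwards [hR'.openD.mem_nhds hz] with w hw
      exact hgD' w hw
  have hgan : ∀ s : Set ℂ, AnalyticOnNhd ℂ g s := fun s z _ => hgdiff.analyticAt z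
  have hjg : j (toA g (hgan U)) = algebraMap ℂ[X] L (q1 * q2) * (n : L) := by
    have e3 : toA g (hgan U) = polyA U q2 * toA f1 hf1U := by
      refine Subtype.ext (funext fun z => ?_)
      exact hgD z (hR.sub z.2)
    rw [e3, map_mul j, hj.poly, ← e1, map_mul]
    ring
  -- `g` is algebraic
  have halg : IsAlgebraic ℂ[X] (j (toA g (hgan U))) := by
    have h3 : IsAlgebraic k (n : L) := by
      have := Algebra.IsAlgebraic.isAlgebraic (R := k) n
      exact IntermediateField.isAlgebraic_iff.1 this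
    have h4 : IsAlgebraic ℂ[X] (n : L) := (IsFractionRing.isAlgebraic_iff ℂ[X] k L).2 h3
    rw [hjg]
    exact (isAlgebraic_algebraMap _).mul h4
  obtain ⟨Q, hQ, hQg⟩ := halg
  have hQg' : ∀ z, Q.evalEval z (g z) = 0 := by
    have h3 : j (toA (fun z => Q.evalEval z (g z)) (analytic_evalEval Q (hgan U))) = 0 := by
      rw [← hj.eval₂]
      exact hQg
    have h4 : toA (fun z => Q.evalEval z (g z)) (analytic_evalEval Q (hgan U)) = 0 :=
      hj.inj (by rw [h3, map_zero])
    have h5 : ∀ z ∈ U, Q.evalEval z (g z) = 0 := fun z hz =>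
      congrFun (congrArg Subtype.val h4) ⟨z, hz⟩
    have hR'' : Region U Set.univ :=
      ⟨hR.openU, hR.neU, Set.subset_univ _, isOpen_univ, isPreconnected_univ⟩
    intro z
    exact hR''.eqOn (analytic_evalEval Q (hgan _)) analyticOnNhd_const h5 z trivial
  obtain ⟨R, hRg⟩ := hent g hgdiff Q hQ hQg'
  have hfin : algebraMap ℂ[X] L (q1 * q2) * (n : L) = algebraMap ℂ[X] L R := by
    rw [← hjg, ← hj.poly]
    congr 1
    exact Subtype.ext (funext fun z => hRg z)
  rw [IntermediateField.mem_bot]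
  refine ⟨algebraMap ℂ[X] k R / algebraMap ℂ[X] k (q1 * q2), ?_⟩
  apply Subtype.ext
  have h6 : algebraMap ℂ[X] L (q1 * q2) ≠ 0 := by
    rw [Ne, map_eq_zero_iff _ hinj]
    exact mul_ne_zero hq1 hq2
  have h7 : ((algebraMap k N (algebraMap ℂ[X] k R / algebraMap ℂ[X] k (q1 * q2)) : N) : L) =
      algebraMap ℂ[X] L R / algebraMap ℂ[X] L (q1 * q2) := by
    rw [IsScalarTower.algebraMap_apply ℂ[X] k L, IsScalarTower.algebraMap_apply ℂ[X] k L]
    exact map_div₀ (algebraMap k L) _ _
  rw [h7, ← hfin]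
  field_simp

end Pool.Agent.Helper32.Oval
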