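import Mathlib

/-!
Valuation estimates for the roots of a smooth plane curve over a point of the line.
-/

open Polynomial

namespace Pool.Agent.Helper32.Oval

/-- The derivative of a bivariate polynomial with respect to the inner variable. -/
noncomputable def dX (p : Polynomial (Polynomial ℂ)) : Polynomial (Polynomial ℂ) :=
  p.sum fun n a => monomial n (derivative a)

theorem coeff_dX (p : Polynomial (Polynomial ℂ)) (n : ℕ) :
    (dX p).coeff n = derivative (p.coeff n) := by
  rw [dX, Polynomial.sum_def, finsetSum_coeff]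
  simp only [coeff_monomial]
  rw [Finset.sum_ite_eq']
  split_ifs with h
  · rfl
  · rw [notMem_support_iff.1 h, derivative_zero]

variable {N : Type*} [Field N] {Γ₀ : Type*} [LinearOrderedCommGroupWithZero Γ₀]

/-- The valuation `v` of `N` is a place over the point `b` of the line with coordinate `φ X`. -/
structure IsPlace (φ : ℂ[X] →+* N) (b : ℂ) (v : Valuation N Γ₀) : Prop where
  le : ∀ f, v (φ f) ≤ 1
  lt : v (φ (X - C b)) < 1

/-- Every element of `N` is algebraic over the line. -/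
def IsAlg (φ : ℂ[X] →+* N) : Prop :=
  ∀ x : N, ∃ Q : Polynomial (Polynomial ℂ), Q ≠ 0 ∧ Q.eval₂ φ x = 0

variable {φ : ℂ[X] →+* N} {b : ℂ} {v : Valuation N Γ₀}

theorem IsPlace.const (h : IsPlace φ b v) {c : ℂ} (hc : c ≠ 0) : v (φ (C c)) = 1 := by
  refine le_antisymm (h.le _) ?_
  have h1 : v (φ (C c)) * v (φ (C c⁻¹)) = 1 := by
    rw [← map_mul, ← map_mul, ← C_mul, mul_inv_cancel₀ hc, C_1, map_one, map_one]
  by_contra h2
  rw [not_le] at h2
  have h3 : v (φ (C c)) * v (φ (C c⁻¹)) < 1 := mul_lt_one_of_lt_of_le h2 (h.le _)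
  exact absurd h1 h3.ne

theorem IsPlace.eval_eq (h : IsPlace φ b v) {f : ℂ[X]} (hf : f.eval b = 0) : v (φ f) < 1 := by
  obtain ⟨g, rfl⟩ := dvd_iff_isRoot.2 hf
  rw [map_mul, map_mul]
  exact mul_lt_one_of_lt_of_le h.lt (h.le _)

theorem IsPlace.eval_ne (h : IsPlace φ b v) {f : ℂ[X]} (hf : f.eval b ≠ 0) : v (φ f) = 1 := by
  have h1 : v (φ (f - C (f.eval b))) < 1 := h.eval_eq (by simp)
  have h2 : v (φ (C (f.eval b))) = 1 := h.const hf
  have h3 : φ f = φ (f - C (f.eval b)) + φ (C (f.eval b)) := by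
    rw [← map_add, sub_add_cancel]
  rw [h3, Valuation.map_add_eq_of_lt_right _ (by rw [h2]; exact h1), h2]

/-- Integrality of polynomial expressions. -/
theorem IsPlace.eval₂_le (h : IsPlace φ b v) {x : N} (hx : v x ≤ 1)
    (q : Polynomial (Polynomial ℂ)) : v (q.eval₂ φ x) ≤ 1 := by
  rw [eval₂_eq_sum, Polynomial.sum_def]
  refine Valuation.map_sum_le _ fun i _ => ?_
  rw [map_mul, map_pow]
  exact mul_le_one' (h.le _) (pow_le_one' hx i)

theorem exists_decomp (q : Polynomial (Polynomial ℂ)) (b c : ℂ) :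
    ∃ q1 : Polynomial (Polynomial ℂ), ∃ q2 : ℂ[X],
      q = C (C (q.evalEval b c)) + (X - C (C c)) * q1 + C ((X - C b) * q2) := by
  have h1 : (X - C (C c)) ∣ q - C (q.eval (C c)) := by
    rw [dvd_iff_isRoot]
    simp
  have h2 : (X - C b) ∣ q.eval (C c) - C (q.evalEval b c) := by
    rw [dvd_iff_isRoot]
    simp [evalEval]
  obtain ⟨q1, hq1⟩ := h1
  obtain ⟨q2, hq2⟩ := h2
  refine ⟨q1, q2, ?_⟩
  rw [← hq2, ← hq1, map_sub]
  ring

/-- Congruence modulo the maximal ideal. -/
theorem IsPlace.eval₂_congr (h : IsPlace φ b v) {x : N} {c : ℂ} (hx : v (x - φ (C c)) < 1)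
    (q : Polynomial (Polynomial ℂ)) : v (q.eval₂ φ x - φ (C (q.evalEval b c))) < 1 := by
  have hx' : v x ≤ 1 := by
    have : x = (x - φ (C c)) + φ (C c) := by ring
    rw [this]
    exact (v.map_add _ _).trans (max_le hx.le (h.le _))
  obtain ⟨q1, q2, hq⟩ := exists_decomp q b c
  have h1 : q.eval₂ φ x - φ (C (q.evalEval b c)) =
      (x - φ (C c)) * q1.eval₂ φ x + φ (X - C b) * φ q2 := by
    conv_lhs => rw [hq]
    rw [eval₂_add, eval₂_add, eval₂_mul, eval₂_C, eval₂_C, eval₂_sub, eval₂_X, eval₂_C, map_mul]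
    rw [← hq]
    ring
  rw [h1]
  refine v.map_add_lt ?_ ?_
  · rw [map_mul]
    exact mul_lt_one_of_lt_of_le hx (h.eval₂_le hx' _)
  · rw [map_mul]
    exact mul_lt_one_of_lt_of_le h.lt (h.le _)

theorem IsPlace.eval₂_eq (h : IsPlace φ b v) {x : N} {c : ℂ} (hx : v (x - φ (C c)) < 1)
    {q : Polynomial (Polynomial ℂ)} (hq : q.evalEval b c ≠ 0) : v (q.eval₂ φ x) = 1 := by
  have h1 := h.eval₂_congr hx q
  have h2 : v (φ (C (q.evalEval b c))) = 1 := h.const hq
  have h3 : q.eval₂ φ x = (q.eval₂ φ x - φ (C (q.evalEval b c))) + φ (C (q.evalEval b c)) := by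
    ring
  rw [h3, Valuation.map_add_eq_of_lt_right _ (by rw [h2]; exact h1), h2]

theorem IsPlace.evalEval_eq_zero (h : IsPlace φ b v) {x : N} {c : ℂ} (hx : v (x - φ (C c)) < 1)
    {q : Polynomial (Polynomial ℂ)} (hq : q.eval₂ φ x = 0) : q.evalEval b c = 0 := by
  by_contra h1
  have h2 := h.eval₂_eq hx h1
  rw [hq, map_zero] at h2
  exact zero_ne_one h2

/-- The residue field of a place is `ℂ`. -/
theorem IsPlace.residue (h : IsPlace φ b v) (hφ : Function.Injective φ) (halg : IsAlg φ) {x : N}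
    (hx : v x ≤ 1) : ∃ c : ℂ, v (x - φ (C c)) < 1 := by
  obtain ⟨Q, hQ, hQx⟩ := halg x
  have hirr : Irreducible (C (X - C b) : Polynomial (Polynomial ℂ)) := by
    have h1 : Prime (X - C b) := prime_X_sub_C b
    exact (prime_C_iff.2 h1).irreducible
  obtain ⟨n, Q', hQ', rfl⟩ := WfDvdMonoid.max_power_factor hQ hirr
  have hZ : φ (X - C b) ≠ 0 := by
    rw [Ne, map_eq_zero_iff _ hφ]
    exact X_sub_C_ne_zero b
  have hQ'x : Q'.eval₂ φ x = 0 := by
    rw [eval₂_mul, eval₂_pow, eval₂_C] at hQx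
    rcases mul_eq_zero.1 hQx with h1 | h1
    · exact absurd h1 (pow_ne_zero n hZ)
    · exact h1
  -- the reduction of `Q'` at `b`
  set g : ℂ[X] := Q'.map (evalRingHom b) with hg
  have hg0 : g ≠ 0 := by
    intro h0
    apply hQ'
    rw [C_dvd_iff_dvd_coeff]
    intro i
    rw [dvd_iff_isRoot]
    have := congrArg (fun f => Polynomial.coeff f i) h0
    simpa [hg] using this
  have hdiff : (C (X - C b) : Polynomial (Polynomial ℂ)) ∣ Q' - g.map C := by
    rw [C_dvd_iff_dvd_coeff]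
    intro i
    rw [dvd_iff_isRoot]
    simp [hg]
  obtain ⟨E, hE⟩ := hdiff
  have h1 : v ((g.map C).eval₂ φ x) < 1 := by
    have h2 : (g.map C).eval₂ φ x = - (φ (X - C b) * E.eval₂ φ x) := by
      have h3 := congrArg (fun f => Polynomial.eval₂ φ x f) hE
      simp only [eval₂_sub, eval₂_mul, eval₂_C, hQ'x] at h3
      rw [← h3]
      ring
    rw [h2, Valuation.map_neg, map_mul]
    exact mul_lt_one_of_lt_of_le h.lt (h.eval₂_le hx _)
  -- split
  have hsplit := IsAlgClosed.splits g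
  have h4 := hsplit.eq_prod_roots
  have h5 : (g.map C).eval₂ φ x =
      φ (C g.leadingCoeff) * (g.roots.map fun c => x - φ (C c)).prod := by
    rw [eval₂_map]
    conv_lhs => rw [h4]
    rw [eval₂_mul, eval₂_C, RingHom.comp_apply]
    congr 1
    rw [← coe_eval₂RingHom, map_multiset_prod, Multiset.map_map]
    congr 1
    refine Multiset.map_congr rfl fun c _ => ?_
    simp
  rw [h5, map_mul, h.const (leadingCoeff_ne_zero.2 hg0), one_mul, map_multiset_prod,
    Multiset.map_map] at h1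
  by_contra hcon
  push Not at hcon
  have h6 : 1 ≤ (Multiset.map (⇑v ∘ fun c => x - φ (C c)) g.roots).prod := by
    refine Multiset.one_le_prod_of_one_le fun y hy => ?_
    obtain ⟨c, _, rfl⟩ := Multiset.mem_map.1 hy
    exact hcon c
  exact absurd h1 (not_lt.2 h6)

end Pool.Agent.Helper32.Oval
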