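import Pool.Agent.Helper32.Oval.Places

/-!
Valuation estimates for the roots of a smooth plane curve over a point of the line, second part:
the derivative at a root, products of roots.
-/

open Polynomial

namespace Pool.Agent.Helper32.Oval

variable {N : Type*} [Field N] {Γ₀ : Type*} [LinearOrderedCommGroupWithZero Γ₀]
variable {φ : ℂ[X] →+* N} {b : ℂ} {v : Valuation N Γ₀}

theorem exists_reduction (r : Polynomial (Polynomial ℂ)) (b : ℂ) :
    ∃ δ : Polynomial (Polynomial ℂ), r = (r.map (evalRingHom b)).map C + C (X - C b) * δ ∧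
      ∀ c, δ.evalEval b c = (dX r).evalEval b c := by
  have hdiff : (C (X - C b) : Polynomial (Polynomial ℂ)) ∣ r - (r.map (evalRingHom b)).map C := by
    rw [C_dvd_iff_dvd_coeff]
    intro i
    rw [dvd_iff_isRoot]
    simp
  obtain ⟨δ, hδ⟩ := hdiff
  refine ⟨δ, by rw [← hδ]; ring, fun c => ?_⟩
  have h1 : dX r = δ + C (X - C b) * dX δ := by
    ext1 n
    rw [coeff_dX, coeff_add, coeff_C_mul, coeff_dX]
    have h2 : r.coeff n = C ((r.coeff n).eval b) + (X - C b) * δ.coeff n := by
      have := congrArg (fun f => Polynomial.coeff f n) hδ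
      simp only [coeff_sub, coeff_map, coeff_C_mul, coe_evalRingHom] at this
      rw [← this]
      ring
    rw [h2]
    simp
  rw [h1, evalEval_add, evalEval_mul, evalEval_C]
  simp

theorem IsPlace.core (h : IsPlace φ b v) (hφ : Function.Injective φ)
    {r : Polynomial (Polynomial ℂ)} {s : N} {c : ℂ} (hs : v (s - φ (C c)) < 1)
    (hr : r.eval₂ φ s = 0)
    (hsm : r.derivative.evalEval b c ≠ 0 ∨ (dX r).evalEval b c ≠ 0) :
    v (φ (X - C b)) < v (r.derivative.eval₂ φ s) := by
  by_cases hw : r.derivative.evalEval b c = 0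
  swap
  · rw [h.eval₂_eq hs hw]
    exact h.lt
  replace hsm := hsm.resolve_left (not_not.2 hw)
  obtain ⟨δ, hδ, hδ'⟩ := exists_reduction r b
  set g : ℂ[X] := r.map (evalRingHom b) with hg
  have hZ : φ (X - C b) ≠ 0 := by
    rw [Ne, map_eq_zero_iff _ hφ]
    exact X_sub_C_ne_zero b
  have hvZ : v (φ (X - C b)) ≠ 0 := (Valuation.ne_zero_iff _).2 hZ
  have h1 : v (δ.eval₂ φ s) = 1 := h.eval₂_eq hs (by rw [hδ']; exact hsm)
  have h2 : v ((g.map C).eval₂ φ s) = v (φ (X - C b)) := by
    have h3 : (g.map C).eval₂ φ s = -(φ (X - C b) * δ.eval₂ φ s) := by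
      have h4 := congrArg (fun f => Polynomial.eval₂ φ s f) hδ
      simp only [eval₂_add, eval₂_mul, eval₂_C, hr] at h4
      linear_combination -h4
    rw [h3, Valuation.map_neg, map_mul, h1, mul_one]
  have hg0 : g ≠ 0 := by
    intro h0
    rw [h0] at h2
    simp only [Polynomial.map_zero, eval₂_zero, map_zero] at h2
    exact hvZ h2.symm
  obtain ⟨g1, hg1, hg1'⟩ := exists_eq_pow_rootMultiplicity_mul_and_not_dvd g hg0 c
  have hg1c : g1.eval c ≠ 0 := fun h0 => hg1' (dvd_iff_isRoot.2 h0)
  obtain ⟨e, he⟩ : ∃ e, e = rootMultiplicity c g := ⟨_, rfl⟩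
  rw [← he] at hg1
  have hpoly : ∀ f : ℂ[X], f.eval c ≠ 0 → v ((f.map C).eval₂ φ s) = 1 := fun f hf =>
    h.eval₂_eq hs (by rw [evalEval_map_C]; exact hf)
  have hev : ∀ f1 f2 : ℂ[X], ((f1 * f2).map C).eval₂ φ s =
      (f1.map C).eval₂ φ s * (f2.map C).eval₂ φ s := fun f1 f2 => by
    rw [Polynomial.map_mul, eval₂_mul]
  have hlin : ∀ n : ℕ, (((X - C c) ^ n).map C).eval₂ φ s = (s - φ (C c)) ^ n := fun n => by
    rw [Polynomial.map_pow, eval₂_pow, Polynomial.map_sub, eval₂_sub, map_X, map_C, eval₂_X,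
      eval₂_C]
  have h3 : v (φ (X - C b)) = v (s - φ (C c)) ^ e := by
    rw [← h2, hg1, hev, hlin, map_mul, map_pow, hpoly g1 hg1c, mul_one]
  obtain ⟨n, rfl⟩ : ∃ n, e = n + 1 := by
    rcases e with _ | n
    · rw [pow_zero] at h3
      exact absurd h3 h.lt.ne
    · exact ⟨n, rfl⟩
  have hvs : v (s - φ (C c)) ≠ 0 := by
    intro h0
    rw [h0, zero_pow (Nat.succ_ne_zero n)] at h3
    exact hvZ h3
  -- the derivative
  have h4 : g.derivative = (X - C c) ^ n * (C ((n : ℂ) + 1) * g1 + (X - C c) * g1.derivative) := by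
    rw [hg1, derivative_mul, derivative_X_sub_C_pow]
    push_cast
    simp only [map_add, map_natCast, map_one]
    ring
  have h5 : v ((g.derivative.map C).eval₂ φ s) = v (s - φ (C c)) ^ n := by
    rw [h4, hev, hlin, map_mul, map_pow, hpoly, mul_one]
    simp only [eval_add, eval_mul, eval_C, eval_sub, eval_X, sub_self, zero_mul, add_zero]
    exact mul_ne_zero (by exact_mod_cast Nat.succ_ne_zero n) hg1c
  have h6 : r.derivative.eval₂ φ s =
      (g.derivative.map C).eval₂ φ s + φ (X - C b) * δ.derivative.eval₂ φ s := by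
    conv_lhs => rw [hδ]
    rw [derivative_add, derivative_C_mul, derivative_map, eval₂_add, eval₂_mul, eval₂_C]
  have hs' : v s ≤ 1 := by
    have : s = (s - φ (C c)) + φ (C c) := by ring
    rw [this]
    exact (v.map_add _ _).trans (max_le hs.le (h.le _))
  have h7 : v (s - φ (C c)) ^ (n + 1) < v (s - φ (C c)) ^ n := by
    rw [pow_succ]
    exact mul_lt_of_lt_one_right (zero_lt_iff.2 (pow_ne_zero n hvs)) hs
  have h8 : v (φ (X - C b) * δ.derivative.eval₂ φ s) < v ((g.derivative.map C).eval₂ φ s) := by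
    rw [h5, map_mul, h3]
    exact (mul_le_of_le_one_right' (h.eval₂_le hs' _)).trans_lt h7
  rw [h6, Valuation.map_add_eq_of_lt_left _ h8, h5, h3]
  exact h7

/-- A bivariate polynomial of total degree at most `d`, smooth at all points of the affine plane
and at the common point at infinity of the vertical lines. -/
structure SmoothChart (d : ℕ) (p : Polynomial (Polynomial ℂ)) : Prop where
  deg : ∀ m, p.coeff m ≠ 0 → (p.coeff m).natDegree + m ≤ d
  aff : ∀ b c, p.evalEval b c = 0 →
    p.derivative.evalEval b c ≠ 0 ∨ (dX p).evalEval b c ≠ 0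
  vert : ∀ b, p.leadingCoeff.eval b = 0 →
    p.natDegree + 1 = d ∧ p.leadingCoeff.derivative.eval b ≠ 0
  ne_zero : p ≠ 0

theorem reflect_derivative {f : N[X]} {D : ℕ} (hD : 1 ≤ D) (hf : f.natDegree ≤ D) {w : N}
    (hw : w ≠ 0) :
    (D : N) * f.eval w - w * f.derivative.eval w =
      w ^ (D - 1) * (reflect D f).derivative.eval w⁻¹ := by
  have h1 : f = ∑ n ∈ Finset.range (D + 1), monomial n (f.coeff n) :=
    as_sum_range' f (D + 1) (Nat.lt_succ_of_le hf)
  have h2 : reflect D f = ∑ n ∈ Finset.range (D + 1), monomial (D - n) (f.coeff n) := by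
    conv_lhs => rw [h1]
    ext i
    rw [coeff_reflect, finsetSum_coeff, finsetSum_coeff]
    simp only [coeff_monomial]
    by_cases hi : i ≤ D
    · rw [revAt_le hi, Finset.sum_ite_eq', Finset.sum_eq_single (D - i)]
      · simp [Nat.sub_sub_self hi]
      · intro n hn hne
        rw [Finset.mem_range, Nat.lt_succ_iff] at hn
        rw [if_neg]
        omega
      · intro h
        exact absurd (Finset.mem_range.2 (by omega)) h
    · rw [Finset.sum_eq_zero, Finset.sum_eq_zero]
      · intro n hn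
        rw [Finset.mem_range, Nat.lt_succ_iff] at hn
        rw [if_neg]
        omega
      · intro n hn
        rw [Finset.mem_range, Nat.lt_succ_iff] at hn
        rw [if_neg]
        rw [revAt_eq_self_of_lt (by omega)]
        omega
  rw [h2]
  conv_lhs => rw [h1]
  simp only [derivative_sum, eval_finsetSum, derivative_monomial, eval_monomial, Finset.mul_sum]
  rw [← Finset.sum_sub_distrib]
  refine Finset.sum_congr rfl fun n hn => ?_
  rw [Finset.mem_range, Nat.lt_succ_iff] at hn
  rcases Nat.lt_or_ge n D with h | h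
  · obtain ⟨k, rfl⟩ := Nat.exists_eq_add_of_lt h
    have e1 : n + k + 1 - n = k + 1 := by omega
    have e2 : n + k + 1 - 1 = n + k := by omega
    rw [e1, e2, Nat.add_sub_cancel, inv_pow, pow_add]
    have hwk : w ^ k ≠ 0 := pow_ne_zero _ hw
    rcases n with _ | n
    · field_simp
      push_cast
      ring
    · rw [Nat.add_sub_cancel]
      field_simp
      push_cast
      ring
  · have : n = D := le_antisymm hn h
    subst this
    obtain ⟨m, rfl⟩ := Nat.exists_eq_add_of_le' hD
    simp
    ring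

theorem SmoothChart.root_le {d : ℕ} {p : Polynomial (Polynomial ℂ)} (hp : SmoothChart d p)
    (h : IsPlace φ b v) (hφ : Function.Injective φ) (halg : IsAlg φ) {w : N} (hw : v w ≤ 1)
    (hr : p.eval₂ φ w = 0) : v (φ (X - C b)) < v (p.derivative.eval₂ φ w) := by
  obtain ⟨c, hc⟩ := h.residue hφ halg hw
  exact h.core hφ hc hr (hp.aff b c (h.evalEval_eq_zero hc hr))

theorem SmoothChart.root_gt {d : ℕ} {p : Polynomial (Polynomial ℂ)} (hp : SmoothChart d p)
    (hd : 3 ≤ d) (h : IsPlace φ b v) (hφ : Function.Injective φ) {w : N} (hw : 1 < v w)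
    (hr : p.eval₂ φ w = 0) :
    p.natDegree + 1 = d ∧
      v (φ (X - C b)) * v w ^ (d - 3) < v (p.derivative.eval₂ φ w) := by
  set D := p.natDegree with hD
  have hw0 : w ≠ 0 := by
    rintro rfl
    rw [map_zero] at hw
    exact absurd hw (not_lt.2 zero_le_one)
  have hvw0 : v w ≠ 0 := (Valuation.ne_zero_iff _).2 hw0
  set r := reflect D p with hrdef
  have hs : v (w⁻¹ - φ (C 0)) < 1 := by
    rw [C_0, map_zero, sub_zero, map_inv₀]
    exact inv_lt_one_of_one_lt₀ hw
  have hr' : r.eval₂ φ w⁻¹ = 0 := by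
    let _ := invertibleOfNonzero hw0
    have h1 := eval₂_reflect_mul_pow φ w D p le_rfl
    rw [invOf_eq_inv, hr] at h1
    exact (mul_eq_zero.1 h1).resolve_right (pow_ne_zero _ hw0)
  have hr0 : r.coeff 0 = p.leadingCoeff := by
    rw [hrdef, coeff_reflect, revAt_zero, leadingCoeff]
  have hev : ∀ q : Polynomial (Polynomial ℂ), q.evalEval b 0 = (q.coeff 0).eval b := fun q => by
    rw [evalEval, C_0, ← coeff_zero_eq_eval_zero]
  have h0 := h.evalEval_eq_zero hs hr'
  rw [hev, hr0] at h0
  obtain ⟨h1, h2⟩ := hp.vert b h0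
  refine ⟨h1, ?_⟩
  have h3 := h.core hφ hs hr' (Or.inr (by rw [hev, coeff_dX, hr0]; exact h2))
  -- the derivative
  have hD1 : 1 ≤ D := by omega
  have h4 := reflect_derivative (f := p.map φ) hD1 (natDegree_map_le) hw0
  rw [eval_map, hr, mul_zero, zero_sub, reflect_map, derivative_map, derivative_map, eval_map,
    eval_map] at h4
  have h5 : p.derivative.eval₂ φ w = -(w ^ (D - 2) * r.derivative.eval₂ φ w⁻¹) := by
    have h6 : w * p.derivative.eval₂ φ w = w * (-(w ^ (D - 2) * r.derivative.eval₂ φ w⁻¹)) := by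
      have h7 : D - 1 = D - 2 + 1 := by omega
      rw [h7, pow_succ] at h4
      linear_combination -h4
    exact mul_left_cancel₀ hw0 h6
  rw [h5, Valuation.map_neg, map_mul, map_pow, mul_comm, show d - 3 = D - 2 by omega]
  exact mul_lt_mul_of_pos_left h3 (pow_pos (zero_lt_iff.2 hvw0) _)

end Pool.Agent.Helper32.Oval
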