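import Pool.Agent.Helper32.Oval.PlacesB

/-!
Valuation estimates: Gauss' lemma, the estimates over finite points and over infinity, existence
of places, and the vanishing lemma for rational functions.
-/

open Polynomial

namespace Pool.Agent.Helper32.Oval

variable {N : Type*} [Field N] {Γ₀ : Type*} [LinearOrderedCommGroupWithZero Γ₀]
variable {φ : ℂ[X] →+* N} {b : ℂ} {v : Valuation N Γ₀}

theorem IsPlace.exists_generic (h : IsPlace φ b v) (s : Finset N) :
    ∃ c : ℂ, ∀ x ∈ s, v (φ (C c) - x) = max 1 (v x) := by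
  have hfin : ∀ x : N, {c : ℂ | v (φ (C c) - x) ≠ max 1 (v x)}.Finite := by
    intro x
    refine Set.Subsingleton.finite ?_
    intro c hc c' hc'
    simp only [Set.mem_ofPred_eq] at hc hc'
    rcases le_or_gt (v x) 1 with hx | hx
    · rw [max_eq_left hx] at hc hc'
      have h1 : ∀ c : ℂ, v (φ (C c) - x) ≤ 1 := fun c =>
        (v.map_sub _ _).trans (max_le (h.le _) hx)
      have h2 := lt_of_le_of_ne (h1 c) hc
      have h3 := lt_of_le_of_ne (h1 c') hc'
      by_contra hne
      have h4 : v (φ (C (c - c'))) < 1 := by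
        have : φ (C (c - c')) = (φ (C c) - x) - (φ (C c') - x) := by
          rw [C_sub, map_sub]; ring
        rw [this]
        exact (v.map_sub _ _).trans_lt (max_lt h2 h3)
      rw [h.const (sub_ne_zero.2 hne)] at h4
      exact lt_irrefl _ h4
    · exfalso
      apply hc
      rw [max_eq_right hx.le]
      exact Valuation.map_sub_eq_of_lt_right _ (lt_of_le_of_lt (h.le _) hx)
  have hfin2 : (⋃ x ∈ s, {c : ℂ | v (φ (C c) - x) ≠ max 1 (v x)}).Finite :=
    Set.Finite.biUnion s.finite_toSet fun x _ => hfin x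
  obtain ⟨c, hc⟩ := hfin2.exists_notMem
  refine ⟨c, fun x hx => ?_⟩
  by_contra h0
  exact hc (Set.mem_biUnion (Finset.mem_coe.2 hx) h0)

/-- The roots of `p` are the elements of `s`. -/
def HasRoots (φ : ℂ[X] →+* N) (p : Polynomial (Polynomial ℂ)) (s : Finset N) : Prop :=
  p.map φ = C (φ p.leadingCoeff) * ∏ x ∈ s, (X - C x)

theorem HasRoots.eval₂_eq {p : Polynomial (Polynomial ℂ)} {s : Finset N} (hs : HasRoots φ p s)
    (y : N) : p.eval₂ φ y = φ p.leadingCoeff * ∏ x ∈ s, (y - x) := by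
  rw [← eval_map, hs, eval_mul, eval_C, eval_prod]
  simp

/-- Gauss' lemma. -/
theorem HasRoots.gauss {p : Polynomial (Polynomial ℂ)} {s : Finset N} (hs : HasRoots φ p s)
    (h : IsPlace φ b v) : v (φ p.leadingCoeff) * ∏ x ∈ s, max 1 (v x) ≤ 1 := by
  obtain ⟨c, hc⟩ := h.exists_generic s
  have h1 := h.eval₂_le (x := φ (C c)) (h.le _) p
  rw [hs.eval₂_eq, map_mul, map_prod, Finset.prod_congr rfl hc] at h1
  exact h1

theorem coeff_prod_le (v : Valuation N Γ₀) (O : Finset N) (j : ℕ) :
    v ((∏ x ∈ O, (X - C x)).coeff j) ≤ ∏ x ∈ O, max 1 (v x) := by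
  classical
  induction O using Finset.induction_on generalizing j with
  | empty =>
    rw [Finset.prod_empty, Finset.prod_empty, coeff_one]
    split_ifs
    · rw [map_one]
    · rw [map_zero]; exact zero_le_one
  | insert a O ha ih =>
    rw [Finset.prod_insert ha, Finset.prod_insert ha, sub_mul, coeff_sub, coeff_C_mul]
    refine (v.map_sub _ _).trans (max_le ?_ ?_)
    · rcases j with _ | j
      · rw [coeff_X_mul_zero, map_zero]
        exact zero_le
      · rw [coeff_X_mul]
        exact (ih j).trans (le_mul_of_one_le_left' (le_max_left _ _))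
    · rw [map_mul]
      exact mul_le_mul' (le_max_right _ _) (ih j)

theorem HasRoots.coeff_bound {p : Polynomial (Polynomial ℂ)} {s : Finset N}
    (hs : HasRoots φ p s) (h : IsPlace φ b v) {O : Finset N} (hO : O ⊆ s) {y : N} (hy : y ∈ s)
    (hyO : y ∉ O) (j : ℕ) :
    v (φ p.leadingCoeff) * v ((∏ x ∈ O, (X - C x)).coeff j) * max 1 (v y) ≤ 1 := by
  classical
  refine le_trans ?_ (hs.gauss h)
  rw [mul_assoc]
  refine mul_le_mul_right ?_ _
  calc v ((∏ x ∈ O, (X - C x)).coeff j) * max 1 (v y)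
      ≤ (∏ x ∈ O, max 1 (v x)) * max 1 (v y) := mul_le_mul_left (coeff_prod_le v O j) _
    _ = ∏ x ∈ insert y O, max 1 (v x) := by rw [Finset.prod_insert hyO, mul_comm]
    _ ≤ ∏ x ∈ s, max 1 (v x) := by
        refine Finset.prod_le_prod_of_subset_of_one_le' ?_ fun _ _ _ => le_max_left _ _
        exact Finset.insert_subset hy hO

theorem SmoothChart.est {d : ℕ} {p : Polynomial (Polynomial ℂ)} (hp : SmoothChart d p)
    (hd : 3 ≤ d) (h : IsPlace φ b v) (hφ : Function.Injective φ) (halg : IsAlg φ) {y c : N}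
    (hr : p.eval₂ φ y = 0) (hc : v (φ p.leadingCoeff) * v c * max 1 (v y) ≤ 1) {m : ℕ}
    (hm : m + 2 ≤ d) :
    v (φ (X - C b)) * (v (φ p.leadingCoeff) * v c * v y ^ m) < v (p.derivative.eval₂ φ y) := by
  rcases le_or_gt (v y) 1 with hy | hy
  · rw [max_eq_left hy, mul_one] at hc
    refine lt_of_le_of_lt ?_ (hp.root_le h hφ halg hy hr)
    exact mul_le_of_le_one_right' (mul_le_one' hc (pow_le_one' hy m))
  · rw [max_eq_right hy.le] at hc
    obtain ⟨-, h2⟩ := hp.root_gt hd h hφ hy hr
    refine lt_of_le_of_lt ?_ h2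
    refine mul_le_mul_right ?_ _
    rcases m with _ | m
    · rw [pow_zero, mul_one]
      refine le_trans ?_ (one_le_pow₀ hy.le)
      refine le_trans ?_ hc
      exact le_mul_of_one_le_right' hy.le
    · calc v (φ p.leadingCoeff) * v c * v y ^ (m + 1)
          = (v (φ p.leadingCoeff) * v c * v y) * v y ^ m := by rw [pow_succ]; ac_rfl
        _ ≤ 1 * v y ^ m := mul_le_mul_left hc _
        _ ≤ v y ^ (d - 3) := by
            rw [one_mul]
            exact pow_le_pow_right₀ hy.le (by omega)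

theorem SmoothChart.est0 {d : ℕ} {p : Polynomial (Polynomial ℂ)} (hp : SmoothChart d p)
    (hd : 3 ≤ d) (h : IsPlace φ b v) (hφ : Function.Injective φ) (halg : IsAlg φ) {y : N}
    (hr : p.eval₂ φ y = 0) {m : ℕ} (hm : m + 2 ≤ p.natDegree) :
    v (φ (X - C b)) * v y ^ m < v (p.derivative.eval₂ φ y) := by
  rcases le_or_gt (v y) 1 with hy | hy
  · refine lt_of_le_of_lt ?_ (hp.root_le h hφ halg hy hr)
    exact mul_le_of_le_one_right' (pow_le_one' hy m)
  · obtain ⟨h1, h2⟩ := hp.root_gt hd h hφ hy hr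
    refine lt_of_le_of_lt ?_ h2
    exact mul_le_mul_right (pow_le_pow_right₀ hy.le (by omega)) _

end Pool.Agent.Helper32.Oval
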