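import Pool.Agent.Helper32.Oval.PlacesC

/-!
The chart at infinity, existence of places, and the vanishing lemma for rational functions.
-/

open Polynomial

namespace Pool.Agent.Helper32.Oval

variable {N : Type*} [Field N]
variable {φ : ℂ[X] →+* N}

/-- The chart at infinity: `q(ζ, u) = ζ ^ d * p(1 / ζ, u / ζ)`. -/
noncomputable def flip (d : ℕ) (p : Polynomial (Polynomial ℂ)) : Polynomial (Polynomial ℂ) :=
  ∑ m ∈ Finset.range (d + 1), monomial m (reflect (d - m) (p.coeff m))

/-- The coordinate `1 / z`. -/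
noncomputable def phiInf (φ : ℂ[X] →+* N) : ℂ[X] →+* N :=
  eval₂RingHom (φ.comp C) (φ X)⁻¹

theorem phiInf_C (c : ℂ) : phiInf φ (C c) = φ (C c) := by
  simp [phiInf]

theorem phiInf_X : phiInf φ X = (φ X)⁻¹ := by
  simp [phiInf]

theorem eval₂_comp_C (φ : ℂ[X] →+* N) (f : ℂ[X]) : f.eval₂ (φ.comp C) (φ X) = φ f := by
  have : eval₂RingHom (φ.comp C) (φ X) = φ := by
    ext <;> simp
  rw [← coe_eval₂RingHom, this]

theorem phiInf_reflect (hX : φ X ≠ 0) {n : ℕ} {f : ℂ[X]} (hf : f.natDegree ≤ n) :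
    phiInf φ (reflect n f) = (φ X)⁻¹ ^ n * φ f := by
  let _ := invertibleOfNonzero hX
  have h1 := eval₂_reflect_mul_pow (φ.comp C) (φ X) n f hf
  rw [eval₂_comp_C, invOf_eq_inv] at h1
  rw [phiInf, coe_eval₂RingHom, ← h1, inv_pow]
  field_simp

theorem X_ne (hφ : Function.Injective φ) : φ X ≠ 0 := by
  rw [Ne, map_eq_zero_iff _ hφ]
  exact X_ne_zero

theorem phiInf_injective (hφ : Function.Injective φ) : Function.Injective (phiInf φ) := by
  rw [injective_iff_map_eq_zero]
  intro g hg
  have h1 := phiInf_reflect (X_ne hφ) (n := g.natDegree) (f := reflect g.natDegree g)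
    ((natDegree_reflect_le).trans (by simp))
  rw [reflect_reflect, hg] at h1
  have h2 : φ (reflect g.natDegree g) = 0 := by
    rcases mul_eq_zero.1 h1.symm with h3 | h3
    · exact absurd h3 (pow_ne_zero _ (inv_ne_zero (X_ne hφ)))
    · exact h3
  rw [map_eq_zero_iff _ hφ, reflect_eq_zero_iff] at h2
  exact h2

theorem isAlg_phiInf (hφ : Function.Injective φ) (halg : IsAlg φ) : IsAlg (phiInf φ) := by
  intro x
  obtain ⟨Q, hQ, hQx⟩ := halg x
  obtain ⟨M, hM⟩ : ∃ M, ∀ m, (Q.coeff m).natDegree ≤ M := by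
    refine ⟨Q.support.sup fun m => (Q.coeff m).natDegree, fun m => ?_⟩
    by_cases hm : m ∈ Q.support
    · exact Finset.le_sup (f := fun m => (Q.coeff m).natDegree) hm
    · rw [notMem_support_iff.1 hm]
      simp
  refine ⟨Q.sum fun m a => monomial m (reflect M a), ?_, ?_⟩
  · intro h0
    apply hQ
    ext1 m
    have h1 := congrArg (fun f => Polynomial.coeff f m) h0
    simp only [Polynomial.sum_def, finsetSum_coeff, coeff_monomial, Finset.sum_ite_eq',
      coeff_zero] at h1
    split_ifs at h1 with h2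
    · rw [reflect_eq_zero_iff] at h1
      rw [h1, coeff_zero]
    · rw [notMem_support_iff.1 h2, coeff_zero]
  · rw [Polynomial.sum_def, eval₂_finsetSum]
    have h1 : ∀ m ∈ Q.support, (monomial m (reflect M (Q.coeff m))).eval₂ (phiInf φ) x =
        (φ X)⁻¹ ^ M * (φ (Q.coeff m) * x ^ m) := fun m _ => by
      rw [eval₂_monomial, phiInf_reflect (X_ne hφ) (hM m), mul_assoc]
    rw [Finset.sum_congr rfl h1, ← Finset.mul_sum]
    rw [eval₂_eq_sum, Polynomial.sum_def] at hQx
    rw [hQx, mul_zero]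

section flip

variable {d : ℕ} {p : Polynomial (Polynomial ℂ)}

theorem coeff_flip (hdeg : ∀ m, p.coeff m ≠ 0 → (p.coeff m).natDegree + m ≤ d) (m : ℕ) :
    (flip d p).coeff m = reflect (d - m) (p.coeff m) := by
  rw [flip, finsetSum_coeff]
  simp only [coeff_monomial, Finset.sum_ite_eq']
  split_ifs with h
  · rfl
  · have : p.coeff m = 0 := by
      by_contra h0
      exact h (Finset.mem_range.2 (by have := hdeg m h0; omega))
    rw [this, reflect_zero]

theorem natDegree_flip (hdeg : ∀ m, p.coeff m ≠ 0 → (p.coeff m).natDegree + m ≤ d) :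
    (flip d p).natDegree = p.natDegree := by
  have h1 : (flip d p).support = p.support := by
    ext m
    rw [mem_support_iff, mem_support_iff, coeff_flip hdeg, Ne, reflect_eq_zero_iff]
  refine natDegree_eq_of_degree_eq ?_
  rw [degree, degree, h1]

theorem map_flip (hφ : Function.Injective φ)
    (hdeg : ∀ m, p.coeff m ≠ 0 → (p.coeff m).natDegree + m ≤ d) :
    (flip d p).map (phiInf φ) = C ((φ X)⁻¹ ^ d) * ((p.map φ).comp (C (φ X) * X)) := by
  have hX := X_ne hφ
  ext m
  rw [coeff_map, coeff_flip hdeg, coeff_C_mul, comp_C_mul_X_coeff, coeff_map]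
  by_cases hm : p.coeff m = 0
  · rw [hm]
    simp
  · have h1 := hdeg m hm
    rw [phiInf_reflect hX (by omega : (p.coeff m).natDegree ≤ d - m)]
    obtain ⟨k, rfl⟩ : ∃ k, d = k + m := ⟨d - m, by omega⟩
    rw [Nat.add_sub_cancel, pow_add]
    have h2 : (φ X)⁻¹ ^ m * (φ X) ^ m = 1 := by
      rw [← mul_pow, inv_mul_cancel₀ hX, one_pow]
    linear_combination (-(φ X)⁻¹ ^ k * φ (p.coeff m)) * h2

theorem eval₂_flip (hφ : Function.Injective φ)
    (hdeg : ∀ m, p.coeff m ≠ 0 → (p.coeff m).natDegree + m ≤ d) (y : N) :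
    (flip d p).eval₂ (phiInf φ) ((φ X)⁻¹ * y) = (φ X)⁻¹ ^ d * p.eval₂ φ y := by
  rw [← eval_map, map_flip hφ hdeg, eval_mul, eval_C, eval_comp, eval_mul, eval_C, eval_X,
    ← mul_assoc (φ X), mul_inv_cancel₀ (X_ne hφ), one_mul, eval_map]

theorem derivative_eval₂_flip (hφ : Function.Injective φ) (hd : 1 ≤ d)
    (hdeg : ∀ m, p.coeff m ≠ 0 → (p.coeff m).natDegree + m ≤ d) (y : N) :
    (flip d p).derivative.eval₂ (phiInf φ) ((φ X)⁻¹ * y) =
      (φ X)⁻¹ ^ (d - 1) * p.derivative.eval₂ φ y := by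
  have hX := X_ne hφ
  rw [← eval_map, ← derivative_map, map_flip hφ hdeg, derivative_C_mul, derivative_comp,
    eval_mul, eval_C, eval_mul, eval_comp, eval_mul, eval_C, eval_X,
    ← mul_assoc (φ X), mul_inv_cancel₀ hX, one_mul, derivative_map, eval_map]
  obtain ⟨k, rfl⟩ : ∃ k, d = k + 1 := ⟨d - 1, by omega⟩
  rw [Nat.add_sub_cancel, pow_succ]
  simp only [derivative_C_mul, derivative_X, mul_one, eval_C]
  field_simp

theorem phiInf_leadingCoeff_flip (hφ : Function.Injective φ)
    (hdeg : ∀ m, p.coeff m ≠ 0 → (p.coeff m).natDegree + m ≤ d) :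
    phiInf φ (flip d p).leadingCoeff =
      (φ X)⁻¹ ^ (d - p.natDegree) * φ p.leadingCoeff := by
  rw [leadingCoeff, natDegree_flip hdeg, coeff_flip hdeg]
  by_cases hp : p = 0
  · subst hp; simp
  · have h1 := hdeg p.natDegree (leadingCoeff_ne_zero.2 hp)
    rw [phiInf_reflect (X_ne hφ) (by omega)]
    rfl

theorem HasRoots.natDegree {s : Finset N} (hφ : Function.Injective φ) (hs : HasRoots φ p s)
    (hp : p ≠ 0) : p.natDegree = s.card := by
  have h1 : (p.map φ).natDegree = p.natDegree := natDegree_map_eq_of_injective hφ p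
  rw [← h1, hs, natDegree_C_mul, natDegree_prod _ _ fun x _ => X_sub_C_ne_zero x]
  · simp
  · rw [Ne, map_eq_zero_iff _ hφ]
    exact leadingCoeff_ne_zero.2 hp

theorem HasRoots.flip [DecidableEq N] {s : Finset N} (hφ : Function.Injective φ)
    (hdeg : ∀ m, p.coeff m ≠ 0 → (p.coeff m).natDegree + m ≤ d) (hp : p ≠ 0)
    (hs : HasRoots φ p s) :
    HasRoots (phiInf φ) (Oval.flip d p) (s.image fun x => (φ X)⁻¹ * x) := by
  have hX := X_ne hφ
  have hD := hs.natDegree hφ hp
  have h1 := hdeg p.natDegree (leadingCoeff_ne_zero.2 hp)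
  rw [HasRoots, map_flip hφ hdeg, hs, phiInf_leadingCoeff_flip hφ hdeg, mul_comp, C_comp,
    prod_comp, Finset.prod_image]
  · have h2 : ∀ x ∈ s, (X - C x).comp (C (φ X) * X) = C (φ X) * (X - C ((φ X)⁻¹ * x)) := by
      intro x _
      rw [sub_comp, X_comp, C_comp, mul_sub, ← C_mul, ← mul_assoc, mul_inv_cancel₀ hX, one_mul]
    rw [Finset.prod_congr rfl h2, Finset.prod_mul_distrib, Finset.prod_const, ← hD,
      ← mul_assoc, ← mul_assoc]
    congr 1
    rw [← C_mul, ← C_pow, ← C_mul]
    congr 1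
    obtain ⟨k, hk⟩ : ∃ k, d = k + p.natDegree := ⟨d - p.natDegree, by omega⟩
    rw [hk, Nat.add_sub_cancel, pow_add]
    have h3 : (φ X)⁻¹ ^ p.natDegree * (φ X) ^ p.natDegree = 1 := by
      rw [← mul_pow, inv_mul_cancel₀ hX, one_pow]
    linear_combination ((φ X)⁻¹ ^ k * φ p.leadingCoeff) * h3
  · intro x _ y _ hxy
    exact mul_left_cancel₀ (inv_ne_zero hX) hxy

end flip

/-- Existence of places over finite points. -/
theorem exists_place (hφ : Function.Injective φ) (b : ℂ) :
    ∃ A : ValuationSubring N, IsPlace φ b A.valuation := by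
  set R : Subring N := φ.range with hR
  let x : R := ⟨φ (X - C b), ⟨_, rfl⟩⟩
  have hI : Ideal.span {x} ≠ ⊤ := by
    intro h0
    rw [Ideal.span_singleton_eq_top] at h0
    obtain ⟨⟨y, ⟨f, rfl⟩⟩, hy⟩ := isUnit_iff_exists_inv.1 h0
    have h1 : φ ((X - C b) * f) = φ 1 := by
      rw [map_mul, map_one]
      exact congrArg Subtype.val hy
    have h2 := hφ h1
    have h3 := congrArg (Polynomial.eval b) h2
    simp at h3
  obtain ⟨B, hB1, hB2⟩ := Ideal.image_subset_nonunits_valuationSubring (Ideal.span {x}) hI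
  refine ⟨B, ⟨fun f => ?_, ?_⟩⟩
  · rw [ValuationSubring.valuation_le_one_iff]
    exact hB1 ⟨f, rfl⟩
  · rw [← ValuationSubring.mem_nonunits_iff]
    exact hB2 ⟨x, Ideal.subset_span rfl, rfl⟩

/-- A rational function without poles that vanishes at infinity is zero. -/
theorem vanish (hφ : Function.Injective φ) {x : N}
    (h1 : ∀ b (A : ValuationSubring N), IsPlace φ b A.valuation →
      A.valuation (φ (X - C b) * x) < 1)
    (h2 : ∀ A : ValuationSubring N, IsPlace (phiInf φ) 0 A.valuation → A.valuation x < 1)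
    {a c : ℂ[X]} (hc : c ≠ 0) (hx : φ c * x = φ a) : x = 0 := by
  obtain ⟨n, hn⟩ : ∃ n, c.natDegree = n := ⟨_, rfl⟩
  induction n generalizing a c with
  | zero =>
    by_contra hx0
    rw [natDegree_eq_zero] at hn
    obtain ⟨c0, rfl⟩ := hn
    have hc0 : c0 ≠ 0 := by rintro rfl; simp at hc
    obtain ⟨A, hA⟩ := exists_place (phiInf_injective hφ) 0
    have ha : a ≠ 0 := by
      rintro rfl
      rw [map_zero] at hx
      rcases mul_eq_zero.1 hx with h | h
      · rw [map_eq_zero_iff _ hφ] at h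
        exact hc h
      · exact hx0 h
    have h3 := h2 A hA
    have h4 : A.valuation (φ (C c0)) = 1 := by
      rw [← phiInf_C]
      exact hA.const hc0
    have h5 : A.valuation x = A.valuation (φ a) := by
      rw [← hx, map_mul, h4, one_mul]
    have h6 := phiInf_reflect (X_ne hφ) (n := a.natDegree) (f := a) le_rfl
    have h7 : A.valuation (phiInf φ (reflect a.natDegree a)) = 1 := by
      refine hA.eval_ne ?_
      rw [← coeff_zero_eq_eval_zero, coeff_reflect, revAt_zero]
      exact leadingCoeff_ne_zero.2 ha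
    have h8 : A.valuation (φ X)⁻¹ ≤ 1 := by
      rw [← phiInf_X]
      exact hA.le _
    rw [h6, map_mul, map_pow] at h7
    rw [h5] at h3
    have h9 : A.valuation (φ X)⁻¹ ^ a.natDegree * A.valuation (φ a) < 1 :=
      (mul_le_of_le_one_left' (pow_le_one' h8 _)).trans_lt h3
    exact absurd h7 h9.ne
  | succ n ih =>
    have hdeg : 0 < c.degree := by
      rw [degree_eq_natDegree hc, hn]
      exact_mod_cast Nat.succ_pos n
    obtain ⟨b, hb⟩ := IsAlgClosed.exists_root c hdeg.ne'
    obtain ⟨c', rfl⟩ := dvd_iff_isRoot.2 hb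
    have hc' : c' ≠ 0 := right_ne_zero_of_mul hc
    have hn' : c'.natDegree = n := by
      rw [natDegree_mul (X_sub_C_ne_zero b) hc', natDegree_X_sub_C] at hn
      omega
    by_cases ha : a.eval b = 0
    · obtain ⟨a', rfl⟩ := dvd_iff_isRoot.2 ha
      refine ih (a := a') hc' ?_ hn'
      rw [map_mul, map_mul, mul_assoc] at hx
      refine mul_left_cancel₀ ?_ hx
      rw [Ne, map_eq_zero_iff _ hφ]
      exact X_sub_C_ne_zero b
    · exfalso
      obtain ⟨A, hA⟩ := exists_place hφ b
      have h3 := h1 b A hA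
      have h4 : A.valuation (φ a) = 1 := hA.eval_ne ha
      have h6 : φ a = φ c' * (φ (X - C b) * x) := by
        rw [← hx, map_mul]
        ring
      rw [h6, map_mul] at h4
      have h5 : A.valuation (φ c') * A.valuation (φ (X - C b) * x) < 1 :=
        (mul_le_of_le_one_left' (hA.le _)).trans_lt h3
      exact absurd h4 h5.ne

end Pool.Agent.Helper32.Oval
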