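import Pool.Agent.Helper32.Oval.PlacesD

/-!
The estimates over infinity, and the sums over the roots.
-/

open Polynomial

namespace Pool.Agent.Helper32.Oval

variable {N : Type*} [Field N] {Γ₀ : Type*} [LinearOrderedCommGroupWithZero Γ₀]
variable {φ : ℂ[X] →+* N} {v : Valuation N Γ₀} {d : ℕ} {p : Polynomial (Polynomial ℂ)}

theorem coeff_prod_scale (O : Finset N) {ζ : N} (hζ : ζ ≠ 0) {j : ℕ} (hj : j ≤ O.card) :
    (∏ x ∈ O, (X - C (ζ * x))).coeff j = ζ ^ (O.card - j) * (∏ x ∈ O, (X - C x)).coeff j := by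
  have h1 : ∏ x ∈ O, (X - C (ζ * x)) =
      C (ζ ^ O.card) * (∏ x ∈ O, (X - C x)).comp (C ζ⁻¹ * X) := by
    rw [prod_comp, C_pow, ← Finset.prod_const, ← Finset.prod_mul_distrib]
    refine Finset.prod_congr rfl fun x _ => ?_
    rw [sub_comp, X_comp, C_comp, mul_sub, ← mul_assoc, ← C_mul, ← C_mul, mul_inv_cancel₀ hζ,
      C_1, one_mul]
  rw [h1, coeff_C_mul, comp_C_mul_X_coeff]
  obtain ⟨k, hk⟩ : ∃ k, O.card = k + j := ⟨O.card - j, by omega⟩
  rw [hk, Nat.add_sub_cancel, pow_add, inv_pow]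
  field_simp

theorem pow_identity (t a c y : Γ₀) (e k m : ℕ) :
    t ^ (1 + e + k + m) * (a * c * y ^ m) = t * (t ^ e * a * (t ^ k * c) * (t ^ m * y ^ m)) := by
  rw [pow_add, pow_add, pow_add, pow_one]
  ac_rfl

theorem SmoothChart.est0_inf (hq : SmoothChart d (flip d p))
    (hdeg : ∀ m, p.coeff m ≠ 0 → (p.coeff m).natDegree + m ≤ d) (hd : 3 ≤ d)
    (h : IsPlace (phiInf φ) 0 v) (hφ : Function.Injective φ) (halg : IsAlg φ) {y : N}
    (hr : p.eval₂ φ y = 0) {m : ℕ} (hm : m + 2 ≤ p.natDegree) (hpd : p.natDegree ≤ d) :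
    v y ^ m < v (p.derivative.eval₂ φ y) := by
  have hX := X_ne hφ
  have h1 := hq.est0 hd h (phiInf_injective hφ) (isAlg_phiInf hφ halg)
    (y := (φ X)⁻¹ * y) (by rw [eval₂_flip hφ hdeg, hr, mul_zero]) (m := m)
    (by rw [natDegree_flip hdeg]; exact hm)
  rw [derivative_eval₂_flip hφ (by omega) hdeg, C_0, sub_zero, phiInf_X, map_mul, map_mul,
    map_pow, mul_pow] at h1
  have hζ : v (φ X)⁻¹ ≠ 0 := (Valuation.ne_zero_iff _).2 (inv_ne_zero hX)
  have hζ1 : v (φ X)⁻¹ ≤ 1 := by rw [← phiInf_X]; exact h.le _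
  set t := v (φ X)⁻¹ with ht
  have h2 : t ^ (d - 1) ≤ t ^ (1 + m) := pow_le_pow_right_of_le_one' hζ1 (by omega)
  have h3 : t ^ (1 + m) * v y ^ m < t ^ (1 + m) * v (p.derivative.eval₂ φ y) := by
    calc t ^ (1 + m) * v y ^ m = t * (t ^ m * v y ^ m) := by rw [pow_add, pow_one, mul_assoc]
      _ < t ^ (d - 1) * v (p.derivative.eval₂ φ y) := h1
      _ ≤ t ^ (1 + m) * v (p.derivative.eval₂ φ y) := mul_le_mul_left h2 _
  exact lt_of_mul_lt_mul_left' h3

theorem SmoothChart.est_inf (hq : SmoothChart d (flip d p)) (hp : p ≠ 0)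
    (hdeg : ∀ m, p.coeff m ≠ 0 → (p.coeff m).natDegree + m ≤ d) (hd : 3 ≤ d)
    (h : IsPlace (phiInf φ) 0 v) (hφ : Function.Injective φ) (halg : IsAlg φ) {s : Finset N}
    (hs : HasRoots φ p s) {y : N} (hy : y ∈ s) {O : Finset N} (hO : O ⊆ s) (hyO : y ∉ O)
    {m k : ℕ} (hk : k ≤ O.card) (hm : m + k + 2 ≤ p.natDegree) :
    v (φ p.leadingCoeff) * v ((∏ x ∈ O, (X - C x)).coeff (O.card - k)) * v y ^ m <
      v (p.derivative.eval₂ φ y) := by
  classical
  have hX := X_ne hφ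
  have hpd : p.natDegree ≤ d := by
    have := hdeg p.natDegree (leadingCoeff_ne_zero.2 hp)
    omega
  have hinj : Function.Injective fun x : N => (φ X)⁻¹ * x := fun x y hxy =>
    mul_left_cancel₀ (inv_ne_zero hX) hxy
  have hs' := hs.flip hφ hdeg hp
  have hr : p.eval₂ φ y = 0 := by
    rw [hs.eval₂_eq, Finset.prod_eq_zero hy (sub_self y), mul_zero]
  have hb := hs'.coeff_bound h (O := O.image fun x => (φ X)⁻¹ * x) (Finset.image_subset_image hO)
    (Finset.mem_image_of_mem _ hy) (by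
      rw [Finset.mem_image]
      rintro ⟨x, hx, hxy⟩
      exact hyO (hinj hxy ▸ hx)) (O.card - k)
  rw [Finset.prod_image fun x _ y _ hxy => hinj hxy,
    coeff_prod_scale O (inv_ne_zero hX) (Nat.sub_le _ _), Nat.sub_sub_self hk] at hb
  have h1 := hq.est hd h (phiInf_injective hφ) (isAlg_phiInf hφ halg)
    (y := (φ X)⁻¹ * y) (by rw [eval₂_flip hφ hdeg, hr, mul_zero]) hb (m := m) (by omega)
  rw [derivative_eval₂_flip hφ (by omega) hdeg, C_0, sub_zero, phiInf_X,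
    phiInf_leadingCoeff_flip hφ hdeg] at h1
  simp only [map_mul, map_pow, mul_pow] at h1
  have hζ : v (φ X)⁻¹ ≠ 0 := (Valuation.ne_zero_iff _).2 (inv_ne_zero hX)
  have hζ1 : v (φ X)⁻¹ ≤ 1 := by rw [← phiInf_X]; exact h.le _
  set t := v (φ X)⁻¹ with ht
  have h2 : t ^ (d - 1) ≤ t ^ (1 + (d - p.natDegree) + k + m) :=
    pow_le_pow_right_of_le_one' hζ1 (by omega)
  have h3 : t ^ (1 + (d - p.natDegree) + k + m) *
      (v (φ p.leadingCoeff) * v ((∏ x ∈ O, (X - C x)).coeff (O.card - k)) * v y ^ m) <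
      t ^ (1 + (d - p.natDegree) + k + m) * v (p.derivative.eval₂ φ y) := by
    refine lt_of_lt_of_le ?_ (mul_le_mul_left h2 _)
    refine lt_of_eq_of_lt ?_ h1
    exact pow_identity _ _ _ _ _ _ _
  exact lt_of_mul_lt_mul_left' h3

/-- Sums over the roots pick out the leading coefficient. -/
theorem HasRoots.sum_eq {s : Finset N} (hφ : Function.Injective φ) (hs : HasRoots φ p s)
    (hp : p ≠ 0) {f : N[X]} (hf : f.degree < s.card) :
    φ p.leadingCoeff * ∑ y ∈ s, f.eval y / p.derivative.eval₂ φ y = f.coeff (s.card - 1) := by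
  classical
  have h0 : φ p.leadingCoeff ≠ 0 := by
    rw [Ne, map_eq_zero_iff _ hφ]
    exact leadingCoeff_ne_zero.2 hp
  have h1 := Lagrange.coeff_eq_sum (s := s) (v := id) (Function.injective_id.injOn) hf
  rw [h1, Finset.mul_sum]
  refine Finset.sum_congr rfl fun y hy => ?_
  have h2 : p.derivative.eval₂ φ y = φ p.leadingCoeff * ∏ x ∈ s.erase y, (y - x) := by
    rw [← eval_map, ← derivative_map, hs, derivative_C_mul, eval_mul, eval_C]
    congr 1
    have h3 := Lagrange.eval_nodal_derivative_eval_node_eq (s := s) (v := (id : N → N)) hy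
    rw [Lagrange.eval_nodal] at h3
    exact h3
  rw [h2]
  simp only [id_eq]
  by_cases h4 : ∏ x ∈ s.erase y, (y - x) = 0
  · rw [h4]; simp
  · field_simp

end Pool.Agent.Helper32.Oval
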